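import Pool.Agent.Strip051.LB.Fn.R
import Pool.Agent.Strip051.Box.C2
import Pool.Agent.Strip051.Box.S30

/-! # LINE functions: enclosures in 2 variable(s) -/

namespace Pool.Agent.Strip051.LB.Fn.F2

open Pool.Agent.Strip051.Box Pool.Agent.Strip051.Box2 Pool.Agent.Strip051.LB.Fn

variable {E : Pt} {A1 A2 A3 A4 A5 A6 A7 A8 : TM} {a1 a2 a3 a4 a5 a6 a7 a8 : ℝ}

def c1f_t1 (A1 : TM) : TM := tsq S (A1)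

theorem c1f_h1 (h1 : Enc S E A1 a1) : Enc S E (c1f_t1 A1) (c1f_v1 a1) := enc_sq hS (h1)

def c1f_t2 (_A1 : TM) : TM := tconst (Nat.mul 1 S) 0 0

theorem c1f_h2 (_h1 : Enc S E A1 a1) : Enc S E (c1f_t2 A1) (c1f_v2 a1) := enc_nc E 1

def c1f_t3 (A1 : TM) : TM := tsub (c1f_t2 A1) (c1f_t1 A1)

theorem c1f_h3 (h1 : Enc S E A1 a1) : Enc S E (c1f_t3 A1) (c1f_v3 a1) := enc_sub (c1f_h2 h1) (c1f_h1 h1)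

def c1f_t4 (A1 : TM) : TM := tsqrtg S (c1f_t3 A1)

theorem c1f_h4 (h1 : Enc S E A1 a1) : Enc S E (c1f_t4 A1) (c1f_v4 a1) := enc_sqrtg hS (c1f_h3 h1)

def c1f_t (A1 : TM) : TM := c1f_t4 A1

theorem c1f_enc (h1 : Enc S E A1 a1) : Enc S E (c1f_t A1) (c1f_v a1) := c1f_h4 h1

def c3f_t1 (A1 : TM) : TM := tsq S (A1)

theorem c3f_h1 (h1 : Enc S E A1 a1) : Enc S E (c3f_t1 A1) (c3f_v1 a1) := enc_sq hS (h1)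

def c3f_t2 (_A1 : TM) : TM := tconst (Nat.mul 3 S) 0 0

theorem c3f_h2 (_h1 : Enc S E A1 a1) : Enc S E (c3f_t2 A1) (c3f_v2 a1) := enc_nc E 3

def c3f_t3 (A1 : TM) : TM := tsub (c3f_t2 A1) (c3f_t1 A1)

theorem c3f_h3 (h1 : Enc S E A1 a1) : Enc S E (c3f_t3 A1) (c3f_v3 a1) := enc_sub (c3f_h2 h1) (c3f_h1 h1)

def c3f_t4 (A1 : TM) : TM := tsqrtg S (c3f_t3 A1)

theorem c3f_h4 (h1 : Enc S E A1 a1) : Enc S E (c3f_t4 A1) (c3f_v4 a1) := enc_sqrtg hS (c3f_h3 h1)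

def c3f_t (A1 : TM) : TM := c3f_t4 A1

theorem c3f_enc (h1 : Enc S E A1 a1) : Enc S E (c3f_t A1) (c3f_v a1) := c3f_h4 h1

def sw_t1 (_A1 : TM) : TM := tconst 1859775393 0 1

theorem sw_h1 (_h1 : Enc S E A1 a1) : Enc S E (sw_t1 A1) (sw_v1 a1) := enc_sqrtn E (by decide) (by decide)

def sw_t2 (A1 : TM) : TM := tscale 1 2 (sw_t1 A1)

theorem sw_h2 (h1 : Enc S E A1 a1) : Enc S E (sw_t2 A1) (sw_v2 a1) := enc_scale 1 (by norm_num) (sw_h1 h1)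

def sw_t3 (A1 : TM) : TM := tsub (A1) (sw_t2 A1)

theorem sw_h3 (h1 : Enc S E A1 a1) : Enc S E (sw_t3 A1) (sw_v3 a1) := enc_sub (h1) (sw_h2 h1)

def sw_t4 (A1 : TM) : TM := tsq S (sw_t3 A1)

theorem sw_h4 (h1 : Enc S E A1 a1) : Enc S E (sw_t4 A1) (sw_v4 a1) := enc_sq hS (sw_h3 h1)

def sw_t5 (_A1 : TM) : TM := tconst (Nat.mul 1 S) 0 0

theorem sw_h5 (_h1 : Enc S E A1 a1) : Enc S E (sw_t5 A1) (sw_v5 a1) := enc_nc E 1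

def sw_t6 (A1 : TM) : TM := tsub (sw_t5 A1) (sw_t4 A1)

theorem sw_h6 (h1 : Enc S E A1 a1) : Enc S E (sw_t6 A1) (sw_v6 a1) := enc_sub (sw_h5 h1) (sw_h4 h1)

def sw_t7 (A1 : TM) : TM := tsqrt S (sw_t6 A1)

theorem sw_h7 (h1 : Enc S E A1 a1) : Enc S E (sw_t7 A1) (sw_v7 a1) := enc_sqrt hS (sw_h6 h1)

def sw_t (A1 : TM) : TM := sw_t7 A1

theorem sw_enc (h1 : Enc S E A1 a1) : Enc S E (sw_t A1) (sw_v a1) := sw_h7 h1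

def f1m_t1 (A1 : TM) : TM := c1f_t (A1)

theorem f1m_h1 (h1 : Enc S E A1 a1) : Enc S E (f1m_t1 A1) (f1m_v1 a1) := c1f_enc (h1)

def f1m_t2 (A1 : TM) : TM := sw_t (A1)

theorem f1m_h2 (h1 : Enc S E A1 a1) : Enc S E (f1m_t2 A1) (f1m_v2 a1) := sw_enc (h1)

def f1m_t3 (A1 : TM) : TM := tadd (f1m_t1 A1) (f1m_t2 A1)

theorem f1m_h3 (h1 : Enc S E A1 a1) : Enc S E (f1m_t3 A1) (f1m_v3 a1) := enc_add (f1m_h1 h1) (f1m_h2 h1)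

def f1m_t4 (_A1 : TM) : TM := tconst (Nat.div (Nat.mul 1 S) 2) 0 1

theorem f1m_h4 (_h1 : Enc S E A1 a1) : Enc S E (f1m_t4 A1) (f1m_v4 a1) := enc_rat E 1 (by norm_num)

def f1m_t5 (A1 : TM) : TM := tadd (f1m_t3 A1) (f1m_t4 A1)

theorem f1m_h5 (h1 : Enc S E A1 a1) : Enc S E (f1m_t5 A1) (f1m_v5 a1) := enc_add (f1m_h3 h1) (f1m_h4 h1)

def f1m_t6 (A1 : TM) : TM := tscale 1 2 (f1m_t5 A1)

theorem f1m_h6 (h1 : Enc S E A1 a1) : Enc S E (f1m_t6 A1) (f1m_v6 a1) := enc_scale 1 (by norm_num) (f1m_h5 h1)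

def f1m_t (A1 : TM) : TM := f1m_t6 A1

theorem f1m_enc (h1 : Enc S E A1 a1) : Enc S E (f1m_t A1) (f1m_v a1) := f1m_h6 h1

def f1p_t1 (A1 : TM) : TM := c1f_t (A1)

theorem f1p_h1 (h1 : Enc S E A1 a1) : Enc S E (f1p_t1 A1) (f1p_v1 a1) := c1f_enc (h1)

def f1p_t2 (A1 : TM) : TM := sw_t (A1)

theorem f1p_h2 (h1 : Enc S E A1 a1) : Enc S E (f1p_t2 A1) (f1p_v2 a1) := sw_enc (h1)

def f1p_t3 (A1 : TM) : TM := tadd (f1p_t1 A1) (f1p_t2 A1)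

theorem f1p_h3 (h1 : Enc S E A1 a1) : Enc S E (f1p_t3 A1) (f1p_v3 a1) := enc_add (f1p_h1 h1) (f1p_h2 h1)

def f1p_t4 (_A1 : TM) : TM := tconst (Nat.div (Nat.mul 1 S) 2) 0 1

theorem f1p_h4 (_h1 : Enc S E A1 a1) : Enc S E (f1p_t4 A1) (f1p_v4 a1) := enc_rat E 1 (by norm_num)

def f1p_t5 (A1 : TM) : TM := tsub (f1p_t3 A1) (f1p_t4 A1)

theorem f1p_h5 (h1 : Enc S E A1 a1) : Enc S E (f1p_t5 A1) (f1p_v5 a1) := enc_sub (f1p_h3 h1) (f1p_h4 h1)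

def f1p_t6 (A1 : TM) : TM := tscale 1 2 (f1p_t5 A1)

theorem f1p_h6 (h1 : Enc S E A1 a1) : Enc S E (f1p_t6 A1) (f1p_v6 a1) := enc_scale 1 (by norm_num) (f1p_h5 h1)

def f1p_t (A1 : TM) : TM := f1p_t6 A1

theorem f1p_enc (h1 : Enc S E A1 a1) : Enc S E (f1p_t A1) (f1p_v a1) := f1p_h6 h1

def f2m_t1 (A1 : TM) : TM := sw_t (A1)

theorem f2m_h1 (h1 : Enc S E A1 a1) : Enc S E (f2m_t1 A1) (f2m_v1 a1) := sw_enc (h1)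

def f2m_t2 (_A1 : TM) : TM := tconst (Nat.div (Nat.mul 1 S) 2) 0 1

theorem f2m_h2 (_h1 : Enc S E A1 a1) : Enc S E (f2m_t2 A1) (f2m_v2 a1) := enc_rat E 1 (by norm_num)

def f2m_t3 (A1 : TM) : TM := tadd (f2m_t1 A1) (f2m_t2 A1)

theorem f2m_h3 (h1 : Enc S E A1 a1) : Enc S E (f2m_t3 A1) (f2m_v3 a1) := enc_add (f2m_h1 h1) (f2m_h2 h1)

def f2m_t4 (A1 : TM) : TM := c3f_t (A1)

theorem f2m_h4 (h1 : Enc S E A1 a1) : Enc S E (f2m_t4 A1) (f2m_v4 a1) := c3f_enc (h1)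

def f2m_t5 (A1 : TM) : TM := tadd (f2m_t3 A1) (f2m_t4 A1)

theorem f2m_h5 (h1 : Enc S E A1 a1) : Enc S E (f2m_t5 A1) (f2m_v5 a1) := enc_add (f2m_h3 h1) (f2m_h4 h1)

def f2m_t6 (A1 : TM) : TM := tscale 1 2 (f2m_t5 A1)

theorem f2m_h6 (h1 : Enc S E A1 a1) : Enc S E (f2m_t6 A1) (f2m_v6 a1) := enc_scale 1 (by norm_num) (f2m_h5 h1)

def f2m_t (A1 : TM) : TM := f2m_t6 A1

theorem f2m_enc (h1 : Enc S E A1 a1) : Enc S E (f2m_t A1) (f2m_v a1) := f2m_h6 h1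

def f2p_t1 (A1 : TM) : TM := sw_t (A1)

theorem f2p_h1 (h1 : Enc S E A1 a1) : Enc S E (f2p_t1 A1) (f2p_v1 a1) := sw_enc (h1)

def f2p_t2 (_A1 : TM) : TM := tconst (Nat.div (Nat.mul 1 S) 2) 0 1

theorem f2p_h2 (_h1 : Enc S E A1 a1) : Enc S E (f2p_t2 A1) (f2p_v2 a1) := enc_rat E 1 (by norm_num)

def f2p_t3 (A1 : TM) : TM := tsub (f2p_t1 A1) (f2p_t2 A1)

theorem f2p_h3 (h1 : Enc S E A1 a1) : Enc S E (f2p_t3 A1) (f2p_v3 a1) := enc_sub (f2p_h1 h1) (f2p_h2 h1)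

def f2p_t4 (A1 : TM) : TM := c3f_t (A1)

theorem f2p_h4 (h1 : Enc S E A1 a1) : Enc S E (f2p_t4 A1) (f2p_v4 a1) := c3f_enc (h1)

def f2p_t5 (A1 : TM) : TM := tadd (f2p_t3 A1) (f2p_t4 A1)

theorem f2p_h5 (h1 : Enc S E A1 a1) : Enc S E (f2p_t5 A1) (f2p_v5 a1) := enc_add (f2p_h3 h1) (f2p_h4 h1)

def f2p_t6 (A1 : TM) : TM := tscale 1 2 (f2p_t5 A1)

theorem f2p_h6 (h1 : Enc S E A1 a1) : Enc S E (f2p_t6 A1) (f2p_v6 a1) := enc_scale 1 (by norm_num) (f2p_h5 h1)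

def f2p_t (A1 : TM) : TM := f2p_t6 A1

theorem f2p_enc (h1 : Enc S E A1 a1) : Enc S E (f2p_t A1) (f2p_v a1) := f2p_h6 h1

def a1q0_t1 (A1 : TM) : TM := c1f_t (A1)

theorem a1q0_h1 (h1 : Enc S E A1 a1) : Enc S E (a1q0_t1 A1) (a1q0_v1 a1) := c1f_enc (h1)

def a1q0_t2 (_A1 : TM) : TM := tconst 1859775393 0 1

theorem a1q0_h2 (_h1 : Enc S E A1 a1) : Enc S E (a1q0_t2 A1) (a1q0_v2 a1) := enc_sqrtn E (by decide) (by decide)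

def a1q0_t3 (A1 : TM) : TM := tmul S (a1q0_t2 A1) (A1)

theorem a1q0_h3 (h1 : Enc S E A1 a1) : Enc S E (a1q0_t3 A1) (a1q0_v3 a1) := enc_mul hS (a1q0_h2 h1) (h1)

def a1q0_t4 (A1 : TM) : TM := tsub (a1q0_t1 A1) (a1q0_t3 A1)

theorem a1q0_h4 (h1 : Enc S E A1 a1) : Enc S E (a1q0_t4 A1) (a1q0_v4 a1) := enc_sub (a1q0_h1 h1) (a1q0_h3 h1)

def a1q0_t5 (_A1 : TM) : TM := tconst (Nat.mul 1 S) 0 0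

theorem a1q0_h5 (_h1 : Enc S E A1 a1) : Enc S E (a1q0_t5 A1) (a1q0_v5 a1) := enc_nc E 1

def a1q0_t6 (A1 : TM) : TM := tadd (a1q0_t5 A1) (a1q0_t1 A1)

theorem a1q0_h6 (h1 : Enc S E A1 a1) : Enc S E (a1q0_t6 A1) (a1q0_v6 a1) := enc_add (a1q0_h5 h1) (a1q0_h1 h1)

def a1q0_t7 (A1 : TM) : TM := tmul S (a1q0_t4 A1) (a1q0_t6 A1)

theorem a1q0_h7 (h1 : Enc S E A1 a1) : Enc S E (a1q0_t7 A1) (a1q0_v7 a1) := enc_mul hS (a1q0_h4 h1) (a1q0_h6 h1)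

def a1q0_t8 (A1 : TM) : TM := tsub (a1q0_t6 A1) (a1q0_t3 A1)

theorem a1q0_h8 (h1 : Enc S E A1 a1) : Enc S E (a1q0_t8 A1) (a1q0_v8 a1) := enc_sub (a1q0_h6 h1) (a1q0_h3 h1)

def a1q0_t9 (A1 : TM) : TM := tinv S (a1q0_t8 A1)

theorem a1q0_h9 (h1 : Enc S E A1 a1) : Enc S E (a1q0_t9 A1) (a1q0_v9 a1) := enc_inv hS (a1q0_h8 h1)

def a1q0_t10 (A1 : TM) : TM := tmul S (a1q0_t7 A1) (a1q0_t9 A1)

theorem a1q0_h10 (h1 : Enc S E A1 a1) : Enc S E (a1q0_t10 A1) (a1q0_v10 a1) := enc_mul hS (a1q0_h7 h1) (a1q0_h9 h1)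

def a1q0_t (A1 : TM) : TM := a1q0_t10 A1

theorem a1q0_enc (h1 : Enc S E A1 a1) : Enc S E (a1q0_t A1) (a1q0_v a1) := a1q0_h10 h1

def a1q1_t1 (A1 : TM) : TM := c1f_t (A1)

theorem a1q1_h1 (h1 : Enc S E A1 a1) : Enc S E (a1q1_t1 A1) (a1q1_v1 a1) := c1f_enc (h1)

def a1q1_t2 (_A1 : TM) : TM := tconst 1859775393 0 1

theorem a1q1_h2 (_h1 : Enc S E A1 a1) : Enc S E (a1q1_t2 A1) (a1q1_v2 a1) := enc_sqrtn E (by decide) (by decide)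

def a1q1_t3 (A1 : TM) : TM := tnat 2 (a1q1_t1 A1)

theorem a1q1_h3 (h1 : Enc S E A1 a1) : Enc S E (a1q1_t3 A1) (a1q1_v3 a1) := enc_nat 2 (a1q1_h1 h1)

def a1q1_t4 (_A1 : TM) : TM := tconst (Nat.mul 1 S) 0 0

theorem a1q1_h4 (_h1 : Enc S E A1 a1) : Enc S E (a1q1_t4 A1) (a1q1_v4 a1) := enc_nc E 1

def a1q1_t5 (A1 : TM) : TM := tadd (a1q1_t4 A1) (a1q1_t3 A1)

theorem a1q1_h5 (h1 : Enc S E A1 a1) : Enc S E (a1q1_t5 A1) (a1q1_v5 a1) := enc_add (a1q1_h4 h1) (a1q1_h3 h1)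

def a1q1_t6 (A1 : TM) : TM := tmul S (a1q1_t2 A1) (A1)

theorem a1q1_h6 (h1 : Enc S E A1 a1) : Enc S E (a1q1_t6 A1) (a1q1_v6 a1) := enc_mul hS (a1q1_h2 h1) (h1)

def a1q1_t7 (A1 : TM) : TM := tsub (a1q1_t6 A1) (a1q1_t1 A1)

theorem a1q1_h7 (h1 : Enc S E A1 a1) : Enc S E (a1q1_t7 A1) (a1q1_v7 a1) := enc_sub (a1q1_h6 h1) (a1q1_h1 h1)

def a1q1_t8 (A1 : TM) : TM := tmul S (a1q1_t5 A1) (a1q1_t7 A1)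

theorem a1q1_h8 (h1 : Enc S E A1 a1) : Enc S E (a1q1_t8 A1) (a1q1_v8 a1) := enc_mul hS (a1q1_h5 h1) (a1q1_h7 h1)

def a1q1_t9 (A1 : TM) : TM := tadd (a1q1_t4 A1) (a1q1_t6 A1)

theorem a1q1_h9 (h1 : Enc S E A1 a1) : Enc S E (a1q1_t9 A1) (a1q1_v9 a1) := enc_add (a1q1_h4 h1) (a1q1_h6 h1)

def a1q1_t10 (A1 : TM) : TM := tsub (a1q1_t9 A1) (a1q1_t1 A1)

theorem a1q1_h10 (h1 : Enc S E A1 a1) : Enc S E (a1q1_t10 A1) (a1q1_v10 a1) := enc_sub (a1q1_h9 h1) (a1q1_h1 h1)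

def a1q1_t11 (A1 : TM) : TM := tnat 2 (a1q1_t10 A1)

theorem a1q1_h11 (h1 : Enc S E A1 a1) : Enc S E (a1q1_t11 A1) (a1q1_v11 a1) := enc_nat 2 (a1q1_h10 h1)

def a1q1_t12 (A1 : TM) : TM := tinv S (a1q1_t11 A1)

theorem a1q1_h12 (h1 : Enc S E A1 a1) : Enc S E (a1q1_t12 A1) (a1q1_v12 a1) := enc_inv hS (a1q1_h11 h1)

def a1q1_t13 (A1 : TM) : TM := tmul S (a1q1_t8 A1) (a1q1_t12 A1)

theorem a1q1_h13 (h1 : Enc S E A1 a1) : Enc S E (a1q1_t13 A1) (a1q1_v13 a1) := enc_mul hS (a1q1_h8 h1) (a1q1_h12 h1)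

def a1q1_t (A1 : TM) : TM := a1q1_t13 A1

theorem a1q1_enc (h1 : Enc S E A1 a1) : Enc S E (a1q1_t A1) (a1q1_v a1) := a1q1_h13 h1

def a3q0_t1 (A1 : TM) : TM := c3f_t (A1)

theorem a3q0_h1 (h1 : Enc S E A1 a1) : Enc S E (a3q0_t1 A1) (a3q0_v1 a1) := c3f_enc (h1)

def a3q0_t2 (_A1 : TM) : TM := tconst 1859775393 0 1

theorem a3q0_h2 (_h1 : Enc S E A1 a1) : Enc S E (a3q0_t2 A1) (a3q0_v2 a1) := enc_sqrtn E (by decide) (by decide)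

def a3q0_t3 (A1 : TM) : TM := tscale 1 2 (a3q0_t2 A1)

theorem a3q0_h3 (h1 : Enc S E A1 a1) : Enc S E (a3q0_t3 A1) (a3q0_v3 a1) := enc_scale 1 (by norm_num) (a3q0_h2 h1)

def a3q0_t4 (A1 : TM) : TM := tsq S (A1)

theorem a3q0_h4 (h1 : Enc S E A1 a1) : Enc S E (a3q0_t4 A1) (a3q0_v4 a1) := enc_sq hS (h1)

def a3q0_t5 (_A1 : TM) : TM := tconst (Nat.div (Nat.mul 3 S) 2) 0 1

theorem a3q0_h5 (_h1 : Enc S E A1 a1) : Enc S E (a3q0_t5 A1) (a3q0_v5 a1) := enc_rat E 3 (by norm_num)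

def a3q0_t6 (A1 : TM) : TM := tadd (a3q0_t1 A1) (a3q0_t5 A1)

theorem a3q0_h6 (h1 : Enc S E A1 a1) : Enc S E (a3q0_t6 A1) (a3q0_v6 a1) := enc_add (a3q0_h1 h1) (a3q0_h5 h1)

def a3q0_t7 (A1 : TM) : TM := tmul S (a3q0_t4 A1) (a3q0_t6 A1)

theorem a3q0_h7 (h1 : Enc S E A1 a1) : Enc S E (a3q0_t7 A1) (a3q0_v7 a1) := enc_mul hS (a3q0_h4 h1) (a3q0_h6 h1)

def a3q0_t8 (A1 : TM) : TM := tsub (a3q0_t3 A1) (A1)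

theorem a3q0_h8 (h1 : Enc S E A1 a1) : Enc S E (a3q0_t8 A1) (a3q0_v8 a1) := enc_sub (a3q0_h3 h1) (h1)

def a3q0_t9 (A1 : TM) : TM := tadd (a3q0_t3 A1) (A1)

theorem a3q0_h9 (h1 : Enc S E A1 a1) : Enc S E (a3q0_t9 A1) (a3q0_v9 a1) := enc_add (a3q0_h3 h1) (h1)

def a3q0_t10 (A1 : TM) : TM := tmul S (a3q0_t8 A1) (a3q0_t9 A1)

theorem a3q0_h10 (h1 : Enc S E A1 a1) : Enc S E (a3q0_t10 A1) (a3q0_v10 a1) := enc_mul hS (a3q0_h8 h1) (a3q0_h9 h1)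

def a3q0_t11 (A1 : TM) : TM := tinv S (a3q0_t10 A1)

theorem a3q0_h11 (h1 : Enc S E A1 a1) : Enc S E (a3q0_t11 A1) (a3q0_v11 a1) := enc_inv hS (a3q0_h10 h1)

def a3q0_t12 (A1 : TM) : TM := tmul S (a3q0_t7 A1) (a3q0_t11 A1)

theorem a3q0_h12 (h1 : Enc S E A1 a1) : Enc S E (a3q0_t12 A1) (a3q0_v12 a1) := enc_mul hS (a3q0_h7 h1) (a3q0_h11 h1)

def a3q0_t13 (A1 : TM) : TM := tneg (a3q0_t12 A1)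

theorem a3q0_h13 (h1 : Enc S E A1 a1) : Enc S E (a3q0_t13 A1) (a3q0_v13 a1) := enc_neg (a3q0_h12 h1)

def a3q0_t (A1 : TM) : TM := a3q0_t13 A1

theorem a3q0_enc (h1 : Enc S E A1 a1) : Enc S E (a3q0_t A1) (a3q0_v a1) := a3q0_h13 h1

def a3q1_t1 (A1 : TM) : TM := c3f_t (A1)

theorem a3q1_h1 (h1 : Enc S E A1 a1) : Enc S E (a3q1_t1 A1) (a3q1_v1 a1) := c3f_enc (h1)

def a3q1_t2 (_A1 : TM) : TM := tconst 1859775393 0 1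

theorem a3q1_h2 (_h1 : Enc S E A1 a1) : Enc S E (a3q1_t2 A1) (a3q1_v2 a1) := enc_sqrtn E (by decide) (by decide)

def a3q1_t3 (A1 : TM) : TM := tscale 1 2 (a3q1_t2 A1)

theorem a3q1_h3 (h1 : Enc S E A1 a1) : Enc S E (a3q1_t3 A1) (a3q1_v3 a1) := enc_scale 1 (by norm_num) (a3q1_h2 h1)

def a3q1_t4 (_A1 : TM) : TM := tconst (Nat.div (Nat.mul 3 S) 2) 0 1

theorem a3q1_h4 (_h1 : Enc S E A1 a1) : Enc S E (a3q1_t4 A1) (a3q1_v4 a1) := enc_rat E 3 (by norm_num)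

def a3q1_t5 (A1 : TM) : TM := tadd (a3q1_t1 A1) (a3q1_t4 A1)

theorem a3q1_h5 (h1 : Enc S E A1 a1) : Enc S E (a3q1_t5 A1) (a3q1_v5 a1) := enc_add (a3q1_h1 h1) (a3q1_h4 h1)

def a3q1_t6 (A1 : TM) : TM := tmul S (A1) (a3q1_t5 A1)

theorem a3q1_h6 (h1 : Enc S E A1 a1) : Enc S E (a3q1_t6 A1) (a3q1_v6 a1) := enc_mul hS (h1) (a3q1_h5 h1)

def a3q1_t7 (A1 : TM) : TM := tadd (a3q1_t3 A1) (A1)

theorem a3q1_h7 (h1 : Enc S E A1 a1) : Enc S E (a3q1_t7 A1) (a3q1_v7 a1) := enc_add (a3q1_h3 h1) (h1)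

def a3q1_t8 (A1 : TM) : TM := tinv S (a3q1_t7 A1)

theorem a3q1_h8 (h1 : Enc S E A1 a1) : Enc S E (a3q1_t8 A1) (a3q1_v8 a1) := enc_inv hS (a3q1_h7 h1)

def a3q1_t9 (A1 : TM) : TM := tmul S (a3q1_t6 A1) (a3q1_t8 A1)

theorem a3q1_h9 (h1 : Enc S E A1 a1) : Enc S E (a3q1_t9 A1) (a3q1_v9 a1) := enc_mul hS (a3q1_h6 h1) (a3q1_h8 h1)

def a3q1_t (A1 : TM) : TM := a3q1_t9 A1

theorem a3q1_enc (h1 : Enc S E A1 a1) : Enc S E (a3q1_t A1) (a3q1_v a1) := a3q1_h9 h1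

def a3q2_t1 (A1 : TM) : TM := c3f_t (A1)

theorem a3q2_h1 (h1 : Enc S E A1 a1) : Enc S E (a3q2_t1 A1) (a3q2_v1 a1) := c3f_enc (h1)

def a3q2_t2 (_A1 : TM) : TM := tconst 1859775393 0 1

theorem a3q2_h2 (_h1 : Enc S E A1 a1) : Enc S E (a3q2_t2 A1) (a3q2_v2 a1) := enc_sqrtn E (by decide) (by decide)

def a3q2_t4 (A1 : TM) : TM := tmul S (a3q2_t2 A1) (a3q2_t1 A1)

theorem a3q2_h4 (h1 : Enc S E A1 a1) : Enc S E (a3q2_t4 A1) (a3q2_v4 a1) := enc_mul hS (a3q2_h2 h1) (a3q2_h1 h1)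

def a3q2_t5 (A1 : TM) : TM := tsub (a3q2_t4 A1) (A1)

theorem a3q2_h5 (h1 : Enc S E A1 a1) : Enc S E (a3q2_t5 A1) (a3q2_v5 a1) := enc_sub (a3q2_h4 h1) (h1)

def a3q2_t6 (_A1 : TM) : TM := tconst (Nat.mul 3 S) 0 0

theorem a3q2_h6 (_h1 : Enc S E A1 a1) : Enc S E (a3q2_t6 A1) (a3q2_v6 a1) := enc_nc E 3

def a3q2_t7 (A1 : TM) : TM := tadd (a3q2_t1 A1) (a3q2_t6 A1)

theorem a3q2_h7 (h1 : Enc S E A1 a1) : Enc S E (a3q2_t7 A1) (a3q2_v7 a1) := enc_add (a3q2_h1 h1) (a3q2_h6 h1)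

def a3q2_t8 (A1 : TM) : TM := tmul S (a3q2_t2 A1) (A1)

theorem a3q2_h8 (h1 : Enc S E A1 a1) : Enc S E (a3q2_t8 A1) (a3q2_v8 a1) := enc_mul hS (a3q2_h2 h1) (h1)

def a3q2_t9 (A1 : TM) : TM := tsub (a3q2_t7 A1) (a3q2_t8 A1)

theorem a3q2_h9 (h1 : Enc S E A1 a1) : Enc S E (a3q2_t9 A1) (a3q2_v9 a1) := enc_sub (a3q2_h7 h1) (a3q2_h8 h1)

def a3q2_t10 (A1 : TM) : TM := tmul S (a3q2_t5 A1) (a3q2_t9 A1)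

theorem a3q2_h10 (h1 : Enc S E A1 a1) : Enc S E (a3q2_t10 A1) (a3q2_v10 a1) := enc_mul hS (a3q2_h5 h1) (a3q2_h9 h1)

def a3q2_t11 (A1 : TM) : TM := tsub (a3q2_t2 A1) (A1)

theorem a3q2_h11 (h1 : Enc S E A1 a1) : Enc S E (a3q2_t11 A1) (a3q2_v11 a1) := enc_sub (a3q2_h2 h1) (h1)

def a3q2_t12 (A1 : TM) : TM := tnat 4 (a3q2_t11 A1)

theorem a3q2_h12 (h1 : Enc S E A1 a1) : Enc S E (a3q2_t12 A1) (a3q2_v12 a1) := enc_nat 4 (a3q2_h11 h1)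

def a3q2_t13 (A1 : TM) : TM := tinv S (a3q2_t12 A1)

theorem a3q2_h13 (h1 : Enc S E A1 a1) : Enc S E (a3q2_t13 A1) (a3q2_v13 a1) := enc_inv hS (a3q2_h12 h1)

def a3q2_t14 (A1 : TM) : TM := tmul S (a3q2_t10 A1) (a3q2_t13 A1)

theorem a3q2_h14 (h1 : Enc S E A1 a1) : Enc S E (a3q2_t14 A1) (a3q2_v14 a1) := enc_mul hS (a3q2_h10 h1) (a3q2_h13 h1)

def a3q2_t (A1 : TM) : TM := a3q2_t14 A1

theorem a3q2_enc (h1 : Enc S E A1 a1) : Enc S E (a3q2_t A1) (a3q2_v a1) := a3q2_h14 h1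

def a3q3_t1 (A1 : TM) : TM := c3f_t (A1)

theorem a3q3_h1 (h1 : Enc S E A1 a1) : Enc S E (a3q3_t1 A1) (a3q3_v1 a1) := c3f_enc (h1)

def a3q3_t2 (_A1 : TM) : TM := tconst 1859775393 0 1

theorem a3q3_h2 (_h1 : Enc S E A1 a1) : Enc S E (a3q3_t2 A1) (a3q3_v2 a1) := enc_sqrtn E (by decide) (by decide)

def a3q3_t3 (A1 : TM) : TM := tscale 1 2 (a3q3_t2 A1)

theorem a3q3_h3 (h1 : Enc S E A1 a1) : Enc S E (a3q3_t3 A1) (a3q3_v3 a1) := enc_scale 1 (by norm_num) (a3q3_h2 h1)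

def a3q3_t4 (A1 : TM) : TM := tmul S (a3q3_t2 A1) (a3q3_t1 A1)

theorem a3q3_h4 (h1 : Enc S E A1 a1) : Enc S E (a3q3_t4 A1) (a3q3_v4 a1) := enc_mul hS (a3q3_h2 h1) (a3q3_h1 h1)

def a3q3_t5 (A1 : TM) : TM := tsub (a3q3_t4 A1) (A1)

theorem a3q3_h5 (h1 : Enc S E A1 a1) : Enc S E (a3q3_t5 A1) (a3q3_v5 a1) := enc_sub (a3q3_h4 h1) (h1)

def a3q3_t6 (_A1 : TM) : TM := tconst (Nat.mul 3 S) 0 0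

theorem a3q3_h6 (_h1 : Enc S E A1 a1) : Enc S E (a3q3_t6 A1) (a3q3_v6 a1) := enc_nc E 3

def a3q3_t7 (A1 : TM) : TM := tadd (a3q3_t1 A1) (a3q3_t6 A1)

theorem a3q3_h7 (h1 : Enc S E A1 a1) : Enc S E (a3q3_t7 A1) (a3q3_v7 a1) := enc_add (a3q3_h1 h1) (a3q3_h6 h1)

def a3q3_t8 (A1 : TM) : TM := tmul S (a3q3_t2 A1) (A1)

theorem a3q3_h8 (h1 : Enc S E A1 a1) : Enc S E (a3q3_t8 A1) (a3q3_v8 a1) := enc_mul hS (a3q3_h2 h1) (h1)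

def a3q3_t9 (A1 : TM) : TM := tsub (a3q3_t7 A1) (a3q3_t8 A1)

theorem a3q3_h9 (h1 : Enc S E A1 a1) : Enc S E (a3q3_t9 A1) (a3q3_v9 a1) := enc_sub (a3q3_h7 h1) (a3q3_h8 h1)

def a3q3_t10 (A1 : TM) : TM := tmul S (a3q3_t5 A1) (a3q3_t9 A1)

theorem a3q3_h10 (h1 : Enc S E A1 a1) : Enc S E (a3q3_t10 A1) (a3q3_v10 a1) := enc_mul hS (a3q3_h5 h1) (a3q3_h9 h1)

def a3q3_t11 (A1 : TM) : TM := tsub (A1) (a3q3_t3 A1)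

theorem a3q3_h11 (h1 : Enc S E A1 a1) : Enc S E (a3q3_t11 A1) (a3q3_v11 a1) := enc_sub (h1) (a3q3_h3 h1)

def a3q3_t12 (A1 : TM) : TM := tnat 4 (a3q3_t11 A1)

theorem a3q3_h12 (h1 : Enc S E A1 a1) : Enc S E (a3q3_t12 A1) (a3q3_v12 a1) := enc_nat 4 (a3q3_h11 h1)

def a3q3_t13 (A1 : TM) : TM := tinv S (a3q3_t12 A1)

theorem a3q3_h13 (h1 : Enc S E A1 a1) : Enc S E (a3q3_t13 A1) (a3q3_v13 a1) := enc_inv hS (a3q3_h12 h1)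

def a3q3_t14 (A1 : TM) : TM := tmul S (a3q3_t10 A1) (a3q3_t13 A1)

theorem a3q3_h14 (h1 : Enc S E A1 a1) : Enc S E (a3q3_t14 A1) (a3q3_v14 a1) := enc_mul hS (a3q3_h10 h1) (a3q3_h13 h1)

def a3q3_t15 (A1 : TM) : TM := tneg (a3q3_t14 A1)

theorem a3q3_h15 (h1 : Enc S E A1 a1) : Enc S E (a3q3_t15 A1) (a3q3_v15 a1) := enc_neg (a3q3_h14 h1)

def a3q3_t (A1 : TM) : TM := a3q3_t15 A1

theorem a3q3_enc (h1 : Enc S E A1 a1) : Enc S E (a3q3_t A1) (a3q3_v a1) := a3q3_h15 h1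

def b1q0_t1 (A1 : TM) : TM := tnat 4 (A1)

theorem b1q0_h1 (h1 : Enc S E A1 a1) : Enc S E (b1q0_t1 A1) (b1q0_v1 a1) := enc_nat 4 (h1)

def b1q0_t2 (_A1 : TM) : TM := tconst 1859775393 0 1

theorem b1q0_h2 (_h1 : Enc S E A1 a1) : Enc S E (b1q0_t2 A1) (b1q0_v2 a1) := enc_sqrtn E (by decide) (by decide)

def b1q0_t3 (A1 : TM) : TM := tscale 1 2 (b1q0_t2 A1)

theorem b1q0_h3 (h1 : Enc S E A1 a1) : Enc S E (b1q0_t3 A1) (b1q0_v3 a1) := enc_scale 1 (by norm_num) (b1q0_h2 h1)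

def b1q0_t4 (A1 : TM) : TM := tsub (b1q0_t1 A1) (b1q0_t3 A1)

theorem b1q0_h4 (h1 : Enc S E A1 a1) : Enc S E (b1q0_t4 A1) (b1q0_v4 a1) := enc_sub (b1q0_h1 h1) (b1q0_h3 h1)

def b1q0_t5 (A1 : TM) : TM := tmul S (A1) (b1q0_t2 A1)

theorem b1q0_h5 (h1 : Enc S E A1 a1) : Enc S E (b1q0_t5 A1) (b1q0_v5 a1) := enc_mul hS (h1) (b1q0_h2 h1)

def b1q0_t6 (A1 : TM) : TM := tscale 298 375 (b1q0_t5 A1)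

theorem b1q0_h6 (h1 : Enc S E A1 a1) : Enc S E (b1q0_t6 A1) (b1q0_v6 a1) := enc_scale 298 (by norm_num) (b1q0_h5 h1)

def b1q0_t8 (_A1 : TM) : TM := tconst (Nat.mul 1 S) 0 0

theorem b1q0_h8 (_h1 : Enc S E A1 a1) : Enc S E (b1q0_t8 A1) (b1q0_v8 a1) := enc_nc E 1

def b1q0_t9 (A1 : TM) : TM := tsub (b1q0_t8 A1) (b1q0_t6 A1)

theorem b1q0_h9 (h1 : Enc S E A1 a1) : Enc S E (b1q0_t9 A1) (b1q0_v9 a1) := enc_sub (b1q0_h8 h1) (b1q0_h6 h1)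

def b1q0_t10 (A1 : TM) : TM := tscale 83 375 (b1q0_t5 A1)

theorem b1q0_h10 (h1 : Enc S E A1 a1) : Enc S E (b1q0_t10 A1) (b1q0_v10 a1) := enc_scale 83 (by norm_num) (b1q0_h5 h1)

def b1q0_t12 (_A1 : TM) : TM := tconst (Nat.div (Nat.mul 157 S) 200) 0 1

theorem b1q0_h12 (_h1 : Enc S E A1 a1) : Enc S E (b1q0_t12 A1) (b1q0_v12 a1) := enc_rat E 157 (by norm_num)

def b1q0_t13 (A1 : TM) : TM := tsub (b1q0_t12 A1) (b1q0_t10 A1)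

theorem b1q0_h13 (h1 : Enc S E A1 a1) : Enc S E (b1q0_t13 A1) (b1q0_v13 a1) := enc_sub (b1q0_h12 h1) (b1q0_h10 h1)

def b1q0_t14 (A1 : TM) : TM := tcase (b1q0_t4 A1) (b1q0_t9 A1) (b1q0_t13 A1)

theorem b1q0_h14 (h1 : Enc S E A1 a1) : Enc S E (b1q0_t14 A1) (b1q0_v14 a1) := enc_case hS (b1q0_h4 h1) (b1q0_h9 h1) (b1q0_h13 h1)

def b1q0_t (A1 : TM) : TM := b1q0_t14 A1

theorem b1q0_enc (h1 : Enc S E A1 a1) : Enc S E (b1q0_t A1) (b1q0_v a1) := b1q0_h14 h1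

def b1q1_t1 (_A1 : TM) : TM := tconst 1859775393 0 1

theorem b1q1_h1 (_h1 : Enc S E A1 a1) : Enc S E (b1q1_t1 A1) (b1q1_v1 a1) := enc_sqrtn E (by decide) (by decide)

def b1q1_t2 (A1 : TM) : TM := tmul S (A1) (b1q1_t1 A1)

theorem b1q1_h2 (h1 : Enc S E A1 a1) : Enc S E (b1q1_t2 A1) (b1q1_v2 a1) := enc_mul hS (h1) (b1q1_h1 h1)

def b1q1_t3 (A1 : TM) : TM := tscale 142 75 (b1q1_t2 A1)

theorem b1q1_h3 (h1 : Enc S E A1 a1) : Enc S E (b1q1_t3 A1) (b1q1_v3 a1) := enc_scale 142 (by norm_num) (b1q1_h2 h1)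

def b1q1_t4 (_A1 : TM) : TM := tconst (Nat.div (Nat.mul 79 S) 40) 0 1

theorem b1q1_h4 (_h1 : Enc S E A1 a1) : Enc S E (b1q1_t4 A1) (b1q1_v4 a1) := enc_rat E 79 (by norm_num)

def b1q1_t6 (A1 : TM) : TM := tsub (b1q1_t3 A1) (b1q1_t4 A1)

theorem b1q1_h6 (h1 : Enc S E A1 a1) : Enc S E (b1q1_t6 A1) (b1q1_v6 a1) := enc_sub (b1q1_h3 h1) (b1q1_h4 h1)

def b1q1_t (A1 : TM) : TM := b1q1_t6 A1

theorem b1q1_enc (h1 : Enc S E A1 a1) : Enc S E (b1q1_t A1) (b1q1_v a1) := b1q1_h6 h1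

def b1q2_t1 (_A1 : TM) : TM := tconst 1859775393 0 1

theorem b1q2_h1 (_h1 : Enc S E A1 a1) : Enc S E (b1q2_t1 A1) (b1q2_v1 a1) := enc_sqrtn E (by decide) (by decide)

def b1q2_t2 (A1 : TM) : TM := tmul S (A1) (b1q2_t1 A1)

theorem b1q2_h2 (h1 : Enc S E A1 a1) : Enc S E (b1q2_t2 A1) (b1q2_v2 a1) := enc_mul hS (h1) (b1q2_h1 h1)

def b1q2_t3 (A1 : TM) : TM := tscale 98 375 (b1q2_t2 A1)

theorem b1q2_h3 (h1 : Enc S E A1 a1) : Enc S E (b1q2_t3 A1) (b1q2_v3 a1) := enc_scale 98 (by norm_num) (b1q2_h2 h1)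

def b1q2_t5 (_A1 : TM) : TM := tconst (Nat.div (Nat.mul 174 S) 125) 0 1

theorem b1q2_h5 (_h1 : Enc S E A1 a1) : Enc S E (b1q2_t5 A1) (b1q2_v5 a1) := enc_rat E 174 (by norm_num)

def b1q2_t6 (A1 : TM) : TM := tsub (b1q2_t5 A1) (b1q2_t3 A1)

theorem b1q2_h6 (h1 : Enc S E A1 a1) : Enc S E (b1q2_t6 A1) (b1q2_v6 a1) := enc_sub (b1q2_h5 h1) (b1q2_h3 h1)

def b1q2_t8 (_A1 : TM) : TM := tconst (Nat.mul 1 S) 0 0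

theorem b1q2_h8 (_h1 : Enc S E A1 a1) : Enc S E (b1q2_t8 A1) (b1q2_v8 a1) := enc_nc E 1

def b1q2_t9 (A1 : TM) : TM := tsub (A1) (b1q2_t8 A1)

theorem b1q2_h9 (h1 : Enc S E A1 a1) : Enc S E (b1q2_t9 A1) (b1q2_v9 a1) := enc_sub (h1) (b1q2_h8 h1)

def b1q2_t10 (A1 : TM) : TM := tscale 49 1000 (b1q2_t9 A1)

theorem b1q2_h10 (h1 : Enc S E A1 a1) : Enc S E (b1q2_t10 A1) (b1q2_v10 a1) := enc_scale 49 (by norm_num) (b1q2_h9 h1)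

def b1q2_t11 (A1 : TM) : TM := tscale 9 16 (b1q2_t1 A1)

theorem b1q2_h11 (h1 : Enc S E A1 a1) : Enc S E (b1q2_t11 A1) (b1q2_v11 a1) := enc_scale 9 (by norm_num) (b1q2_h1 h1)

def b1q2_t12 (A1 : TM) : TM := tsub (b1q2_t8 A1) (b1q2_t11 A1)

theorem b1q2_h12 (h1 : Enc S E A1 a1) : Enc S E (b1q2_t12 A1) (b1q2_v12 a1) := enc_sub (b1q2_h8 h1) (b1q2_h11 h1)

def b1q2_t13 (A1 : TM) : TM := tinv S (b1q2_t12 A1)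

theorem b1q2_h13 (h1 : Enc S E A1 a1) : Enc S E (b1q2_t13 A1) (b1q2_v13 a1) := enc_inv hS (b1q2_h12 h1)

def b1q2_t14 (A1 : TM) : TM := tmul S (b1q2_t10 A1) (b1q2_t13 A1)

theorem b1q2_h14 (h1 : Enc S E A1 a1) : Enc S E (b1q2_t14 A1) (b1q2_v14 a1) := enc_mul hS (b1q2_h10 h1) (b1q2_h13 h1)

def b1q2_t15 (A1 : TM) : TM := tadd (b1q2_t8 A1) (b1q2_t14 A1)

theorem b1q2_h15 (h1 : Enc S E A1 a1) : Enc S E (b1q2_t15 A1) (b1q2_v15 a1) := enc_add (b1q2_h8 h1) (b1q2_h14 h1)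

def b1q2_t16 (A1 : TM) : TM := tscale 1033 1000 (b1q2_t9 A1)

theorem b1q2_h16 (h1 : Enc S E A1 a1) : Enc S E (b1q2_t16 A1) (b1q2_v16 a1) := enc_scale 1033 (by norm_num) (b1q2_h9 h1)

def b1q2_t18 (A1 : TM) : TM := tscale 3 4 (b1q2_t1 A1)

theorem b1q2_h18 (h1 : Enc S E A1 a1) : Enc S E (b1q2_t18 A1) (b1q2_v18 a1) := enc_scale 3 (by norm_num) (b1q2_h1 h1)

def b1q2_t19 (A1 : TM) : TM := tsub (b1q2_t18 A1) (b1q2_t8 A1)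

theorem b1q2_h19 (h1 : Enc S E A1 a1) : Enc S E (b1q2_t19 A1) (b1q2_v19 a1) := enc_sub (b1q2_h18 h1) (b1q2_h8 h1)

def b1q2_t20 (A1 : TM) : TM := tinv S (b1q2_t19 A1)

theorem b1q2_h20 (h1 : Enc S E A1 a1) : Enc S E (b1q2_t20 A1) (b1q2_v20 a1) := enc_inv hS (b1q2_h19 h1)

def b1q2_t21 (A1 : TM) : TM := tmul S (b1q2_t16 A1) (b1q2_t20 A1)

theorem b1q2_h21 (h1 : Enc S E A1 a1) : Enc S E (b1q2_t21 A1) (b1q2_v21 a1) := enc_mul hS (b1q2_h16 h1) (b1q2_h20 h1)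

def b1q2_t23 (A1 : TM) : TM := tsub (b1q2_t8 A1) (b1q2_t21 A1)

theorem b1q2_h23 (h1 : Enc S E A1 a1) : Enc S E (b1q2_t23 A1) (b1q2_v23 a1) := enc_sub (b1q2_h8 h1) (b1q2_h21 h1)

def b1q2_t24 (A1 : TM) : TM := tsub (A1) (b1q2_t11 A1)

theorem b1q2_h24 (h1 : Enc S E A1 a1) : Enc S E (b1q2_t24 A1) (b1q2_v24 a1) := enc_sub (h1) (b1q2_h11 h1)

def b1q2_t25 (A1 : TM) : TM := tcase (b1q2_t24 A1) (b1q2_t6 A1) (b1q2_t15 A1)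

theorem b1q2_h25 (h1 : Enc S E A1 a1) : Enc S E (b1q2_t25 A1) (b1q2_v25 a1) := enc_case hS (b1q2_h24 h1) (b1q2_h6 h1) (b1q2_h15 h1)

def b1q2_t26 (A1 : TM) : TM := tcase (b1q2_t9 A1) (b1q2_t25 A1) (b1q2_t23 A1)

theorem b1q2_h26 (h1 : Enc S E A1 a1) : Enc S E (b1q2_t26 A1) (b1q2_v26 a1) := enc_case hS (b1q2_h9 h1) (b1q2_h25 h1) (b1q2_h23 h1)

def b1q2_t (A1 : TM) : TM := b1q2_t26 A1

theorem b1q2_enc (h1 : Enc S E A1 a1) : Enc S E (b1q2_t A1) (b1q2_v a1) := b1q2_h26 h1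

def b1q3_t1 (_A1 : TM) : TM := tconst 1859775393 0 1

theorem b1q3_h1 (_h1 : Enc S E A1 a1) : Enc S E (b1q3_t1 A1) (b1q3_v1 a1) := enc_sqrtn E (by decide) (by decide)

def b1q3_t2 (A1 : TM) : TM := tmul S (A1) (b1q3_t1 A1)

theorem b1q3_h2 (h1 : Enc S E A1 a1) : Enc S E (b1q3_t2 A1) (b1q3_v2 a1) := enc_mul hS (h1) (b1q3_h1 h1)

def b1q3_t3 (A1 : TM) : TM := tscale 101 75 (b1q3_t2 A1)

theorem b1q3_h3 (h1 : Enc S E A1 a1) : Enc S E (b1q3_t3 A1) (b1q3_v3 a1) := enc_scale 101 (by norm_num) (b1q3_h2 h1)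

def b1q3_t4 (_A1 : TM) : TM := tconst (Nat.div (Nat.mul 2571 S) 1000) 0 1

theorem b1q3_h4 (_h1 : Enc S E A1 a1) : Enc S E (b1q3_t4 A1) (b1q3_v4 a1) := enc_rat E 2571 (by norm_num)

def b1q3_t6 (A1 : TM) : TM := tsub (b1q3_t3 A1) (b1q3_t4 A1)

theorem b1q3_h6 (h1 : Enc S E A1 a1) : Enc S E (b1q3_t6 A1) (b1q3_v6 a1) := enc_sub (b1q3_h3 h1) (b1q3_h4 h1)

def b1q3_t (A1 : TM) : TM := b1q3_t6 A1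

theorem b1q3_enc (h1 : Enc S E A1 a1) : Enc S E (b1q3_t A1) (b1q3_v a1) := b1q3_h6 h1

def b2q0_t1 (A1 : TM) : TM := tnat 4 (A1)

theorem b2q0_h1 (h1 : Enc S E A1 a1) : Enc S E (b2q0_t1 A1) (b2q0_v1 a1) := enc_nat 4 (h1)

def b2q0_t2 (_A1 : TM) : TM := tconst 1859775393 0 1

theorem b2q0_h2 (_h1 : Enc S E A1 a1) : Enc S E (b2q0_t2 A1) (b2q0_v2 a1) := enc_sqrtn E (by decide) (by decide)

def b2q0_t3 (A1 : TM) : TM := tscale 1 2 (b2q0_t2 A1)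

theorem b2q0_h3 (h1 : Enc S E A1 a1) : Enc S E (b2q0_t3 A1) (b2q0_v3 a1) := enc_scale 1 (by norm_num) (b2q0_h2 h1)

def b2q0_t4 (A1 : TM) : TM := tsub (b2q0_t1 A1) (b2q0_t3 A1)

theorem b2q0_h4 (h1 : Enc S E A1 a1) : Enc S E (b2q0_t4 A1) (b2q0_v4 a1) := enc_sub (b2q0_h1 h1) (b2q0_h3 h1)

def b2q0_t5 (A1 : TM) : TM := tmul S (A1) (b2q0_t2 A1)

theorem b2q0_h5 (h1 : Enc S E A1 a1) : Enc S E (b2q0_t5 A1) (b2q0_v5 a1) := enc_mul hS (h1) (b2q0_h2 h1)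

def b2q0_t6 (A1 : TM) : TM := tscale 96 125 (b2q0_t5 A1)

theorem b2q0_h6 (h1 : Enc S E A1 a1) : Enc S E (b2q0_t6 A1) (b2q0_v6 a1) := enc_scale 96 (by norm_num) (b2q0_h5 h1)

def b2q0_t8 (_A1 : TM) : TM := tconst (Nat.div (Nat.mul 51 S) 100) 0 1

theorem b2q0_h8 (_h1 : Enc S E A1 a1) : Enc S E (b2q0_t8 A1) (b2q0_v8 a1) := enc_rat E 51 (by norm_num)

def b2q0_t9 (A1 : TM) : TM := tsub (b2q0_t8 A1) (b2q0_t6 A1)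

theorem b2q0_h9 (h1 : Enc S E A1 a1) : Enc S E (b2q0_t9 A1) (b2q0_v9 a1) := enc_sub (b2q0_h8 h1) (b2q0_h6 h1)

def b2q0_t10 (A1 : TM) : TM := tscale 173 75 (b2q0_t5 A1)

theorem b2q0_h10 (h1 : Enc S E A1 a1) : Enc S E (b2q0_t10 A1) (b2q0_v10 a1) := enc_scale 173 (by norm_num) (b2q0_h5 h1)

def b2q0_t12 (_A1 : TM) : TM := tconst (Nat.div (Nat.mul 1087 S) 1000) 0 1

theorem b2q0_h12 (_h1 : Enc S E A1 a1) : Enc S E (b2q0_t12 A1) (b2q0_v12 a1) := enc_rat E 1087 (by norm_num)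

def b2q0_t13 (A1 : TM) : TM := tsub (b2q0_t12 A1) (b2q0_t10 A1)

theorem b2q0_h13 (h1 : Enc S E A1 a1) : Enc S E (b2q0_t13 A1) (b2q0_v13 a1) := enc_sub (b2q0_h12 h1) (b2q0_h10 h1)

def b2q0_t14 (A1 : TM) : TM := tcase (b2q0_t4 A1) (b2q0_t9 A1) (b2q0_t13 A1)

theorem b2q0_h14 (h1 : Enc S E A1 a1) : Enc S E (b2q0_t14 A1) (b2q0_v14 a1) := enc_case hS (b2q0_h4 h1) (b2q0_h9 h1) (b2q0_h13 h1)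

def b2q0_t (A1 : TM) : TM := b2q0_t14 A1

theorem b2q0_enc (h1 : Enc S E A1 a1) : Enc S E (b2q0_t A1) (b2q0_v a1) := b2q0_h14 h1

def b2q1_t1 (_A1 : TM) : TM := tconst 1859775393 0 1

theorem b2q1_h1 (_h1 : Enc S E A1 a1) : Enc S E (b2q1_t1 A1) (b2q1_v1 a1) := enc_sqrtn E (by decide) (by decide)

def b2q1_t2 (A1 : TM) : TM := tmul S (A1) (b2q1_t1 A1)

theorem b2q1_h2 (h1 : Enc S E A1 a1) : Enc S E (b2q1_t2 A1) (b2q1_v2 a1) := enc_mul hS (h1) (b2q1_h1 h1)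

def b2q1_t3 (A1 : TM) : TM := tscale 167 375 (b2q1_t2 A1)

theorem b2q1_h3 (h1 : Enc S E A1 a1) : Enc S E (b2q1_t3 A1) (b2q1_v3 a1) := enc_scale 167 (by norm_num) (b2q1_h2 h1)

def b2q1_t4 (_A1 : TM) : TM := tconst (Nat.div (Nat.mul 83 S) 250) 0 1

theorem b2q1_h4 (_h1 : Enc S E A1 a1) : Enc S E (b2q1_t4 A1) (b2q1_v4 a1) := enc_rat E 83 (by norm_num)

def b2q1_t5 (A1 : TM) : TM := tadd (b2q1_t3 A1) (b2q1_t4 A1)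

theorem b2q1_h5 (h1 : Enc S E A1 a1) : Enc S E (b2q1_t5 A1) (b2q1_v5 a1) := enc_add (b2q1_h3 h1) (b2q1_h4 h1)

def b2q1_t (A1 : TM) : TM := b2q1_t5 A1

theorem b2q1_enc (h1 : Enc S E A1 a1) : Enc S E (b2q1_t A1) (b2q1_v a1) := b2q1_h5 h1

def b2q2_t1 (_A1 : TM) : TM := tconst 1859775393 0 1

theorem b2q2_h1 (_h1 : Enc S E A1 a1) : Enc S E (b2q2_t1 A1) (b2q2_v1 a1) := enc_sqrtn E (by decide) (by decide)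

def b2q2_t2 (A1 : TM) : TM := tmul S (A1) (b2q2_t1 A1)

theorem b2q2_h2 (h1 : Enc S E A1 a1) : Enc S E (b2q2_t2 A1) (b2q2_v2 a1) := enc_mul hS (h1) (b2q2_h1 h1)

def b2q2_t3 (A1 : TM) : TM := tscale 26 75 (b2q2_t2 A1)

theorem b2q2_h3 (h1 : Enc S E A1 a1) : Enc S E (b2q2_t3 A1) (b2q2_v3 a1) := enc_scale 26 (by norm_num) (b2q2_h2 h1)

def b2q2_t5 (_A1 : TM) : TM := tconst (Nat.div (Nat.mul 1399 S) 1000) 0 1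

theorem b2q2_h5 (_h1 : Enc S E A1 a1) : Enc S E (b2q2_t5 A1) (b2q2_v5 a1) := enc_rat E 1399 (by norm_num)

def b2q2_t6 (A1 : TM) : TM := tsub (b2q2_t5 A1) (b2q2_t3 A1)

theorem b2q2_h6 (h1 : Enc S E A1 a1) : Enc S E (b2q2_t6 A1) (b2q2_v6 a1) := enc_sub (b2q2_h5 h1) (b2q2_h3 h1)

def b2q2_t8 (_A1 : TM) : TM := tconst (Nat.div (Nat.mul 767 S) 1000) 0 1

theorem b2q2_h8 (_h1 : Enc S E A1 a1) : Enc S E (b2q2_t8 A1) (b2q2_v8 a1) := enc_rat E 767 (by norm_num)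

def b2q2_t9 (_A1 : TM) : TM := tconst (Nat.mul 1 S) 0 0

theorem b2q2_h9 (_h1 : Enc S E A1 a1) : Enc S E (b2q2_t9 A1) (b2q2_v9 a1) := enc_nc E 1

def b2q2_t10 (A1 : TM) : TM := tsub (A1) (b2q2_t9 A1)

theorem b2q2_h10 (h1 : Enc S E A1 a1) : Enc S E (b2q2_t10 A1) (b2q2_v10 a1) := enc_sub (h1) (b2q2_h9 h1)

def b2q2_t11 (A1 : TM) : TM := tscale 47 1000 (b2q2_t10 A1)

theorem b2q2_h11 (h1 : Enc S E A1 a1) : Enc S E (b2q2_t11 A1) (b2q2_v11 a1) := enc_scale 47 (by norm_num) (b2q2_h10 h1)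

def b2q2_t13 (A1 : TM) : TM := tscale 9 16 (b2q2_t1 A1)

theorem b2q2_h13 (h1 : Enc S E A1 a1) : Enc S E (b2q2_t13 A1) (b2q2_v13 a1) := enc_scale 9 (by norm_num) (b2q2_h1 h1)

def b2q2_t14 (A1 : TM) : TM := tsub (b2q2_t9 A1) (b2q2_t13 A1)

theorem b2q2_h14 (h1 : Enc S E A1 a1) : Enc S E (b2q2_t14 A1) (b2q2_v14 a1) := enc_sub (b2q2_h9 h1) (b2q2_h13 h1)

def b2q2_t15 (A1 : TM) : TM := tinv S (b2q2_t14 A1)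

theorem b2q2_h15 (h1 : Enc S E A1 a1) : Enc S E (b2q2_t15 A1) (b2q2_v15 a1) := enc_inv hS (b2q2_h14 h1)

def b2q2_t16 (A1 : TM) : TM := tmul S (b2q2_t11 A1) (b2q2_t15 A1)

theorem b2q2_h16 (h1 : Enc S E A1 a1) : Enc S E (b2q2_t16 A1) (b2q2_v16 a1) := enc_mul hS (b2q2_h11 h1) (b2q2_h15 h1)

def b2q2_t18 (A1 : TM) : TM := tsub (b2q2_t8 A1) (b2q2_t16 A1)

theorem b2q2_h18 (h1 : Enc S E A1 a1) : Enc S E (b2q2_t18 A1) (b2q2_v18 a1) := enc_sub (b2q2_h8 h1) (b2q2_h16 h1)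

def b2q2_t19 (A1 : TM) : TM := tscale 323 1000 (b2q2_t10 A1)

theorem b2q2_h19 (h1 : Enc S E A1 a1) : Enc S E (b2q2_t19 A1) (b2q2_v19 a1) := enc_scale 323 (by norm_num) (b2q2_h10 h1)

def b2q2_t21 (A1 : TM) : TM := tscale 3 4 (b2q2_t1 A1)

theorem b2q2_h21 (h1 : Enc S E A1 a1) : Enc S E (b2q2_t21 A1) (b2q2_v21 a1) := enc_scale 3 (by norm_num) (b2q2_h1 h1)

def b2q2_t22 (A1 : TM) : TM := tsub (b2q2_t21 A1) (b2q2_t9 A1)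

theorem b2q2_h22 (h1 : Enc S E A1 a1) : Enc S E (b2q2_t22 A1) (b2q2_v22 a1) := enc_sub (b2q2_h21 h1) (b2q2_h9 h1)

def b2q2_t23 (A1 : TM) : TM := tinv S (b2q2_t22 A1)

theorem b2q2_h23 (h1 : Enc S E A1 a1) : Enc S E (b2q2_t23 A1) (b2q2_v23 a1) := enc_inv hS (b2q2_h22 h1)

def b2q2_t24 (A1 : TM) : TM := tmul S (b2q2_t19 A1) (b2q2_t23 A1)

theorem b2q2_h24 (h1 : Enc S E A1 a1) : Enc S E (b2q2_t24 A1) (b2q2_v24 a1) := enc_mul hS (b2q2_h19 h1) (b2q2_h23 h1)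

def b2q2_t26 (A1 : TM) : TM := tsub (b2q2_t8 A1) (b2q2_t24 A1)

theorem b2q2_h26 (h1 : Enc S E A1 a1) : Enc S E (b2q2_t26 A1) (b2q2_v26 a1) := enc_sub (b2q2_h8 h1) (b2q2_h24 h1)

def b2q2_t27 (A1 : TM) : TM := tsub (A1) (b2q2_t13 A1)

theorem b2q2_h27 (h1 : Enc S E A1 a1) : Enc S E (b2q2_t27 A1) (b2q2_v27 a1) := enc_sub (h1) (b2q2_h13 h1)

def b2q2_t28 (A1 : TM) : TM := tcase (b2q2_t27 A1) (b2q2_t6 A1) (b2q2_t18 A1)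

theorem b2q2_h28 (h1 : Enc S E A1 a1) : Enc S E (b2q2_t28 A1) (b2q2_v28 a1) := enc_case hS (b2q2_h27 h1) (b2q2_h6 h1) (b2q2_h18 h1)

def b2q2_t29 (A1 : TM) : TM := tcase (b2q2_t10 A1) (b2q2_t28 A1) (b2q2_t26 A1)

theorem b2q2_h29 (h1 : Enc S E A1 a1) : Enc S E (b2q2_t29 A1) (b2q2_v29 a1) := enc_case hS (b2q2_h10 h1) (b2q2_h28 h1) (b2q2_h26 h1)

def b2q2_t (A1 : TM) : TM := b2q2_t29 A1

theorem b2q2_enc (h1 : Enc S E A1 a1) : Enc S E (b2q2_t A1) (b2q2_v a1) := b2q2_h29 h1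

def b2q3_t1 (_A1 : TM) : TM := tconst 1859775393 0 1

theorem b2q3_h1 (_h1 : Enc S E A1 a1) : Enc S E (b2q3_t1 A1) (b2q3_v1 a1) := enc_sqrtn E (by decide) (by decide)

def b2q3_t2 (A1 : TM) : TM := tmul S (A1) (b2q3_t1 A1)

theorem b2q3_h2 (h1 : Enc S E A1 a1) : Enc S E (b2q3_t2 A1) (b2q3_v2 a1) := enc_mul hS (h1) (b2q3_h1 h1)

def b2q3_t3 (A1 : TM) : TM := tscale 163 125 (b2q3_t2 A1)

theorem b2q3_h3 (h1 : Enc S E A1 a1) : Enc S E (b2q3_t3 A1) (b2q3_v3 a1) := enc_scale 163 (by norm_num) (b2q3_h2 h1)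

def b2q3_t4 (_A1 : TM) : TM := tconst (Nat.div (Nat.mul 853 S) 250) 0 1

theorem b2q3_h4 (_h1 : Enc S E A1 a1) : Enc S E (b2q3_t4 A1) (b2q3_v4 a1) := enc_rat E 853 (by norm_num)

def b2q3_t6 (A1 : TM) : TM := tsub (b2q3_t3 A1) (b2q3_t4 A1)

theorem b2q3_h6 (h1 : Enc S E A1 a1) : Enc S E (b2q3_t6 A1) (b2q3_v6 a1) := enc_sub (b2q3_h3 h1) (b2q3_h4 h1)

def b2q3_t (A1 : TM) : TM := b2q3_t6 A1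

theorem b2q3_enc (h1 : Enc S E A1 a1) : Enc S E (b2q3_t A1) (b2q3_v a1) := b2q3_h6 h1

def v1q0_t1 (A1 : TM) : TM := f1m_t (A1)

theorem v1q0_h1 (h1 : Enc S E A1 a1) : Enc S E (v1q0_t1 A1) (v1q0_v1 a1) := f1m_enc (h1)

def v1q0_t2 (A1 : TM) : TM := b1q0_t (A1)

theorem v1q0_h2 (h1 : Enc S E A1 a1) : Enc S E (v1q0_t2 A1) (v1q0_v2 a1) := b1q0_enc (h1)

def v1q0_t3 (A1 : TM) : TM := tmul S (v1q0_t1 A1) (v1q0_t2 A1)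

theorem v1q0_h3 (h1 : Enc S E A1 a1) : Enc S E (v1q0_t3 A1) (v1q0_v3 a1) := enc_mul hS (v1q0_h1 h1) (v1q0_h2 h1)

def v1q0_t (A1 : TM) : TM := v1q0_t3 A1

theorem v1q0_enc (h1 : Enc S E A1 a1) : Enc S E (v1q0_t A1) (v1q0_v a1) := v1q0_h3 h1

def v1q1_t1 (A1 : TM) : TM := f1m_t (A1)

theorem v1q1_h1 (h1 : Enc S E A1 a1) : Enc S E (v1q1_t1 A1) (v1q1_v1 a1) := f1m_enc (h1)

def v1q1_t2 (A1 : TM) : TM := b1q1_t (A1)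

theorem v1q1_h2 (h1 : Enc S E A1 a1) : Enc S E (v1q1_t2 A1) (v1q1_v2 a1) := b1q1_enc (h1)

def v1q1_t3 (A1 : TM) : TM := tmul S (v1q1_t1 A1) (v1q1_t2 A1)

theorem v1q1_h3 (h1 : Enc S E A1 a1) : Enc S E (v1q1_t3 A1) (v1q1_v3 a1) := enc_mul hS (v1q1_h1 h1) (v1q1_h2 h1)

def v1q1_t (A1 : TM) : TM := v1q1_t3 A1

theorem v1q1_enc (h1 : Enc S E A1 a1) : Enc S E (v1q1_t A1) (v1q1_v a1) := v1q1_h3 h1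

def v1q2_t1 (A1 : TM) : TM := f1p_t (A1)

theorem v1q2_h1 (h1 : Enc S E A1 a1) : Enc S E (v1q2_t1 A1) (v1q2_v1 a1) := f1p_enc (h1)

def v1q2_t2 (A1 : TM) : TM := b1q2_t (A1)

theorem v1q2_h2 (h1 : Enc S E A1 a1) : Enc S E (v1q2_t2 A1) (v1q2_v2 a1) := b1q2_enc (h1)

def v1q2_t3 (A1 : TM) : TM := tmul S (v1q2_t1 A1) (v1q2_t2 A1)

theorem v1q2_h3 (h1 : Enc S E A1 a1) : Enc S E (v1q2_t3 A1) (v1q2_v3 a1) := enc_mul hS (v1q2_h1 h1) (v1q2_h2 h1)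

def v1q2_t (A1 : TM) : TM := v1q2_t3 A1

theorem v1q2_enc (h1 : Enc S E A1 a1) : Enc S E (v1q2_t A1) (v1q2_v a1) := v1q2_h3 h1

def v1q3_t1 (A1 : TM) : TM := f1p_t (A1)

theorem v1q3_h1 (h1 : Enc S E A1 a1) : Enc S E (v1q3_t1 A1) (v1q3_v1 a1) := f1p_enc (h1)

def v1q3_t2 (A1 : TM) : TM := b1q3_t (A1)

theorem v1q3_h2 (h1 : Enc S E A1 a1) : Enc S E (v1q3_t2 A1) (v1q3_v2 a1) := b1q3_enc (h1)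

def v1q3_t3 (A1 : TM) : TM := tmul S (v1q3_t1 A1) (v1q3_t2 A1)

theorem v1q3_h3 (h1 : Enc S E A1 a1) : Enc S E (v1q3_t3 A1) (v1q3_v3 a1) := enc_mul hS (v1q3_h1 h1) (v1q3_h2 h1)

def v1q3_t (A1 : TM) : TM := v1q3_t3 A1

theorem v1q3_enc (h1 : Enc S E A1 a1) : Enc S E (v1q3_t A1) (v1q3_v a1) := v1q3_h3 h1

def v2q0_t1 (A1 : TM) : TM := f2m_t (A1)

theorem v2q0_h1 (h1 : Enc S E A1 a1) : Enc S E (v2q0_t1 A1) (v2q0_v1 a1) := f2m_enc (h1)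

def v2q0_t2 (A1 : TM) : TM := b2q0_t (A1)

theorem v2q0_h2 (h1 : Enc S E A1 a1) : Enc S E (v2q0_t2 A1) (v2q0_v2 a1) := b2q0_enc (h1)

def v2q0_t3 (A1 : TM) : TM := tmul S (v2q0_t1 A1) (v2q0_t2 A1)

theorem v2q0_h3 (h1 : Enc S E A1 a1) : Enc S E (v2q0_t3 A1) (v2q0_v3 a1) := enc_mul hS (v2q0_h1 h1) (v2q0_h2 h1)

def v2q0_t (A1 : TM) : TM := v2q0_t3 A1

theorem v2q0_enc (h1 : Enc S E A1 a1) : Enc S E (v2q0_t A1) (v2q0_v a1) := v2q0_h3 h1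

def v2q1_t1 (A1 : TM) : TM := f2m_t (A1)

theorem v2q1_h1 (h1 : Enc S E A1 a1) : Enc S E (v2q1_t1 A1) (v2q1_v1 a1) := f2m_enc (h1)

def v2q1_t2 (A1 : TM) : TM := b2q1_t (A1)

theorem v2q1_h2 (h1 : Enc S E A1 a1) : Enc S E (v2q1_t2 A1) (v2q1_v2 a1) := b2q1_enc (h1)

def v2q1_t3 (A1 : TM) : TM := tmul S (v2q1_t1 A1) (v2q1_t2 A1)

theorem v2q1_h3 (h1 : Enc S E A1 a1) : Enc S E (v2q1_t3 A1) (v2q1_v3 a1) := enc_mul hS (v2q1_h1 h1) (v2q1_h2 h1)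

def v2q1_t (A1 : TM) : TM := v2q1_t3 A1

theorem v2q1_enc (h1 : Enc S E A1 a1) : Enc S E (v2q1_t A1) (v2q1_v a1) := v2q1_h3 h1

def v2q2_t1 (A1 : TM) : TM := f2p_t (A1)

theorem v2q2_h1 (h1 : Enc S E A1 a1) : Enc S E (v2q2_t1 A1) (v2q2_v1 a1) := f2p_enc (h1)

def v2q2_t2 (A1 : TM) : TM := b2q2_t (A1)

theorem v2q2_h2 (h1 : Enc S E A1 a1) : Enc S E (v2q2_t2 A1) (v2q2_v2 a1) := b2q2_enc (h1)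

def v2q2_t3 (A1 : TM) : TM := tmul S (v2q2_t1 A1) (v2q2_t2 A1)

theorem v2q2_h3 (h1 : Enc S E A1 a1) : Enc S E (v2q2_t3 A1) (v2q2_v3 a1) := enc_mul hS (v2q2_h1 h1) (v2q2_h2 h1)

def v2q2_t (A1 : TM) : TM := v2q2_t3 A1

theorem v2q2_enc (h1 : Enc S E A1 a1) : Enc S E (v2q2_t A1) (v2q2_v a1) := v2q2_h3 h1

def v2q3_t1 (A1 : TM) : TM := f2p_t (A1)

theorem v2q3_h1 (h1 : Enc S E A1 a1) : Enc S E (v2q3_t1 A1) (v2q3_v1 a1) := f2p_enc (h1)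

def v2q3_t2 (A1 : TM) : TM := b2q3_t (A1)

theorem v2q3_h2 (h1 : Enc S E A1 a1) : Enc S E (v2q3_t2 A1) (v2q3_v2 a1) := b2q3_enc (h1)

def v2q3_t3 (A1 : TM) : TM := tmul S (v2q3_t1 A1) (v2q3_t2 A1)

theorem v2q3_h3 (h1 : Enc S E A1 a1) : Enc S E (v2q3_t3 A1) (v2q3_v3 a1) := enc_mul hS (v2q3_h1 h1) (v2q3_h2 h1)

def v2q3_t (A1 : TM) : TM := v2q3_t3 A1

theorem v2q3_enc (h1 : Enc S E A1 a1) : Enc S E (v2q3_t A1) (v2q3_v a1) := v2q3_h3 h1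

def rrq0_t2 (_A1 A2 : TM) : TM := c1f_t (A2)

theorem rrq0_h2 (_h1 : Enc S E A1 a1) (h2 : Enc S E A2 a2) : Enc S E (rrq0_t2 A1 A2) (rrq0_v2 a1 a2) := c1f_enc (h2)

def rrq0_t3 (_A1 A2 : TM) : TM := f1m_t (A2)

theorem rrq0_h3 (_h1 : Enc S E A1 a1) (h2 : Enc S E A2 a2) : Enc S E (rrq0_t3 A1 A2) (rrq0_v3 a1 a2) := f1m_enc (h2)

def rrq0_t4 (_A1 A2 : TM) : TM := f2m_t (A2)

theorem rrq0_h4 (_h1 : Enc S E A1 a1) (h2 : Enc S E A2 a2) : Enc S E (rrq0_t4 A1 A2) (rrq0_v4 a1 a2) := f2m_enc (h2)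

def rrq0_t5 (_A1 A2 : TM) : TM := c3f_t (A2)

theorem rrq0_h5 (_h1 : Enc S E A1 a1) (h2 : Enc S E A2 a2) : Enc S E (rrq0_t5 A1 A2) (rrq0_v5 a1 a2) := c3f_enc (h2)

def rrq0_t6 (_A1 A2 : TM) : TM := a3q0_t (A2)

theorem rrq0_h6 (_h1 : Enc S E A1 a1) (h2 : Enc S E A2 a2) : Enc S E (rrq0_t6 A1 A2) (rrq0_v6 a1 a2) := a3q0_enc (h2)

def rrq0_t7 (_A1 A2 : TM) : TM := v1q0_t (A2)

theorem rrq0_h7 (_h1 : Enc S E A1 a1) (h2 : Enc S E A2 a2) : Enc S E (rrq0_t7 A1 A2) (rrq0_v7 a1 a2) := v1q0_enc (h2)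

def rrq0_t8 (_A1 A2 : TM) : TM := v2q0_t (A2)

theorem rrq0_h8 (_h1 : Enc S E A1 a1) (h2 : Enc S E A2 a2) : Enc S E (rrq0_t8 A1 A2) (rrq0_v8 a1 a2) := v2q0_enc (h2)

def rrq0_t9 (A1 A2 : TM) : TM := tsub (A1) (rrq0_t4 A1 A2)

theorem rrq0_h9 (h1 : Enc S E A1 a1) (h2 : Enc S E A2 a2) : Enc S E (rrq0_t9 A1 A2) (rrq0_v9 a1 a2) := enc_sub (h1) (rrq0_h4 h1 h2)

def rrq0_t10 (A1 A2 : TM) : TM := tsub (rrq0_t5 A1 A2) (rrq0_t4 A1 A2)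

theorem rrq0_h10 (h1 : Enc S E A1 a1) (h2 : Enc S E A2 a2) : Enc S E (rrq0_t10 A1 A2) (rrq0_v10 a1 a2) := enc_sub (rrq0_h5 h1 h2) (rrq0_h4 h1 h2)

def rrq0_t11 (A1 A2 : TM) : TM := tlam S (rrq0_t9 A1 A2) (rrq0_t10 A1 A2)

theorem rrq0_h11 (h1 : Enc S E A1 a1) (h2 : Enc S E A2 a2) : Enc S E (rrq0_t11 A1 A2) (rrq0_v11 a1 a2) := enc_lam hS (rrq0_h9 h1 h2) (rrq0_h10 h1 h2)

def rrq0_t12 (A1 A2 : TM) : TM := tsub (rrq0_t6 A1 A2) (rrq0_t8 A1 A2)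

theorem rrq0_h12 (h1 : Enc S E A1 a1) (h2 : Enc S E A2 a2) : Enc S E (rrq0_t12 A1 A2) (rrq0_v12 a1 a2) := enc_sub (rrq0_h6 h1 h2) (rrq0_h8 h1 h2)

def rrq0_t13 (A1 A2 : TM) : TM := tmul S (rrq0_t11 A1 A2) (rrq0_t12 A1 A2)

theorem rrq0_h13 (h1 : Enc S E A1 a1) (h2 : Enc S E A2 a2) : Enc S E (rrq0_t13 A1 A2) (rrq0_v13 a1 a2) := enc_mul hS (rrq0_h11 h1 h2) (rrq0_h12 h1 h2)

def rrq0_t14 (A1 A2 : TM) : TM := tadd (rrq0_t8 A1 A2) (rrq0_t13 A1 A2)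

theorem rrq0_h14 (h1 : Enc S E A1 a1) (h2 : Enc S E A2 a2) : Enc S E (rrq0_t14 A1 A2) (rrq0_v14 a1 a2) := enc_add (rrq0_h8 h1 h2) (rrq0_h13 h1 h2)

def rrq0_t15 (A1 A2 : TM) : TM := tsub (A1) (rrq0_t3 A1 A2)

theorem rrq0_h15 (h1 : Enc S E A1 a1) (h2 : Enc S E A2 a2) : Enc S E (rrq0_t15 A1 A2) (rrq0_v15 a1 a2) := enc_sub (h1) (rrq0_h3 h1 h2)

def rrq0_t16 (A1 A2 : TM) : TM := tsub (rrq0_t4 A1 A2) (rrq0_t3 A1 A2)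

theorem rrq0_h16 (h1 : Enc S E A1 a1) (h2 : Enc S E A2 a2) : Enc S E (rrq0_t16 A1 A2) (rrq0_v16 a1 a2) := enc_sub (rrq0_h4 h1 h2) (rrq0_h3 h1 h2)

def rrq0_t17 (A1 A2 : TM) : TM := tlam S (rrq0_t15 A1 A2) (rrq0_t16 A1 A2)

theorem rrq0_h17 (h1 : Enc S E A1 a1) (h2 : Enc S E A2 a2) : Enc S E (rrq0_t17 A1 A2) (rrq0_v17 a1 a2) := enc_lam hS (rrq0_h15 h1 h2) (rrq0_h16 h1 h2)

def rrq0_t18 (A1 A2 : TM) : TM := tsub (rrq0_t8 A1 A2) (rrq0_t7 A1 A2)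

theorem rrq0_h18 (h1 : Enc S E A1 a1) (h2 : Enc S E A2 a2) : Enc S E (rrq0_t18 A1 A2) (rrq0_v18 a1 a2) := enc_sub (rrq0_h8 h1 h2) (rrq0_h7 h1 h2)

def rrq0_t19 (A1 A2 : TM) : TM := tmul S (rrq0_t17 A1 A2) (rrq0_t18 A1 A2)

theorem rrq0_h19 (h1 : Enc S E A1 a1) (h2 : Enc S E A2 a2) : Enc S E (rrq0_t19 A1 A2) (rrq0_v19 a1 a2) := enc_mul hS (rrq0_h17 h1 h2) (rrq0_h18 h1 h2)

def rrq0_t20 (A1 A2 : TM) : TM := tadd (rrq0_t7 A1 A2) (rrq0_t19 A1 A2)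

theorem rrq0_h20 (h1 : Enc S E A1 a1) (h2 : Enc S E A2 a2) : Enc S E (rrq0_t20 A1 A2) (rrq0_v20 a1 a2) := enc_add (rrq0_h7 h1 h2) (rrq0_h19 h1 h2)

def rrq0_t21 (_A1 A2 : TM) : TM := a1q0_t (A2)

theorem rrq0_h21 (_h1 : Enc S E A1 a1) (h2 : Enc S E A2 a2) : Enc S E (rrq0_t21 A1 A2) (rrq0_v21 a1 a2) := a1q0_enc (h2)

def rrq0_t22 (A1 A2 : TM) : TM := tsub (A1) (rrq0_t2 A1 A2)

theorem rrq0_h22 (h1 : Enc S E A1 a1) (h2 : Enc S E A2 a2) : Enc S E (rrq0_t22 A1 A2) (rrq0_v22 a1 a2) := enc_sub (h1) (rrq0_h2 h1 h2)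

def rrq0_t23 (A1 A2 : TM) : TM := tsub (rrq0_t3 A1 A2) (rrq0_t2 A1 A2)

theorem rrq0_h23 (h1 : Enc S E A1 a1) (h2 : Enc S E A2 a2) : Enc S E (rrq0_t23 A1 A2) (rrq0_v23 a1 a2) := enc_sub (rrq0_h3 h1 h2) (rrq0_h2 h1 h2)

def rrq0_t24 (A1 A2 : TM) : TM := tlam S (rrq0_t22 A1 A2) (rrq0_t23 A1 A2)

theorem rrq0_h24 (h1 : Enc S E A1 a1) (h2 : Enc S E A2 a2) : Enc S E (rrq0_t24 A1 A2) (rrq0_v24 a1 a2) := enc_lam hS (rrq0_h22 h1 h2) (rrq0_h23 h1 h2)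

def rrq0_t25 (A1 A2 : TM) : TM := tsub (rrq0_t7 A1 A2) (rrq0_t21 A1 A2)

theorem rrq0_h25 (h1 : Enc S E A1 a1) (h2 : Enc S E A2 a2) : Enc S E (rrq0_t25 A1 A2) (rrq0_v25 a1 a2) := enc_sub (rrq0_h7 h1 h2) (rrq0_h21 h1 h2)

def rrq0_t26 (A1 A2 : TM) : TM := tmul S (rrq0_t24 A1 A2) (rrq0_t25 A1 A2)

theorem rrq0_h26 (h1 : Enc S E A1 a1) (h2 : Enc S E A2 a2) : Enc S E (rrq0_t26 A1 A2) (rrq0_v26 a1 a2) := enc_mul hS (rrq0_h24 h1 h2) (rrq0_h25 h1 h2)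

def rrq0_t27 (A1 A2 : TM) : TM := tadd (rrq0_t21 A1 A2) (rrq0_t26 A1 A2)

theorem rrq0_h27 (h1 : Enc S E A1 a1) (h2 : Enc S E A2 a2) : Enc S E (rrq0_t27 A1 A2) (rrq0_v27 a1 a2) := enc_add (rrq0_h21 h1 h2) (rrq0_h26 h1 h2)

def rrq0_t28 (A1 A2 : TM) : TM := tcase (rrq0_t9 A1 A2) (rrq0_t20 A1 A2) (rrq0_t14 A1 A2)

theorem rrq0_h28 (h1 : Enc S E A1 a1) (h2 : Enc S E A2 a2) : Enc S E (rrq0_t28 A1 A2) (rrq0_v28 a1 a2) := enc_case hS (rrq0_h9 h1 h2) (rrq0_h20 h1 h2) (rrq0_h14 h1 h2)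

def rrq0_t29 (A1 A2 : TM) : TM := tcase (rrq0_t15 A1 A2) (rrq0_t27 A1 A2) (rrq0_t28 A1 A2)

theorem rrq0_h29 (h1 : Enc S E A1 a1) (h2 : Enc S E A2 a2) : Enc S E (rrq0_t29 A1 A2) (rrq0_v29 a1 a2) := enc_case hS (rrq0_h15 h1 h2) (rrq0_h27 h1 h2) (rrq0_h28 h1 h2)

def rrq0_t (A1 A2 : TM) : TM := rrq0_t29 A1 A2

theorem rrq0_enc (h1 : Enc S E A1 a1) (h2 : Enc S E A2 a2) : Enc S E (rrq0_t A1 A2) (rrq0_v a1 a2) := rrq0_h29 h1 h2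

def rrq1_t2 (_A1 A2 : TM) : TM := c1f_t (A2)

theorem rrq1_h2 (_h1 : Enc S E A1 a1) (h2 : Enc S E A2 a2) : Enc S E (rrq1_t2 A1 A2) (rrq1_v2 a1 a2) := c1f_enc (h2)

def rrq1_t3 (_A1 A2 : TM) : TM := f1m_t (A2)

theorem rrq1_h3 (_h1 : Enc S E A1 a1) (h2 : Enc S E A2 a2) : Enc S E (rrq1_t3 A1 A2) (rrq1_v3 a1 a2) := f1m_enc (h2)

def rrq1_t4 (_A1 A2 : TM) : TM := f2m_t (A2)

theorem rrq1_h4 (_h1 : Enc S E A1 a1) (h2 : Enc S E A2 a2) : Enc S E (rrq1_t4 A1 A2) (rrq1_v4 a1 a2) := f2m_enc (h2)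

def rrq1_t5 (_A1 A2 : TM) : TM := c3f_t (A2)

theorem rrq1_h5 (_h1 : Enc S E A1 a1) (h2 : Enc S E A2 a2) : Enc S E (rrq1_t5 A1 A2) (rrq1_v5 a1 a2) := c3f_enc (h2)

def rrq1_t6 (_A1 A2 : TM) : TM := a3q1_t (A2)

theorem rrq1_h6 (_h1 : Enc S E A1 a1) (h2 : Enc S E A2 a2) : Enc S E (rrq1_t6 A1 A2) (rrq1_v6 a1 a2) := a3q1_enc (h2)

def rrq1_t7 (_A1 A2 : TM) : TM := v1q1_t (A2)

theorem rrq1_h7 (_h1 : Enc S E A1 a1) (h2 : Enc S E A2 a2) : Enc S E (rrq1_t7 A1 A2) (rrq1_v7 a1 a2) := v1q1_enc (h2)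

def rrq1_t8 (_A1 A2 : TM) : TM := v2q1_t (A2)

theorem rrq1_h8 (_h1 : Enc S E A1 a1) (h2 : Enc S E A2 a2) : Enc S E (rrq1_t8 A1 A2) (rrq1_v8 a1 a2) := v2q1_enc (h2)

def rrq1_t9 (A1 A2 : TM) : TM := tsub (A1) (rrq1_t4 A1 A2)

theorem rrq1_h9 (h1 : Enc S E A1 a1) (h2 : Enc S E A2 a2) : Enc S E (rrq1_t9 A1 A2) (rrq1_v9 a1 a2) := enc_sub (h1) (rrq1_h4 h1 h2)

def rrq1_t10 (A1 A2 : TM) : TM := tsub (rrq1_t5 A1 A2) (rrq1_t4 A1 A2)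

theorem rrq1_h10 (h1 : Enc S E A1 a1) (h2 : Enc S E A2 a2) : Enc S E (rrq1_t10 A1 A2) (rrq1_v10 a1 a2) := enc_sub (rrq1_h5 h1 h2) (rrq1_h4 h1 h2)

def rrq1_t11 (A1 A2 : TM) : TM := tlam S (rrq1_t9 A1 A2) (rrq1_t10 A1 A2)

theorem rrq1_h11 (h1 : Enc S E A1 a1) (h2 : Enc S E A2 a2) : Enc S E (rrq1_t11 A1 A2) (rrq1_v11 a1 a2) := enc_lam hS (rrq1_h9 h1 h2) (rrq1_h10 h1 h2)

def rrq1_t12 (A1 A2 : TM) : TM := tsub (rrq1_t6 A1 A2) (rrq1_t8 A1 A2)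

theorem rrq1_h12 (h1 : Enc S E A1 a1) (h2 : Enc S E A2 a2) : Enc S E (rrq1_t12 A1 A2) (rrq1_v12 a1 a2) := enc_sub (rrq1_h6 h1 h2) (rrq1_h8 h1 h2)

def rrq1_t13 (A1 A2 : TM) : TM := tmul S (rrq1_t11 A1 A2) (rrq1_t12 A1 A2)

theorem rrq1_h13 (h1 : Enc S E A1 a1) (h2 : Enc S E A2 a2) : Enc S E (rrq1_t13 A1 A2) (rrq1_v13 a1 a2) := enc_mul hS (rrq1_h11 h1 h2) (rrq1_h12 h1 h2)

def rrq1_t14 (A1 A2 : TM) : TM := tadd (rrq1_t8 A1 A2) (rrq1_t13 A1 A2)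

theorem rrq1_h14 (h1 : Enc S E A1 a1) (h2 : Enc S E A2 a2) : Enc S E (rrq1_t14 A1 A2) (rrq1_v14 a1 a2) := enc_add (rrq1_h8 h1 h2) (rrq1_h13 h1 h2)

def rrq1_t15 (A1 A2 : TM) : TM := tsub (A1) (rrq1_t3 A1 A2)

theorem rrq1_h15 (h1 : Enc S E A1 a1) (h2 : Enc S E A2 a2) : Enc S E (rrq1_t15 A1 A2) (rrq1_v15 a1 a2) := enc_sub (h1) (rrq1_h3 h1 h2)

def rrq1_t16 (A1 A2 : TM) : TM := tsub (rrq1_t4 A1 A2) (rrq1_t3 A1 A2)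

theorem rrq1_h16 (h1 : Enc S E A1 a1) (h2 : Enc S E A2 a2) : Enc S E (rrq1_t16 A1 A2) (rrq1_v16 a1 a2) := enc_sub (rrq1_h4 h1 h2) (rrq1_h3 h1 h2)

def rrq1_t17 (A1 A2 : TM) : TM := tlam S (rrq1_t15 A1 A2) (rrq1_t16 A1 A2)

theorem rrq1_h17 (h1 : Enc S E A1 a1) (h2 : Enc S E A2 a2) : Enc S E (rrq1_t17 A1 A2) (rrq1_v17 a1 a2) := enc_lam hS (rrq1_h15 h1 h2) (rrq1_h16 h1 h2)

def rrq1_t18 (A1 A2 : TM) : TM := tsub (rrq1_t8 A1 A2) (rrq1_t7 A1 A2)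

theorem rrq1_h18 (h1 : Enc S E A1 a1) (h2 : Enc S E A2 a2) : Enc S E (rrq1_t18 A1 A2) (rrq1_v18 a1 a2) := enc_sub (rrq1_h8 h1 h2) (rrq1_h7 h1 h2)

def rrq1_t19 (A1 A2 : TM) : TM := tmul S (rrq1_t17 A1 A2) (rrq1_t18 A1 A2)

theorem rrq1_h19 (h1 : Enc S E A1 a1) (h2 : Enc S E A2 a2) : Enc S E (rrq1_t19 A1 A2) (rrq1_v19 a1 a2) := enc_mul hS (rrq1_h17 h1 h2) (rrq1_h18 h1 h2)

def rrq1_t20 (A1 A2 : TM) : TM := tadd (rrq1_t7 A1 A2) (rrq1_t19 A1 A2)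

theorem rrq1_h20 (h1 : Enc S E A1 a1) (h2 : Enc S E A2 a2) : Enc S E (rrq1_t20 A1 A2) (rrq1_v20 a1 a2) := enc_add (rrq1_h7 h1 h2) (rrq1_h19 h1 h2)

def rrq1_t21 (_A1 A2 : TM) : TM := a1q1_t (A2)

theorem rrq1_h21 (_h1 : Enc S E A1 a1) (h2 : Enc S E A2 a2) : Enc S E (rrq1_t21 A1 A2) (rrq1_v21 a1 a2) := a1q1_enc (h2)

def rrq1_t22 (A1 A2 : TM) : TM := tsub (A1) (rrq1_t2 A1 A2)

theorem rrq1_h22 (h1 : Enc S E A1 a1) (h2 : Enc S E A2 a2) : Enc S E (rrq1_t22 A1 A2) (rrq1_v22 a1 a2) := enc_sub (h1) (rrq1_h2 h1 h2)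

def rrq1_t23 (A1 A2 : TM) : TM := tsub (rrq1_t3 A1 A2) (rrq1_t2 A1 A2)

theorem rrq1_h23 (h1 : Enc S E A1 a1) (h2 : Enc S E A2 a2) : Enc S E (rrq1_t23 A1 A2) (rrq1_v23 a1 a2) := enc_sub (rrq1_h3 h1 h2) (rrq1_h2 h1 h2)

def rrq1_t24 (A1 A2 : TM) : TM := tlam S (rrq1_t22 A1 A2) (rrq1_t23 A1 A2)

theorem rrq1_h24 (h1 : Enc S E A1 a1) (h2 : Enc S E A2 a2) : Enc S E (rrq1_t24 A1 A2) (rrq1_v24 a1 a2) := enc_lam hS (rrq1_h22 h1 h2) (rrq1_h23 h1 h2)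

def rrq1_t25 (A1 A2 : TM) : TM := tsub (rrq1_t7 A1 A2) (rrq1_t21 A1 A2)

theorem rrq1_h25 (h1 : Enc S E A1 a1) (h2 : Enc S E A2 a2) : Enc S E (rrq1_t25 A1 A2) (rrq1_v25 a1 a2) := enc_sub (rrq1_h7 h1 h2) (rrq1_h21 h1 h2)

def rrq1_t26 (A1 A2 : TM) : TM := tmul S (rrq1_t24 A1 A2) (rrq1_t25 A1 A2)

theorem rrq1_h26 (h1 : Enc S E A1 a1) (h2 : Enc S E A2 a2) : Enc S E (rrq1_t26 A1 A2) (rrq1_v26 a1 a2) := enc_mul hS (rrq1_h24 h1 h2) (rrq1_h25 h1 h2)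

def rrq1_t27 (A1 A2 : TM) : TM := tadd (rrq1_t21 A1 A2) (rrq1_t26 A1 A2)

theorem rrq1_h27 (h1 : Enc S E A1 a1) (h2 : Enc S E A2 a2) : Enc S E (rrq1_t27 A1 A2) (rrq1_v27 a1 a2) := enc_add (rrq1_h21 h1 h2) (rrq1_h26 h1 h2)

def rrq1_t28 (A1 A2 : TM) : TM := tcase (rrq1_t9 A1 A2) (rrq1_t20 A1 A2) (rrq1_t14 A1 A2)

theorem rrq1_h28 (h1 : Enc S E A1 a1) (h2 : Enc S E A2 a2) : Enc S E (rrq1_t28 A1 A2) (rrq1_v28 a1 a2) := enc_case hS (rrq1_h9 h1 h2) (rrq1_h20 h1 h2) (rrq1_h14 h1 h2)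

def rrq1_t29 (A1 A2 : TM) : TM := tcase (rrq1_t15 A1 A2) (rrq1_t27 A1 A2) (rrq1_t28 A1 A2)

theorem rrq1_h29 (h1 : Enc S E A1 a1) (h2 : Enc S E A2 a2) : Enc S E (rrq1_t29 A1 A2) (rrq1_v29 a1 a2) := enc_case hS (rrq1_h15 h1 h2) (rrq1_h27 h1 h2) (rrq1_h28 h1 h2)

def rrq1_t (A1 A2 : TM) : TM := rrq1_t29 A1 A2

theorem rrq1_enc (h1 : Enc S E A1 a1) (h2 : Enc S E A2 a2) : Enc S E (rrq1_t A1 A2) (rrq1_v a1 a2) := rrq1_h29 h1 h2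

def rrq2_t2 (_A1 A2 : TM) : TM := c1f_t (A2)

theorem rrq2_h2 (_h1 : Enc S E A1 a1) (h2 : Enc S E A2 a2) : Enc S E (rrq2_t2 A1 A2) (rrq2_v2 a1 a2) := c1f_enc (h2)

def rrq2_t3 (_A1 A2 : TM) : TM := f1p_t (A2)

theorem rrq2_h3 (_h1 : Enc S E A1 a1) (h2 : Enc S E A2 a2) : Enc S E (rrq2_t3 A1 A2) (rrq2_v3 a1 a2) := f1p_enc (h2)

def rrq2_t4 (_A1 A2 : TM) : TM := f2p_t (A2)

theorem rrq2_h4 (_h1 : Enc S E A1 a1) (h2 : Enc S E A2 a2) : Enc S E (rrq2_t4 A1 A2) (rrq2_v4 a1 a2) := f2p_enc (h2)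

def rrq2_t5 (_A1 A2 : TM) : TM := c3f_t (A2)

theorem rrq2_h5 (_h1 : Enc S E A1 a1) (h2 : Enc S E A2 a2) : Enc S E (rrq2_t5 A1 A2) (rrq2_v5 a1 a2) := c3f_enc (h2)

def rrq2_t6 (_A1 A2 : TM) : TM := a3q2_t (A2)

theorem rrq2_h6 (_h1 : Enc S E A1 a1) (h2 : Enc S E A2 a2) : Enc S E (rrq2_t6 A1 A2) (rrq2_v6 a1 a2) := a3q2_enc (h2)

def rrq2_t7 (_A1 A2 : TM) : TM := v1q2_t (A2)

theorem rrq2_h7 (_h1 : Enc S E A1 a1) (h2 : Enc S E A2 a2) : Enc S E (rrq2_t7 A1 A2) (rrq2_v7 a1 a2) := v1q2_enc (h2)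

def rrq2_t8 (_A1 A2 : TM) : TM := v2q2_t (A2)

theorem rrq2_h8 (_h1 : Enc S E A1 a1) (h2 : Enc S E A2 a2) : Enc S E (rrq2_t8 A1 A2) (rrq2_v8 a1 a2) := v2q2_enc (h2)

def rrq2_t9 (A1 A2 : TM) : TM := tsub (A1) (rrq2_t4 A1 A2)

theorem rrq2_h9 (h1 : Enc S E A1 a1) (h2 : Enc S E A2 a2) : Enc S E (rrq2_t9 A1 A2) (rrq2_v9 a1 a2) := enc_sub (h1) (rrq2_h4 h1 h2)

def rrq2_t10 (A1 A2 : TM) : TM := tsub (rrq2_t5 A1 A2) (rrq2_t4 A1 A2)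

theorem rrq2_h10 (h1 : Enc S E A1 a1) (h2 : Enc S E A2 a2) : Enc S E (rrq2_t10 A1 A2) (rrq2_v10 a1 a2) := enc_sub (rrq2_h5 h1 h2) (rrq2_h4 h1 h2)

def rrq2_t11 (A1 A2 : TM) : TM := tlam S (rrq2_t9 A1 A2) (rrq2_t10 A1 A2)

theorem rrq2_h11 (h1 : Enc S E A1 a1) (h2 : Enc S E A2 a2) : Enc S E (rrq2_t11 A1 A2) (rrq2_v11 a1 a2) := enc_lam hS (rrq2_h9 h1 h2) (rrq2_h10 h1 h2)

def rrq2_t12 (A1 A2 : TM) : TM := tsub (rrq2_t6 A1 A2) (rrq2_t8 A1 A2)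

theorem rrq2_h12 (h1 : Enc S E A1 a1) (h2 : Enc S E A2 a2) : Enc S E (rrq2_t12 A1 A2) (rrq2_v12 a1 a2) := enc_sub (rrq2_h6 h1 h2) (rrq2_h8 h1 h2)

def rrq2_t13 (A1 A2 : TM) : TM := tmul S (rrq2_t11 A1 A2) (rrq2_t12 A1 A2)

theorem rrq2_h13 (h1 : Enc S E A1 a1) (h2 : Enc S E A2 a2) : Enc S E (rrq2_t13 A1 A2) (rrq2_v13 a1 a2) := enc_mul hS (rrq2_h11 h1 h2) (rrq2_h12 h1 h2)

def rrq2_t14 (A1 A2 : TM) : TM := tadd (rrq2_t8 A1 A2) (rrq2_t13 A1 A2)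

theorem rrq2_h14 (h1 : Enc S E A1 a1) (h2 : Enc S E A2 a2) : Enc S E (rrq2_t14 A1 A2) (rrq2_v14 a1 a2) := enc_add (rrq2_h8 h1 h2) (rrq2_h13 h1 h2)

def rrq2_t15 (A1 A2 : TM) : TM := tsub (A1) (rrq2_t3 A1 A2)

theorem rrq2_h15 (h1 : Enc S E A1 a1) (h2 : Enc S E A2 a2) : Enc S E (rrq2_t15 A1 A2) (rrq2_v15 a1 a2) := enc_sub (h1) (rrq2_h3 h1 h2)

def rrq2_t16 (A1 A2 : TM) : TM := tsub (rrq2_t4 A1 A2) (rrq2_t3 A1 A2)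

theorem rrq2_h16 (h1 : Enc S E A1 a1) (h2 : Enc S E A2 a2) : Enc S E (rrq2_t16 A1 A2) (rrq2_v16 a1 a2) := enc_sub (rrq2_h4 h1 h2) (rrq2_h3 h1 h2)

def rrq2_t17 (A1 A2 : TM) : TM := tlam S (rrq2_t15 A1 A2) (rrq2_t16 A1 A2)

theorem rrq2_h17 (h1 : Enc S E A1 a1) (h2 : Enc S E A2 a2) : Enc S E (rrq2_t17 A1 A2) (rrq2_v17 a1 a2) := enc_lam hS (rrq2_h15 h1 h2) (rrq2_h16 h1 h2)

def rrq2_t18 (A1 A2 : TM) : TM := tsub (rrq2_t8 A1 A2) (rrq2_t7 A1 A2)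

theorem rrq2_h18 (h1 : Enc S E A1 a1) (h2 : Enc S E A2 a2) : Enc S E (rrq2_t18 A1 A2) (rrq2_v18 a1 a2) := enc_sub (rrq2_h8 h1 h2) (rrq2_h7 h1 h2)

def rrq2_t19 (A1 A2 : TM) : TM := tmul S (rrq2_t17 A1 A2) (rrq2_t18 A1 A2)

theorem rrq2_h19 (h1 : Enc S E A1 a1) (h2 : Enc S E A2 a2) : Enc S E (rrq2_t19 A1 A2) (rrq2_v19 a1 a2) := enc_mul hS (rrq2_h17 h1 h2) (rrq2_h18 h1 h2)

def rrq2_t20 (A1 A2 : TM) : TM := tadd (rrq2_t7 A1 A2) (rrq2_t19 A1 A2)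

theorem rrq2_h20 (h1 : Enc S E A1 a1) (h2 : Enc S E A2 a2) : Enc S E (rrq2_t20 A1 A2) (rrq2_v20 a1 a2) := enc_add (rrq2_h7 h1 h2) (rrq2_h19 h1 h2)

def rrq2_t21 (A1 A2 : TM) : TM := tsub (A1) (rrq2_t2 A1 A2)

theorem rrq2_h21 (h1 : Enc S E A1 a1) (h2 : Enc S E A2 a2) : Enc S E (rrq2_t21 A1 A2) (rrq2_v21 a1 a2) := enc_sub (h1) (rrq2_h2 h1 h2)

def rrq2_t22 (A1 A2 : TM) : TM := tsub (rrq2_t3 A1 A2) (rrq2_t2 A1 A2)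

theorem rrq2_h22 (h1 : Enc S E A1 a1) (h2 : Enc S E A2 a2) : Enc S E (rrq2_t22 A1 A2) (rrq2_v22 a1 a2) := enc_sub (rrq2_h3 h1 h2) (rrq2_h2 h1 h2)

def rrq2_t23 (A1 A2 : TM) : TM := tlam S (rrq2_t21 A1 A2) (rrq2_t22 A1 A2)

theorem rrq2_h23 (h1 : Enc S E A1 a1) (h2 : Enc S E A2 a2) : Enc S E (rrq2_t23 A1 A2) (rrq2_v23 a1 a2) := enc_lam hS (rrq2_h21 h1 h2) (rrq2_h22 h1 h2)

def rrq2_t24 (A1 A2 : TM) : TM := tsub (rrq2_t7 A1 A2) (rrq2_t2 A1 A2)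

theorem rrq2_h24 (h1 : Enc S E A1 a1) (h2 : Enc S E A2 a2) : Enc S E (rrq2_t24 A1 A2) (rrq2_v24 a1 a2) := enc_sub (rrq2_h7 h1 h2) (rrq2_h2 h1 h2)

def rrq2_t25 (A1 A2 : TM) : TM := tmul S (rrq2_t23 A1 A2) (rrq2_t24 A1 A2)

theorem rrq2_h25 (h1 : Enc S E A1 a1) (h2 : Enc S E A2 a2) : Enc S E (rrq2_t25 A1 A2) (rrq2_v25 a1 a2) := enc_mul hS (rrq2_h23 h1 h2) (rrq2_h24 h1 h2)

def rrq2_t26 (A1 A2 : TM) : TM := tadd (rrq2_t2 A1 A2) (rrq2_t25 A1 A2)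

theorem rrq2_h26 (h1 : Enc S E A1 a1) (h2 : Enc S E A2 a2) : Enc S E (rrq2_t26 A1 A2) (rrq2_v26 a1 a2) := enc_add (rrq2_h2 h1 h2) (rrq2_h25 h1 h2)

def rrq2_t27 (_A1 _A2 : TM) : TM := tconst (Nat.mul 1 S) 0 0

theorem rrq2_h27 (_h1 : Enc S E A1 a1) (_h2 : Enc S E A2 a2) : Enc S E (rrq2_t27 A1 A2) (rrq2_v27 a1 a2) := enc_nc E 1

def rrq2_t28 (A1 A2 : TM) : TM := tsub (rrq2_t27 A1 A2) (A2)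

theorem rrq2_h28 (h1 : Enc S E A1 a1) (h2 : Enc S E A2 a2) : Enc S E (rrq2_t28 A1 A2) (rrq2_v28 a1 a2) := enc_sub (rrq2_h27 h1 h2) (h2)

def rrq2_t29 (_A1 A2 : TM) : TM := b1q2_t (A2)

theorem rrq2_h29 (_h1 : Enc S E A1 a1) (h2 : Enc S E A2 a2) : Enc S E (rrq2_t29 A1 A2) (rrq2_v29 a1 a2) := b1q2_enc (h2)

def rrq2_t30 (A1 A2 : TM) : TM := tmul S (A1) (rrq2_t29 A1 A2)

theorem rrq2_h30 (h1 : Enc S E A1 a1) (h2 : Enc S E A2 a2) : Enc S E (rrq2_t30 A1 A2) (rrq2_v30 a1 a2) := enc_mul hS (h1) (rrq2_h29 h1 h2)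

def rrq2_t31 (A1 A2 : TM) : TM := tcase (rrq2_t28 A1 A2) (rrq2_t30 A1 A2) (rrq2_t26 A1 A2)

theorem rrq2_h31 (h1 : Enc S E A1 a1) (h2 : Enc S E A2 a2) : Enc S E (rrq2_t31 A1 A2) (rrq2_v31 a1 a2) := enc_case hS (rrq2_h28 h1 h2) (rrq2_h30 h1 h2) (rrq2_h26 h1 h2)

def rrq2_t32 (A1 A2 : TM) : TM := tcase (rrq2_t9 A1 A2) (rrq2_t20 A1 A2) (rrq2_t14 A1 A2)

theorem rrq2_h32 (h1 : Enc S E A1 a1) (h2 : Enc S E A2 a2) : Enc S E (rrq2_t32 A1 A2) (rrq2_v32 a1 a2) := enc_case hS (rrq2_h9 h1 h2) (rrq2_h20 h1 h2) (rrq2_h14 h1 h2)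

def rrq2_t33 (A1 A2 : TM) : TM := tcase (rrq2_t15 A1 A2) (rrq2_t31 A1 A2) (rrq2_t32 A1 A2)

theorem rrq2_h33 (h1 : Enc S E A1 a1) (h2 : Enc S E A2 a2) : Enc S E (rrq2_t33 A1 A2) (rrq2_v33 a1 a2) := enc_case hS (rrq2_h15 h1 h2) (rrq2_h31 h1 h2) (rrq2_h32 h1 h2)

def rrq2_t (A1 A2 : TM) : TM := rrq2_t33 A1 A2

theorem rrq2_enc (h1 : Enc S E A1 a1) (h2 : Enc S E A2 a2) : Enc S E (rrq2_t A1 A2) (rrq2_v a1 a2) := rrq2_h33 h1 h2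

def rrq3_t3 (_A1 A2 : TM) : TM := f1p_t (A2)

theorem rrq3_h3 (_h1 : Enc S E A1 a1) (h2 : Enc S E A2 a2) : Enc S E (rrq3_t3 A1 A2) (rrq3_v3 a1 a2) := f1p_enc (h2)

def rrq3_t4 (_A1 A2 : TM) : TM := f2p_t (A2)

theorem rrq3_h4 (_h1 : Enc S E A1 a1) (h2 : Enc S E A2 a2) : Enc S E (rrq3_t4 A1 A2) (rrq3_v4 a1 a2) := f2p_enc (h2)

def rrq3_t5 (_A1 A2 : TM) : TM := c3f_t (A2)

theorem rrq3_h5 (_h1 : Enc S E A1 a1) (h2 : Enc S E A2 a2) : Enc S E (rrq3_t5 A1 A2) (rrq3_v5 a1 a2) := c3f_enc (h2)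

def rrq3_t6 (_A1 A2 : TM) : TM := a3q3_t (A2)

theorem rrq3_h6 (_h1 : Enc S E A1 a1) (h2 : Enc S E A2 a2) : Enc S E (rrq3_t6 A1 A2) (rrq3_v6 a1 a2) := a3q3_enc (h2)

def rrq3_t7 (_A1 A2 : TM) : TM := v1q3_t (A2)

theorem rrq3_h7 (_h1 : Enc S E A1 a1) (h2 : Enc S E A2 a2) : Enc S E (rrq3_t7 A1 A2) (rrq3_v7 a1 a2) := v1q3_enc (h2)

def rrq3_t8 (_A1 A2 : TM) : TM := v2q3_t (A2)

theorem rrq3_h8 (_h1 : Enc S E A1 a1) (h2 : Enc S E A2 a2) : Enc S E (rrq3_t8 A1 A2) (rrq3_v8 a1 a2) := v2q3_enc (h2)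

def rrq3_t9 (A1 A2 : TM) : TM := tsub (A1) (rrq3_t4 A1 A2)

theorem rrq3_h9 (h1 : Enc S E A1 a1) (h2 : Enc S E A2 a2) : Enc S E (rrq3_t9 A1 A2) (rrq3_v9 a1 a2) := enc_sub (h1) (rrq3_h4 h1 h2)

def rrq3_t10 (A1 A2 : TM) : TM := tsub (rrq3_t5 A1 A2) (rrq3_t4 A1 A2)

theorem rrq3_h10 (h1 : Enc S E A1 a1) (h2 : Enc S E A2 a2) : Enc S E (rrq3_t10 A1 A2) (rrq3_v10 a1 a2) := enc_sub (rrq3_h5 h1 h2) (rrq3_h4 h1 h2)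

def rrq3_t11 (A1 A2 : TM) : TM := tlam S (rrq3_t9 A1 A2) (rrq3_t10 A1 A2)

theorem rrq3_h11 (h1 : Enc S E A1 a1) (h2 : Enc S E A2 a2) : Enc S E (rrq3_t11 A1 A2) (rrq3_v11 a1 a2) := enc_lam hS (rrq3_h9 h1 h2) (rrq3_h10 h1 h2)

def rrq3_t12 (A1 A2 : TM) : TM := tsub (rrq3_t6 A1 A2) (rrq3_t8 A1 A2)

theorem rrq3_h12 (h1 : Enc S E A1 a1) (h2 : Enc S E A2 a2) : Enc S E (rrq3_t12 A1 A2) (rrq3_v12 a1 a2) := enc_sub (rrq3_h6 h1 h2) (rrq3_h8 h1 h2)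

def rrq3_t13 (A1 A2 : TM) : TM := tmul S (rrq3_t11 A1 A2) (rrq3_t12 A1 A2)

theorem rrq3_h13 (h1 : Enc S E A1 a1) (h2 : Enc S E A2 a2) : Enc S E (rrq3_t13 A1 A2) (rrq3_v13 a1 a2) := enc_mul hS (rrq3_h11 h1 h2) (rrq3_h12 h1 h2)

def rrq3_t14 (A1 A2 : TM) : TM := tadd (rrq3_t8 A1 A2) (rrq3_t13 A1 A2)

theorem rrq3_h14 (h1 : Enc S E A1 a1) (h2 : Enc S E A2 a2) : Enc S E (rrq3_t14 A1 A2) (rrq3_v14 a1 a2) := enc_add (rrq3_h8 h1 h2) (rrq3_h13 h1 h2)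

def rrq3_t15 (A1 A2 : TM) : TM := tsub (A1) (rrq3_t3 A1 A2)

theorem rrq3_h15 (h1 : Enc S E A1 a1) (h2 : Enc S E A2 a2) : Enc S E (rrq3_t15 A1 A2) (rrq3_v15 a1 a2) := enc_sub (h1) (rrq3_h3 h1 h2)

def rrq3_t16 (A1 A2 : TM) : TM := tsub (rrq3_t4 A1 A2) (rrq3_t3 A1 A2)

theorem rrq3_h16 (h1 : Enc S E A1 a1) (h2 : Enc S E A2 a2) : Enc S E (rrq3_t16 A1 A2) (rrq3_v16 a1 a2) := enc_sub (rrq3_h4 h1 h2) (rrq3_h3 h1 h2)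

def rrq3_t17 (A1 A2 : TM) : TM := tlam S (rrq3_t15 A1 A2) (rrq3_t16 A1 A2)

theorem rrq3_h17 (h1 : Enc S E A1 a1) (h2 : Enc S E A2 a2) : Enc S E (rrq3_t17 A1 A2) (rrq3_v17 a1 a2) := enc_lam hS (rrq3_h15 h1 h2) (rrq3_h16 h1 h2)

def rrq3_t18 (A1 A2 : TM) : TM := tsub (rrq3_t8 A1 A2) (rrq3_t7 A1 A2)

theorem rrq3_h18 (h1 : Enc S E A1 a1) (h2 : Enc S E A2 a2) : Enc S E (rrq3_t18 A1 A2) (rrq3_v18 a1 a2) := enc_sub (rrq3_h8 h1 h2) (rrq3_h7 h1 h2)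

def rrq3_t19 (A1 A2 : TM) : TM := tmul S (rrq3_t17 A1 A2) (rrq3_t18 A1 A2)

theorem rrq3_h19 (h1 : Enc S E A1 a1) (h2 : Enc S E A2 a2) : Enc S E (rrq3_t19 A1 A2) (rrq3_v19 a1 a2) := enc_mul hS (rrq3_h17 h1 h2) (rrq3_h18 h1 h2)

def rrq3_t20 (A1 A2 : TM) : TM := tadd (rrq3_t7 A1 A2) (rrq3_t19 A1 A2)

theorem rrq3_h20 (h1 : Enc S E A1 a1) (h2 : Enc S E A2 a2) : Enc S E (rrq3_t20 A1 A2) (rrq3_v20 a1 a2) := enc_add (rrq3_h7 h1 h2) (rrq3_h19 h1 h2)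

def rrq3_t21 (_A1 A2 : TM) : TM := b1q3_t (A2)

theorem rrq3_h21 (_h1 : Enc S E A1 a1) (h2 : Enc S E A2 a2) : Enc S E (rrq3_t21 A1 A2) (rrq3_v21 a1 a2) := b1q3_enc (h2)

def rrq3_t22 (A1 A2 : TM) : TM := tmul S (A1) (rrq3_t21 A1 A2)

theorem rrq3_h22 (h1 : Enc S E A1 a1) (h2 : Enc S E A2 a2) : Enc S E (rrq3_t22 A1 A2) (rrq3_v22 a1 a2) := enc_mul hS (h1) (rrq3_h21 h1 h2)

def rrq3_t23 (A1 A2 : TM) : TM := tcase (rrq3_t9 A1 A2) (rrq3_t20 A1 A2) (rrq3_t14 A1 A2)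

theorem rrq3_h23 (h1 : Enc S E A1 a1) (h2 : Enc S E A2 a2) : Enc S E (rrq3_t23 A1 A2) (rrq3_v23 a1 a2) := enc_case hS (rrq3_h9 h1 h2) (rrq3_h20 h1 h2) (rrq3_h14 h1 h2)

def rrq3_t24 (A1 A2 : TM) : TM := tcase (rrq3_t15 A1 A2) (rrq3_t22 A1 A2) (rrq3_t23 A1 A2)

theorem rrq3_h24 (h1 : Enc S E A1 a1) (h2 : Enc S E A2 a2) : Enc S E (rrq3_t24 A1 A2) (rrq3_v24 a1 a2) := enc_case hS (rrq3_h15 h1 h2) (rrq3_h22 h1 h2) (rrq3_h23 h1 h2)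

def rrq3_t (A1 A2 : TM) : TM := rrq3_t24 A1 A2

theorem rrq3_enc (h1 : Enc S E A1 a1) (h2 : Enc S E A2 a2) : Enc S E (rrq3_t A1 A2) (rrq3_v a1 a2) := rrq3_h24 h1 h2

def rq0_t2 (A1 _A2 : TM) : TM := tneg (A1)

theorem rq0_h2 (h1 : Enc S E A1 a1) (_h2 : Enc S E A2 a2) : Enc S E (rq0_t2 A1 A2) (rq0_v2 a1 a2) := enc_neg (h1)

def rq0_t3 (A1 A2 : TM) : TM := rrq0_t (rq0_t2 A1 A2) (A2)

theorem rq0_h3 (h1 : Enc S E A1 a1) (h2 : Enc S E A2 a2) : Enc S E (rq0_t3 A1 A2) (rq0_v3 a1 a2) := rrq0_enc (rq0_h2 h1 h2) (h2)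

def rq0_t4 (A1 A2 : TM) : TM := tneg (rq0_t3 A1 A2)

theorem rq0_h4 (h1 : Enc S E A1 a1) (h2 : Enc S E A2 a2) : Enc S E (rq0_t4 A1 A2) (rq0_v4 a1 a2) := enc_neg (rq0_h3 h1 h2)

def rq0_t5 (A1 A2 : TM) : TM := rrq0_t (A1) (A2)

theorem rq0_h5 (h1 : Enc S E A1 a1) (h2 : Enc S E A2 a2) : Enc S E (rq0_t5 A1 A2) (rq0_v5 a1 a2) := rrq0_enc (h1) (h2)

def rq0_t6 (A1 A2 : TM) : TM := tcase (A1) (rq0_t4 A1 A2) (rq0_t5 A1 A2)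

theorem rq0_h6 (h1 : Enc S E A1 a1) (h2 : Enc S E A2 a2) : Enc S E (rq0_t6 A1 A2) (rq0_v6 a1 a2) := enc_case hS (h1) (rq0_h4 h1 h2) (rq0_h5 h1 h2)

def rq0_t (A1 A2 : TM) : TM := rq0_t6 A1 A2

theorem rq0_enc (h1 : Enc S E A1 a1) (h2 : Enc S E A2 a2) : Enc S E (rq0_t A1 A2) (rq0_v a1 a2) := rq0_h6 h1 h2

def rq1_t2 (A1 _A2 : TM) : TM := tneg (A1)

theorem rq1_h2 (h1 : Enc S E A1 a1) (_h2 : Enc S E A2 a2) : Enc S E (rq1_t2 A1 A2) (rq1_v2 a1 a2) := enc_neg (h1)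

def rq1_t3 (A1 A2 : TM) : TM := rrq1_t (rq1_t2 A1 A2) (A2)

theorem rq1_h3 (h1 : Enc S E A1 a1) (h2 : Enc S E A2 a2) : Enc S E (rq1_t3 A1 A2) (rq1_v3 a1 a2) := rrq1_enc (rq1_h2 h1 h2) (h2)

def rq1_t4 (A1 A2 : TM) : TM := tneg (rq1_t3 A1 A2)

theorem rq1_h4 (h1 : Enc S E A1 a1) (h2 : Enc S E A2 a2) : Enc S E (rq1_t4 A1 A2) (rq1_v4 a1 a2) := enc_neg (rq1_h3 h1 h2)

def rq1_t5 (A1 A2 : TM) : TM := rrq1_t (A1) (A2)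

theorem rq1_h5 (h1 : Enc S E A1 a1) (h2 : Enc S E A2 a2) : Enc S E (rq1_t5 A1 A2) (rq1_v5 a1 a2) := rrq1_enc (h1) (h2)

def rq1_t6 (A1 A2 : TM) : TM := tcase (A1) (rq1_t4 A1 A2) (rq1_t5 A1 A2)

theorem rq1_h6 (h1 : Enc S E A1 a1) (h2 : Enc S E A2 a2) : Enc S E (rq1_t6 A1 A2) (rq1_v6 a1 a2) := enc_case hS (h1) (rq1_h4 h1 h2) (rq1_h5 h1 h2)

def rq1_t (A1 A2 : TM) : TM := rq1_t6 A1 A2

theorem rq1_enc (h1 : Enc S E A1 a1) (h2 : Enc S E A2 a2) : Enc S E (rq1_t A1 A2) (rq1_v a1 a2) := rq1_h6 h1 h2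

def rq2_t2 (A1 _A2 : TM) : TM := tneg (A1)

theorem rq2_h2 (h1 : Enc S E A1 a1) (_h2 : Enc S E A2 a2) : Enc S E (rq2_t2 A1 A2) (rq2_v2 a1 a2) := enc_neg (h1)

def rq2_t3 (A1 A2 : TM) : TM := rrq2_t (rq2_t2 A1 A2) (A2)

theorem rq2_h3 (h1 : Enc S E A1 a1) (h2 : Enc S E A2 a2) : Enc S E (rq2_t3 A1 A2) (rq2_v3 a1 a2) := rrq2_enc (rq2_h2 h1 h2) (h2)

def rq2_t4 (A1 A2 : TM) : TM := tneg (rq2_t3 A1 A2)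

theorem rq2_h4 (h1 : Enc S E A1 a1) (h2 : Enc S E A2 a2) : Enc S E (rq2_t4 A1 A2) (rq2_v4 a1 a2) := enc_neg (rq2_h3 h1 h2)

def rq2_t5 (A1 A2 : TM) : TM := rrq2_t (A1) (A2)

theorem rq2_h5 (h1 : Enc S E A1 a1) (h2 : Enc S E A2 a2) : Enc S E (rq2_t5 A1 A2) (rq2_v5 a1 a2) := rrq2_enc (h1) (h2)

def rq2_t6 (A1 A2 : TM) : TM := tcase (A1) (rq2_t4 A1 A2) (rq2_t5 A1 A2)

theorem rq2_h6 (h1 : Enc S E A1 a1) (h2 : Enc S E A2 a2) : Enc S E (rq2_t6 A1 A2) (rq2_v6 a1 a2) := enc_case hS (h1) (rq2_h4 h1 h2) (rq2_h5 h1 h2)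

def rq2_t (A1 A2 : TM) : TM := rq2_t6 A1 A2

theorem rq2_enc (h1 : Enc S E A1 a1) (h2 : Enc S E A2 a2) : Enc S E (rq2_t A1 A2) (rq2_v a1 a2) := rq2_h6 h1 h2

def rq3_t2 (A1 _A2 : TM) : TM := tneg (A1)

theorem rq3_h2 (h1 : Enc S E A1 a1) (_h2 : Enc S E A2 a2) : Enc S E (rq3_t2 A1 A2) (rq3_v2 a1 a2) := enc_neg (h1)

def rq3_t3 (A1 A2 : TM) : TM := rrq3_t (rq3_t2 A1 A2) (A2)

theorem rq3_h3 (h1 : Enc S E A1 a1) (h2 : Enc S E A2 a2) : Enc S E (rq3_t3 A1 A2) (rq3_v3 a1 a2) := rrq3_enc (rq3_h2 h1 h2) (h2)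

def rq3_t4 (A1 A2 : TM) : TM := tneg (rq3_t3 A1 A2)

theorem rq3_h4 (h1 : Enc S E A1 a1) (h2 : Enc S E A2 a2) : Enc S E (rq3_t4 A1 A2) (rq3_v4 a1 a2) := enc_neg (rq3_h3 h1 h2)

def rq3_t5 (A1 A2 : TM) : TM := rrq3_t (A1) (A2)

theorem rq3_h5 (h1 : Enc S E A1 a1) (h2 : Enc S E A2 a2) : Enc S E (rq3_t5 A1 A2) (rq3_v5 a1 a2) := rrq3_enc (h1) (h2)

def rq3_t6 (A1 A2 : TM) : TM := tcase (A1) (rq3_t4 A1 A2) (rq3_t5 A1 A2)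

theorem rq3_h6 (h1 : Enc S E A1 a1) (h2 : Enc S E A2 a2) : Enc S E (rq3_t6 A1 A2) (rq3_v6 a1 a2) := enc_case hS (h1) (rq3_h4 h1 h2) (rq3_h5 h1 h2)

def rq3_t (A1 A2 : TM) : TM := rq3_t6 A1 A2

theorem rq3_enc (h1 : Enc S E A1 a1) (h2 : Enc S E A2 a2) : Enc S E (rq3_t A1 A2) (rq3_v a1 a2) := rq3_h6 h1 h2

def starn_t6 (_A1 _A2 _A3 _A4 _A5 _A6 : TM) : TM := tconst 1859775393 0 1

theorem starn_h6 (_h1 : Enc S E A1 a1) (_h2 : Enc S E A2 a2) (_h3 : Enc S E A3 a3) (_h4 : Enc S E A4 a4) (_h5 : Enc S E A5 a5) (_h6 : Enc S E A6 a6) : Enc S E (starn_t6 A1 A2 A3 A4 A5 A6) (starn_v6 a1 a2 a3 a4 a5 a6) := enc_sqrtn E (by decide) (by decide)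

def starn_t7 (A1 A2 A3 A4 A5 A6 : TM) : TM := tscale 1 2 (starn_t6 A1 A2 A3 A4 A5 A6)

theorem starn_h7 (h1 : Enc S E A1 a1) (h2 : Enc S E A2 a2) (h3 : Enc S E A3 a3) (h4 : Enc S E A4 a4) (h5 : Enc S E A5 a5) (h6 : Enc S E A6 a6) : Enc S E (starn_t7 A1 A2 A3 A4 A5 A6) (starn_v7 a1 a2 a3 a4 a5 a6) := enc_scale 1 (by norm_num) (starn_h6 h1 h2 h3 h4 h5 h6)

def starn_t8 (_A1 A2 A3 _A4 _A5 _A6 : TM) : TM := tadd (A2) (A3)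

theorem starn_h8 (_h1 : Enc S E A1 a1) (h2 : Enc S E A2 a2) (h3 : Enc S E A3 a3) (_h4 : Enc S E A4 a4) (_h5 : Enc S E A5 a5) (_h6 : Enc S E A6 a6) : Enc S E (starn_t8 A1 A2 A3 A4 A5 A6) (starn_v8 a1 a2 a3 a4 a5 a6) := enc_add (h2) (h3)

def starn_t9 (A1 A2 A3 A4 A5 A6 : TM) : TM := tlam S (A2) (starn_t8 A1 A2 A3 A4 A5 A6)

theorem starn_h9 (h1 : Enc S E A1 a1) (h2 : Enc S E A2 a2) (h3 : Enc S E A3 a3) (h4 : Enc S E A4 a4) (h5 : Enc S E A5 a5) (h6 : Enc S E A6 a6) : Enc S E (starn_t9 A1 A2 A3 A4 A5 A6) (starn_v9 a1 a2 a3 a4 a5 a6) := enc_lam hS (h2) (starn_h8 h1 h2 h3 h4 h5 h6)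

def starn_t10 (A1 A2 A3 A4 A5 A6 : TM) : TM := tnat 2 (starn_t9 A1 A2 A3 A4 A5 A6)

theorem starn_h10 (h1 : Enc S E A1 a1) (h2 : Enc S E A2 a2) (h3 : Enc S E A3 a3) (h4 : Enc S E A4 a4) (h5 : Enc S E A5 a5) (h6 : Enc S E A6 a6) : Enc S E (starn_t10 A1 A2 A3 A4 A5 A6) (starn_v10 a1 a2 a3 a4 a5 a6) := enc_nat 2 (starn_h9 h1 h2 h3 h4 h5 h6)

def starn_t11 (_A1 _A2 _A3 _A4 _A5 _A6 : TM) : TM := tconst (Nat.mul 1 S) 0 0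

theorem starn_h11 (_h1 : Enc S E A1 a1) (_h2 : Enc S E A2 a2) (_h3 : Enc S E A3 a3) (_h4 : Enc S E A4 a4) (_h5 : Enc S E A5 a5) (_h6 : Enc S E A6 a6) : Enc S E (starn_t11 A1 A2 A3 A4 A5 A6) (starn_v11 a1 a2 a3 a4 a5 a6) := enc_nc E 1

def starn_t12 (A1 A2 A3 A4 A5 A6 : TM) : TM := tsub (starn_t10 A1 A2 A3 A4 A5 A6) (starn_t11 A1 A2 A3 A4 A5 A6)

theorem starn_h12 (h1 : Enc S E A1 a1) (h2 : Enc S E A2 a2) (h3 : Enc S E A3 a3) (h4 : Enc S E A4 a4) (h5 : Enc S E A5 a5) (h6 : Enc S E A6 a6) : Enc S E (starn_t12 A1 A2 A3 A4 A5 A6) (starn_v12 a1 a2 a3 a4 a5 a6) := enc_sub (starn_h10 h1 h2 h3 h4 h5 h6) (starn_h11 h1 h2 h3 h4 h5 h6)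

def starn_t13 (A1 A2 A3 A4 A5 A6 : TM) : TM := tsub (starn_t7 A1 A2 A3 A4 A5 A6) (A2)

theorem starn_h13 (h1 : Enc S E A1 a1) (h2 : Enc S E A2 a2) (h3 : Enc S E A3 a3) (h4 : Enc S E A4 a4) (h5 : Enc S E A5 a5) (h6 : Enc S E A6 a6) : Enc S E (starn_t13 A1 A2 A3 A4 A5 A6) (starn_v13 a1 a2 a3 a4 a5 a6) := enc_sub (starn_h7 h1 h2 h3 h4 h5 h6) (h2)

def starn_t14 (A1 A2 A3 A4 A5 A6 : TM) : TM := tmul S (A4) (starn_t13 A1 A2 A3 A4 A5 A6)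

theorem starn_h14 (h1 : Enc S E A1 a1) (h2 : Enc S E A2 a2) (h3 : Enc S E A3 a3) (h4 : Enc S E A4 a4) (h5 : Enc S E A5 a5) (h6 : Enc S E A6 a6) : Enc S E (starn_t14 A1 A2 A3 A4 A5 A6) (starn_v14 a1 a2 a3 a4 a5 a6) := enc_mul hS (h4) (starn_h13 h1 h2 h3 h4 h5 h6)

def starn_t15 (_A1 A2 _A3 _A4 _A5 _A6 : TM) : TM := tnat 2 (A2)

theorem starn_h15 (_h1 : Enc S E A1 a1) (h2 : Enc S E A2 a2) (_h3 : Enc S E A3 a3) (_h4 : Enc S E A4 a4) (_h5 : Enc S E A5 a5) (_h6 : Enc S E A6 a6) : Enc S E (starn_t15 A1 A2 A3 A4 A5 A6) (starn_v15 a1 a2 a3 a4 a5 a6) := enc_nat 2 (h2)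

def starn_t16 (A1 A2 A3 A4 A5 A6 : TM) : TM := tsub (starn_t7 A1 A2 A3 A4 A5 A6) (starn_t15 A1 A2 A3 A4 A5 A6)

theorem starn_h16 (h1 : Enc S E A1 a1) (h2 : Enc S E A2 a2) (h3 : Enc S E A3 a3) (h4 : Enc S E A4 a4) (h5 : Enc S E A5 a5) (h6 : Enc S E A6 a6) : Enc S E (starn_t16 A1 A2 A3 A4 A5 A6) (starn_v16 a1 a2 a3 a4 a5 a6) := enc_sub (starn_h7 h1 h2 h3 h4 h5 h6) (starn_h15 h1 h2 h3 h4 h5 h6)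

def starn_t17 (A1 A2 A3 A4 A5 A6 : TM) : TM := tsub (starn_t16 A1 A2 A3 A4 A5 A6) (A3)

theorem starn_h17 (h1 : Enc S E A1 a1) (h2 : Enc S E A2 a2) (h3 : Enc S E A3 a3) (h4 : Enc S E A4 a4) (h5 : Enc S E A5 a5) (h6 : Enc S E A6 a6) : Enc S E (starn_t17 A1 A2 A3 A4 A5 A6) (starn_v17 a1 a2 a3 a4 a5 a6) := enc_sub (starn_h16 h1 h2 h3 h4 h5 h6) (h3)

def starn_t18 (A1 A2 A3 A4 A5 A6 : TM) : TM := tmul S (A5) (starn_t17 A1 A2 A3 A4 A5 A6)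

theorem starn_h18 (h1 : Enc S E A1 a1) (h2 : Enc S E A2 a2) (h3 : Enc S E A3 a3) (h4 : Enc S E A4 a4) (h5 : Enc S E A5 a5) (h6 : Enc S E A6 a6) : Enc S E (starn_t18 A1 A2 A3 A4 A5 A6) (starn_v18 a1 a2 a3 a4 a5 a6) := enc_mul hS (h5) (starn_h17 h1 h2 h3 h4 h5 h6)

def starn_t19 (A1 A2 A3 A4 A5 A6 : TM) : TM := tadd (starn_t14 A1 A2 A3 A4 A5 A6) (starn_t18 A1 A2 A3 A4 A5 A6)

theorem starn_h19 (h1 : Enc S E A1 a1) (h2 : Enc S E A2 a2) (h3 : Enc S E A3 a3) (h4 : Enc S E A4 a4) (h5 : Enc S E A5 a5) (h6 : Enc S E A6 a6) : Enc S E (starn_t19 A1 A2 A3 A4 A5 A6) (starn_v19 a1 a2 a3 a4 a5 a6) := enc_add (starn_h14 h1 h2 h3 h4 h5 h6) (starn_h18 h1 h2 h3 h4 h5 h6)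

def starn_t20 (A1 A2 A3 A4 A5 A6 : TM) : TM := tsub (starn_t13 A1 A2 A3 A4 A5 A6) (A3)

theorem starn_h20 (h1 : Enc S E A1 a1) (h2 : Enc S E A2 a2) (h3 : Enc S E A3 a3) (h4 : Enc S E A4 a4) (h5 : Enc S E A5 a5) (h6 : Enc S E A6 a6) : Enc S E (starn_t20 A1 A2 A3 A4 A5 A6) (starn_v20 a1 a2 a3 a4 a5 a6) := enc_sub (starn_h13 h1 h2 h3 h4 h5 h6) (h3)

def starn_t21 (A1 A2 A3 A4 A5 A6 : TM) : TM := tmul S (A6) (starn_t20 A1 A2 A3 A4 A5 A6)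

theorem starn_h21 (h1 : Enc S E A1 a1) (h2 : Enc S E A2 a2) (h3 : Enc S E A3 a3) (h4 : Enc S E A4 a4) (h5 : Enc S E A5 a5) (h6 : Enc S E A6 a6) : Enc S E (starn_t21 A1 A2 A3 A4 A5 A6) (starn_v21 a1 a2 a3 a4 a5 a6) := enc_mul hS (h6) (starn_h20 h1 h2 h3 h4 h5 h6)

def starn_t22 (A1 A2 A3 A4 A5 A6 : TM) : TM := tsub (starn_t19 A1 A2 A3 A4 A5 A6) (starn_t21 A1 A2 A3 A4 A5 A6)

theorem starn_h22 (h1 : Enc S E A1 a1) (h2 : Enc S E A2 a2) (h3 : Enc S E A3 a3) (h4 : Enc S E A4 a4) (h5 : Enc S E A5 a5) (h6 : Enc S E A6 a6) : Enc S E (starn_t22 A1 A2 A3 A4 A5 A6) (starn_v22 a1 a2 a3 a4 a5 a6) := enc_sub (starn_h19 h1 h2 h3 h4 h5 h6) (starn_h21 h1 h2 h3 h4 h5 h6)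

def starn_t23 (A1 A2 A3 A4 A5 A6 : TM) : TM := tinv S (starn_t6 A1 A2 A3 A4 A5 A6)

theorem starn_h23 (h1 : Enc S E A1 a1) (h2 : Enc S E A2 a2) (h3 : Enc S E A3 a3) (h4 : Enc S E A4 a4) (h5 : Enc S E A5 a5) (h6 : Enc S E A6 a6) : Enc S E (starn_t23 A1 A2 A3 A4 A5 A6) (starn_v23 a1 a2 a3 a4 a5 a6) := enc_inv hS (starn_h6 h1 h2 h3 h4 h5 h6)

def starn_t24 (A1 A2 A3 A4 A5 A6 : TM) : TM := tmul S (starn_t22 A1 A2 A3 A4 A5 A6) (starn_t23 A1 A2 A3 A4 A5 A6)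

theorem starn_h24 (h1 : Enc S E A1 a1) (h2 : Enc S E A2 a2) (h3 : Enc S E A3 a3) (h4 : Enc S E A4 a4) (h5 : Enc S E A5 a5) (h6 : Enc S E A6 a6) : Enc S E (starn_t24 A1 A2 A3 A4 A5 A6) (starn_v24 a1 a2 a3 a4 a5 a6) := enc_mul hS (starn_h22 h1 h2 h3 h4 h5 h6) (starn_h23 h1 h2 h3 h4 h5 h6)

def starn_t26 (A1 A2 A3 A4 A5 A6 : TM) : TM := tsub (starn_t7 A1 A2 A3 A4 A5 A6) (A3)

theorem starn_h26 (h1 : Enc S E A1 a1) (h2 : Enc S E A2 a2) (h3 : Enc S E A3 a3) (h4 : Enc S E A4 a4) (h5 : Enc S E A5 a5) (h6 : Enc S E A6 a6) : Enc S E (starn_t26 A1 A2 A3 A4 A5 A6) (starn_v26 a1 a2 a3 a4 a5 a6) := enc_sub (starn_h7 h1 h2 h3 h4 h5 h6) (h3)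

def starn_t27 (A1 A2 A3 A4 A5 A6 : TM) : TM := tmul S (A5) (starn_t26 A1 A2 A3 A4 A5 A6)

theorem starn_h27 (h1 : Enc S E A1 a1) (h2 : Enc S E A2 a2) (h3 : Enc S E A3 a3) (h4 : Enc S E A4 a4) (h5 : Enc S E A5 a5) (h6 : Enc S E A6 a6) : Enc S E (starn_t27 A1 A2 A3 A4 A5 A6) (starn_v27 a1 a2 a3 a4 a5 a6) := enc_mul hS (h5) (starn_h26 h1 h2 h3 h4 h5 h6)

def starn_t28 (A1 A2 A3 A4 A5 A6 : TM) : TM := tsub (starn_t27 A1 A2 A3 A4 A5 A6) (starn_t14 A1 A2 A3 A4 A5 A6)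

theorem starn_h28 (h1 : Enc S E A1 a1) (h2 : Enc S E A2 a2) (h3 : Enc S E A3 a3) (h4 : Enc S E A4 a4) (h5 : Enc S E A5 a5) (h6 : Enc S E A6 a6) : Enc S E (starn_t28 A1 A2 A3 A4 A5 A6) (starn_v28 a1 a2 a3 a4 a5 a6) := enc_sub (starn_h27 h1 h2 h3 h4 h5 h6) (starn_h14 h1 h2 h3 h4 h5 h6)

def starn_t29 (A1 A2 A3 A4 A5 A6 : TM) : TM := tmul S (A6) (starn_t12 A1 A2 A3 A4 A5 A6)

theorem starn_h29 (h1 : Enc S E A1 a1) (h2 : Enc S E A2 a2) (h3 : Enc S E A3 a3) (h4 : Enc S E A4 a4) (h5 : Enc S E A5 a5) (h6 : Enc S E A6 a6) : Enc S E (starn_t29 A1 A2 A3 A4 A5 A6) (starn_v29 a1 a2 a3 a4 a5 a6) := enc_mul hS (h6) (starn_h12 h1 h2 h3 h4 h5 h6)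

def starn_t30 (A1 A2 A3 A4 A5 A6 : TM) : TM := tmul S (starn_t29 A1 A2 A3 A4 A5 A6) (starn_t20 A1 A2 A3 A4 A5 A6)

theorem starn_h30 (h1 : Enc S E A1 a1) (h2 : Enc S E A2 a2) (h3 : Enc S E A3 a3) (h4 : Enc S E A4 a4) (h5 : Enc S E A5 a5) (h6 : Enc S E A6 a6) : Enc S E (starn_t30 A1 A2 A3 A4 A5 A6) (starn_v30 a1 a2 a3 a4 a5 a6) := enc_mul hS (starn_h29 h1 h2 h3 h4 h5 h6) (starn_h20 h1 h2 h3 h4 h5 h6)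

def starn_t31 (A1 A2 A3 A4 A5 A6 : TM) : TM := tadd (starn_t28 A1 A2 A3 A4 A5 A6) (starn_t30 A1 A2 A3 A4 A5 A6)

theorem starn_h31 (h1 : Enc S E A1 a1) (h2 : Enc S E A2 a2) (h3 : Enc S E A3 a3) (h4 : Enc S E A4 a4) (h5 : Enc S E A5 a5) (h6 : Enc S E A6 a6) : Enc S E (starn_t31 A1 A2 A3 A4 A5 A6) (starn_v31 a1 a2 a3 a4 a5 a6) := enc_add (starn_h28 h1 h2 h3 h4 h5 h6) (starn_h30 h1 h2 h3 h4 h5 h6)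

def starn_t32 (A1 A2 A3 A4 A5 A6 : TM) : TM := tmul S (starn_t31 A1 A2 A3 A4 A5 A6) (starn_t23 A1 A2 A3 A4 A5 A6)

theorem starn_h32 (h1 : Enc S E A1 a1) (h2 : Enc S E A2 a2) (h3 : Enc S E A3 a3) (h4 : Enc S E A4 a4) (h5 : Enc S E A5 a5) (h6 : Enc S E A6 a6) : Enc S E (starn_t32 A1 A2 A3 A4 A5 A6) (starn_v32 a1 a2 a3 a4 a5 a6) := enc_mul hS (starn_h31 h1 h2 h3 h4 h5 h6) (starn_h23 h1 h2 h3 h4 h5 h6)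

def starn_t33 (_A1 _A2 A3 _A4 _A5 _A6 : TM) : TM := tnat 2 (A3)

theorem starn_h33 (_h1 : Enc S E A1 a1) (_h2 : Enc S E A2 a2) (h3 : Enc S E A3 a3) (_h4 : Enc S E A4 a4) (_h5 : Enc S E A5 a5) (_h6 : Enc S E A6 a6) : Enc S E (starn_t33 A1 A2 A3 A4 A5 A6) (starn_v33 a1 a2 a3 a4 a5 a6) := enc_nat 2 (h3)

def starn_t34 (A1 A2 A3 A4 A5 A6 : TM) : TM := tsub (starn_t13 A1 A2 A3 A4 A5 A6) (starn_t33 A1 A2 A3 A4 A5 A6)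

theorem starn_h34 (h1 : Enc S E A1 a1) (h2 : Enc S E A2 a2) (h3 : Enc S E A3 a3) (h4 : Enc S E A4 a4) (h5 : Enc S E A5 a5) (h6 : Enc S E A6 a6) : Enc S E (starn_t34 A1 A2 A3 A4 A5 A6) (starn_v34 a1 a2 a3 a4 a5 a6) := enc_sub (starn_h13 h1 h2 h3 h4 h5 h6) (starn_h33 h1 h2 h3 h4 h5 h6)

def starn_t35 (A1 A2 A3 A4 A5 A6 : TM) : TM := tmul S (A4) (starn_t34 A1 A2 A3 A4 A5 A6)

theorem starn_h35 (h1 : Enc S E A1 a1) (h2 : Enc S E A2 a2) (h3 : Enc S E A3 a3) (h4 : Enc S E A4 a4) (h5 : Enc S E A5 a5) (h6 : Enc S E A6 a6) : Enc S E (starn_t35 A1 A2 A3 A4 A5 A6) (starn_v35 a1 a2 a3 a4 a5 a6) := enc_mul hS (h4) (starn_h34 h1 h2 h3 h4 h5 h6)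

def starn_t36 (A1 A2 A3 A4 A5 A6 : TM) : TM := tneg (starn_t35 A1 A2 A3 A4 A5 A6)

theorem starn_h36 (h1 : Enc S E A1 a1) (h2 : Enc S E A2 a2) (h3 : Enc S E A3 a3) (h4 : Enc S E A4 a4) (h5 : Enc S E A5 a5) (h6 : Enc S E A6 a6) : Enc S E (starn_t36 A1 A2 A3 A4 A5 A6) (starn_v36 a1 a2 a3 a4 a5 a6) := enc_neg (starn_h35 h1 h2 h3 h4 h5 h6)

def starn_t37 (A1 A2 A3 A4 A5 A6 : TM) : TM := tsub (starn_t36 A1 A2 A3 A4 A5 A6) (starn_t27 A1 A2 A3 A4 A5 A6)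

theorem starn_h37 (h1 : Enc S E A1 a1) (h2 : Enc S E A2 a2) (h3 : Enc S E A3 a3) (h4 : Enc S E A4 a4) (h5 : Enc S E A5 a5) (h6 : Enc S E A6 a6) : Enc S E (starn_t37 A1 A2 A3 A4 A5 A6) (starn_v37 a1 a2 a3 a4 a5 a6) := enc_sub (starn_h36 h1 h2 h3 h4 h5 h6) (starn_h27 h1 h2 h3 h4 h5 h6)

def starn_t38 (A1 A2 A3 A4 A5 A6 : TM) : TM := tadd (starn_t37 A1 A2 A3 A4 A5 A6) (starn_t21 A1 A2 A3 A4 A5 A6)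

theorem starn_h38 (h1 : Enc S E A1 a1) (h2 : Enc S E A2 a2) (h3 : Enc S E A3 a3) (h4 : Enc S E A4 a4) (h5 : Enc S E A5 a5) (h6 : Enc S E A6 a6) : Enc S E (starn_t38 A1 A2 A3 A4 A5 A6) (starn_v38 a1 a2 a3 a4 a5 a6) := enc_add (starn_h37 h1 h2 h3 h4 h5 h6) (starn_h21 h1 h2 h3 h4 h5 h6)

def starn_t39 (A1 A2 A3 A4 A5 A6 : TM) : TM := tmul S (starn_t38 A1 A2 A3 A4 A5 A6) (starn_t23 A1 A2 A3 A4 A5 A6)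

theorem starn_h39 (h1 : Enc S E A1 a1) (h2 : Enc S E A2 a2) (h3 : Enc S E A3 a3) (h4 : Enc S E A4 a4) (h5 : Enc S E A5 a5) (h6 : Enc S E A6 a6) : Enc S E (starn_t39 A1 A2 A3 A4 A5 A6) (starn_v39 a1 a2 a3 a4 a5 a6) := enc_mul hS (starn_h38 h1 h2 h3 h4 h5 h6) (starn_h23 h1 h2 h3 h4 h5 h6)

def starn_t40 (A1 _A2 _A3 _A4 _A5 _A6 : TM) : TM := tscale 10 19 (A1)

theorem starn_h40 (h1 : Enc S E A1 a1) (_h2 : Enc S E A2 a2) (_h3 : Enc S E A3 a3) (_h4 : Enc S E A4 a4) (_h5 : Enc S E A5 a5) (_h6 : Enc S E A6 a6) : Enc S E (starn_t40 A1 A2 A3 A4 A5 A6) (starn_v40 a1 a2 a3 a4 a5 a6) := enc_scale 10 (by norm_num) (h1)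

def starn_t41 (A1 A2 A3 A4 A5 A6 : TM) : TM := tadd (starn_t24 A1 A2 A3 A4 A5 A6) (starn_t40 A1 A2 A3 A4 A5 A6)

theorem starn_h41 (h1 : Enc S E A1 a1) (h2 : Enc S E A2 a2) (h3 : Enc S E A3 a3) (h4 : Enc S E A4 a4) (h5 : Enc S E A5 a5) (h6 : Enc S E A6 a6) : Enc S E (starn_t41 A1 A2 A3 A4 A5 A6) (starn_v41 a1 a2 a3 a4 a5 a6) := enc_add (starn_h24 h1 h2 h3 h4 h5 h6) (starn_h40 h1 h2 h3 h4 h5 h6)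

def starn_t42 (A1 A2 A3 A4 A5 A6 : TM) : TM := tadd (starn_t32 A1 A2 A3 A4 A5 A6) (starn_t40 A1 A2 A3 A4 A5 A6)

theorem starn_h42 (h1 : Enc S E A1 a1) (h2 : Enc S E A2 a2) (h3 : Enc S E A3 a3) (h4 : Enc S E A4 a4) (h5 : Enc S E A5 a5) (h6 : Enc S E A6 a6) : Enc S E (starn_t42 A1 A2 A3 A4 A5 A6) (starn_v42 a1 a2 a3 a4 a5 a6) := enc_add (starn_h32 h1 h2 h3 h4 h5 h6) (starn_h40 h1 h2 h3 h4 h5 h6)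

def starn_t43 (A1 A2 A3 A4 A5 A6 : TM) : TM := tadd (starn_t39 A1 A2 A3 A4 A5 A6) (starn_t40 A1 A2 A3 A4 A5 A6)

theorem starn_h43 (h1 : Enc S E A1 a1) (h2 : Enc S E A2 a2) (h3 : Enc S E A3 a3) (h4 : Enc S E A4 a4) (h5 : Enc S E A5 a5) (h6 : Enc S E A6 a6) : Enc S E (starn_t43 A1 A2 A3 A4 A5 A6) (starn_v43 a1 a2 a3 a4 a5 a6) := enc_add (starn_h39 h1 h2 h3 h4 h5 h6) (starn_h40 h1 h2 h3 h4 h5 h6)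

def starn_t44 (_A1 _A2 _A3 _A4 _A5 _A6 : TM) : TM := tconst (Nat.mul 2 S) 0 0

theorem starn_h44 (_h1 : Enc S E A1 a1) (_h2 : Enc S E A2 a2) (_h3 : Enc S E A3 a3) (_h4 : Enc S E A4 a4) (_h5 : Enc S E A5 a5) (_h6 : Enc S E A6 a6) : Enc S E (starn_t44 A1 A2 A3 A4 A5 A6) (starn_v44 a1 a2 a3 a4 a5 a6) := enc_nc E 2

def starn_t45 (A1 A2 A3 A4 A5 A6 : TM) : TM := tadd (starn_t44 A1 A2 A3 A4 A5 A6) (starn_t6 A1 A2 A3 A4 A5 A6)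

theorem starn_h45 (h1 : Enc S E A1 a1) (h2 : Enc S E A2 a2) (h3 : Enc S E A3 a3) (h4 : Enc S E A4 a4) (h5 : Enc S E A5 a5) (h6 : Enc S E A6 a6) : Enc S E (starn_t45 A1 A2 A3 A4 A5 A6) (starn_v45 a1 a2 a3 a4 a5 a6) := enc_add (starn_h44 h1 h2 h3 h4 h5 h6) (starn_h6 h1 h2 h3 h4 h5 h6)

def starn_t46 (A1 A2 A3 A4 A5 A6 : TM) : TM := tmul S (A1) (starn_t45 A1 A2 A3 A4 A5 A6)

theorem starn_h46 (h1 : Enc S E A1 a1) (h2 : Enc S E A2 a2) (h3 : Enc S E A3 a3) (h4 : Enc S E A4 a4) (h5 : Enc S E A5 a5) (h6 : Enc S E A6 a6) : Enc S E (starn_t46 A1 A2 A3 A4 A5 A6) (starn_v46 a1 a2 a3 a4 a5 a6) := enc_mul hS (h1) (starn_h45 h1 h2 h3 h4 h5 h6)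

def starn_t47 (A1 A2 A3 A4 A5 A6 : TM) : TM := tscale 1 4 (starn_t46 A1 A2 A3 A4 A5 A6)

theorem starn_h47 (h1 : Enc S E A1 a1) (h2 : Enc S E A2 a2) (h3 : Enc S E A3 a3) (h4 : Enc S E A4 a4) (h5 : Enc S E A5 a5) (h6 : Enc S E A6 a6) : Enc S E (starn_t47 A1 A2 A3 A4 A5 A6) (starn_v47 a1 a2 a3 a4 a5 a6) := enc_scale 1 (by norm_num) (starn_h46 h1 h2 h3 h4 h5 h6)

def starn_t48 (A1 A2 A3 A4 A5 A6 : TM) : TM := tphi S (starn_t41 A1 A2 A3 A4 A5 A6) (starn_t42 A1 A2 A3 A4 A5 A6)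

theorem starn_h48 (h1 : Enc S E A1 a1) (h2 : Enc S E A2 a2) (h3 : Enc S E A3 a3) (h4 : Enc S E A4 a4) (h5 : Enc S E A5 a5) (h6 : Enc S E A6 a6) : Enc S E (starn_t48 A1 A2 A3 A4 A5 A6) (starn_v48 a1 a2 a3 a4 a5 a6) := enc_phi hS (starn_h41 h1 h2 h3 h4 h5 h6) (starn_h42 h1 h2 h3 h4 h5 h6)

def starn_t49 (A1 A2 A3 A4 A5 A6 : TM) : TM := tmul S (A2) (starn_t48 A1 A2 A3 A4 A5 A6)

theorem starn_h49 (h1 : Enc S E A1 a1) (h2 : Enc S E A2 a2) (h3 : Enc S E A3 a3) (h4 : Enc S E A4 a4) (h5 : Enc S E A5 a5) (h6 : Enc S E A6 a6) : Enc S E (starn_t49 A1 A2 A3 A4 A5 A6) (starn_v49 a1 a2 a3 a4 a5 a6) := enc_mul hS (h2) (starn_h48 h1 h2 h3 h4 h5 h6)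

def starn_t50 (A1 A2 A3 A4 A5 A6 : TM) : TM := tphi S (starn_t42 A1 A2 A3 A4 A5 A6) (starn_t43 A1 A2 A3 A4 A5 A6)

theorem starn_h50 (h1 : Enc S E A1 a1) (h2 : Enc S E A2 a2) (h3 : Enc S E A3 a3) (h4 : Enc S E A4 a4) (h5 : Enc S E A5 a5) (h6 : Enc S E A6 a6) : Enc S E (starn_t50 A1 A2 A3 A4 A5 A6) (starn_v50 a1 a2 a3 a4 a5 a6) := enc_phi hS (starn_h42 h1 h2 h3 h4 h5 h6) (starn_h43 h1 h2 h3 h4 h5 h6)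

def starn_t51 (A1 A2 A3 A4 A5 A6 : TM) : TM := tmul S (A3) (starn_t50 A1 A2 A3 A4 A5 A6)

theorem starn_h51 (h1 : Enc S E A1 a1) (h2 : Enc S E A2 a2) (h3 : Enc S E A3 a3) (h4 : Enc S E A4 a4) (h5 : Enc S E A5 a5) (h6 : Enc S E A6 a6) : Enc S E (starn_t51 A1 A2 A3 A4 A5 A6) (starn_v51 a1 a2 a3 a4 a5 a6) := enc_mul hS (h3) (starn_h50 h1 h2 h3 h4 h5 h6)

def starn_t52 (A1 A2 A3 A4 A5 A6 : TM) : TM := tadd (starn_t49 A1 A2 A3 A4 A5 A6) (starn_t51 A1 A2 A3 A4 A5 A6)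

theorem starn_h52 (h1 : Enc S E A1 a1) (h2 : Enc S E A2 a2) (h3 : Enc S E A3 a3) (h4 : Enc S E A4 a4) (h5 : Enc S E A5 a5) (h6 : Enc S E A6 a6) : Enc S E (starn_t52 A1 A2 A3 A4 A5 A6) (starn_v52 a1 a2 a3 a4 a5 a6) := enc_add (starn_h49 h1 h2 h3 h4 h5 h6) (starn_h51 h1 h2 h3 h4 h5 h6)

def starn_t53 (A1 A2 A3 A4 A5 A6 : TM) : TM := tphi S (starn_t43 A1 A2 A3 A4 A5 A6) (starn_t41 A1 A2 A3 A4 A5 A6)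

theorem starn_h53 (h1 : Enc S E A1 a1) (h2 : Enc S E A2 a2) (h3 : Enc S E A3 a3) (h4 : Enc S E A4 a4) (h5 : Enc S E A5 a5) (h6 : Enc S E A6 a6) : Enc S E (starn_t53 A1 A2 A3 A4 A5 A6) (starn_v53 a1 a2 a3 a4 a5 a6) := enc_phi hS (starn_h43 h1 h2 h3 h4 h5 h6) (starn_h41 h1 h2 h3 h4 h5 h6)

def starn_t54 (A1 A2 A3 A4 A5 A6 : TM) : TM := tmul S (starn_t20 A1 A2 A3 A4 A5 A6) (starn_t53 A1 A2 A3 A4 A5 A6)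

theorem starn_h54 (h1 : Enc S E A1 a1) (h2 : Enc S E A2 a2) (h3 : Enc S E A3 a3) (h4 : Enc S E A4 a4) (h5 : Enc S E A5 a5) (h6 : Enc S E A6 a6) : Enc S E (starn_t54 A1 A2 A3 A4 A5 A6) (starn_v54 a1 a2 a3 a4 a5 a6) := enc_mul hS (starn_h20 h1 h2 h3 h4 h5 h6) (starn_h53 h1 h2 h3 h4 h5 h6)

def starn_t55 (A1 A2 A3 A4 A5 A6 : TM) : TM := tadd (starn_t52 A1 A2 A3 A4 A5 A6) (starn_t54 A1 A2 A3 A4 A5 A6)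

theorem starn_h55 (h1 : Enc S E A1 a1) (h2 : Enc S E A2 a2) (h3 : Enc S E A3 a3) (h4 : Enc S E A4 a4) (h5 : Enc S E A5 a5) (h6 : Enc S E A6 a6) : Enc S E (starn_t55 A1 A2 A3 A4 A5 A6) (starn_v55 a1 a2 a3 a4 a5 a6) := enc_add (starn_h52 h1 h2 h3 h4 h5 h6) (starn_h54 h1 h2 h3 h4 h5 h6)

def starn_t56 (A1 A2 A3 A4 A5 A6 : TM) : TM := tscale 19 20 (starn_t55 A1 A2 A3 A4 A5 A6)

theorem starn_h56 (h1 : Enc S E A1 a1) (h2 : Enc S E A2 a2) (h3 : Enc S E A3 a3) (h4 : Enc S E A4 a4) (h5 : Enc S E A5 a5) (h6 : Enc S E A6 a6) : Enc S E (starn_t56 A1 A2 A3 A4 A5 A6) (starn_v56 a1 a2 a3 a4 a5 a6) := enc_scale 19 (by norm_num) (starn_h55 h1 h2 h3 h4 h5 h6)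

def starn_t57 (A1 A2 A3 A4 A5 A6 : TM) : TM := tsub (starn_t47 A1 A2 A3 A4 A5 A6) (starn_t56 A1 A2 A3 A4 A5 A6)

theorem starn_h57 (h1 : Enc S E A1 a1) (h2 : Enc S E A2 a2) (h3 : Enc S E A3 a3) (h4 : Enc S E A4 a4) (h5 : Enc S E A5 a5) (h6 : Enc S E A6 a6) : Enc S E (starn_t57 A1 A2 A3 A4 A5 A6) (starn_v57 a1 a2 a3 a4 a5 a6) := enc_sub (starn_h47 h1 h2 h3 h4 h5 h6) (starn_h56 h1 h2 h3 h4 h5 h6)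

def starn_t (A1 A2 A3 A4 A5 A6 : TM) : TM := starn_t57 A1 A2 A3 A4 A5 A6

theorem starn_enc (h1 : Enc S E A1 a1) (h2 : Enc S E A2 a2) (h3 : Enc S E A3 a3) (h4 : Enc S E A4 a4) (h5 : Enc S E A5 a5) (h6 : Enc S E A6 a6) : Enc S E (starn_t A1 A2 A3 A4 A5 A6) (starn_v a1 a2 a3 a4 a5 a6) := starn_h57 h1 h2 h3 h4 h5 h6

def starw_t7 (_A1 _A2 A3 A4 _A5 _A6 _A7 : TM) : TM := tadd (A3) (A4)

theorem starw_h7 (_h1 : Enc S E A1 a1) (_h2 : Enc S E A2 a2) (h3 : Enc S E A3 a3) (h4 : Enc S E A4 a4) (_h5 : Enc S E A5 a5) (_h6 : Enc S E A6 a6) (_h7 : Enc S E A7 a7) : Enc S E (starw_t7 A1 A2 A3 A4 A5 A6 A7) (starw_v7 a1 a2 a3 a4 a5 a6 a7) := enc_add (h3) (h4)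

def starw_t8 (A1 A2 A3 A4 A5 A6 A7 : TM) : TM := tmul S (A5) (starw_t7 A1 A2 A3 A4 A5 A6 A7)

theorem starw_h8 (h1 : Enc S E A1 a1) (h2 : Enc S E A2 a2) (h3 : Enc S E A3 a3) (h4 : Enc S E A4 a4) (h5 : Enc S E A5 a5) (h6 : Enc S E A6 a6) (h7 : Enc S E A7 a7) : Enc S E (starw_t8 A1 A2 A3 A4 A5 A6 A7) (starw_v8 a1 a2 a3 a4 a5 a6 a7) := enc_mul hS (h5) (starw_h7 h1 h2 h3 h4 h5 h6 h7)

def starw_t9 (_A1 A2 A3 _A4 _A5 _A6 _A7 : TM) : TM := tadd (A2) (A3)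

theorem starw_h9 (_h1 : Enc S E A1 a1) (h2 : Enc S E A2 a2) (h3 : Enc S E A3 a3) (_h4 : Enc S E A4 a4) (_h5 : Enc S E A5 a5) (_h6 : Enc S E A6 a6) (_h7 : Enc S E A7 a7) : Enc S E (starw_t9 A1 A2 A3 A4 A5 A6 A7) (starw_v9 a1 a2 a3 a4 a5 a6 a7) := enc_add (h2) (h3)

def starw_t10 (A1 A2 A3 A4 A5 A6 A7 : TM) : TM := tmul S (A7) (starw_t9 A1 A2 A3 A4 A5 A6 A7)

theorem starw_h10 (h1 : Enc S E A1 a1) (h2 : Enc S E A2 a2) (h3 : Enc S E A3 a3) (h4 : Enc S E A4 a4) (h5 : Enc S E A5 a5) (h6 : Enc S E A6 a6) (h7 : Enc S E A7 a7) : Enc S E (starw_t10 A1 A2 A3 A4 A5 A6 A7) (starw_v10 a1 a2 a3 a4 a5 a6 a7) := enc_mul hS (h7) (starw_h9 h1 h2 h3 h4 h5 h6 h7)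

def starw_t11 (A1 A2 A3 A4 A5 A6 A7 : TM) : TM := tsub (starw_t8 A1 A2 A3 A4 A5 A6 A7) (starw_t10 A1 A2 A3 A4 A5 A6 A7)

theorem starw_h11 (h1 : Enc S E A1 a1) (h2 : Enc S E A2 a2) (h3 : Enc S E A3 a3) (h4 : Enc S E A4 a4) (h5 : Enc S E A5 a5) (h6 : Enc S E A6 a6) (h7 : Enc S E A7 a7) : Enc S E (starw_t11 A1 A2 A3 A4 A5 A6 A7) (starw_v11 a1 a2 a3 a4 a5 a6 a7) := enc_sub (starw_h8 h1 h2 h3 h4 h5 h6 h7) (starw_h10 h1 h2 h3 h4 h5 h6 h7)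

def starw_t12 (_A1 A2 _A3 A4 _A5 _A6 _A7 : TM) : TM := tsub (A4) (A2)

theorem starw_h12 (_h1 : Enc S E A1 a1) (h2 : Enc S E A2 a2) (_h3 : Enc S E A3 a3) (h4 : Enc S E A4 a4) (_h5 : Enc S E A5 a5) (_h6 : Enc S E A6 a6) (_h7 : Enc S E A7 a7) : Enc S E (starw_t12 A1 A2 A3 A4 A5 A6 A7) (starw_v12 a1 a2 a3 a4 a5 a6 a7) := enc_sub (h4) (h2)

def starw_t13 (A1 A2 A3 A4 A5 A6 A7 : TM) : TM := tmul S (A6) (starw_t12 A1 A2 A3 A4 A5 A6 A7)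

theorem starw_h13 (h1 : Enc S E A1 a1) (h2 : Enc S E A2 a2) (h3 : Enc S E A3 a3) (h4 : Enc S E A4 a4) (h5 : Enc S E A5 a5) (h6 : Enc S E A6 a6) (h7 : Enc S E A7 a7) : Enc S E (starw_t13 A1 A2 A3 A4 A5 A6 A7) (starw_v13 a1 a2 a3 a4 a5 a6 a7) := enc_mul hS (h6) (starw_h12 h1 h2 h3 h4 h5 h6 h7)

def starw_t14 (A1 A2 A3 A4 A5 A6 A7 : TM) : TM := tadd (starw_t11 A1 A2 A3 A4 A5 A6 A7) (starw_t13 A1 A2 A3 A4 A5 A6 A7)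

theorem starw_h14 (h1 : Enc S E A1 a1) (h2 : Enc S E A2 a2) (h3 : Enc S E A3 a3) (h4 : Enc S E A4 a4) (h5 : Enc S E A5 a5) (h6 : Enc S E A6 a6) (h7 : Enc S E A7 a7) : Enc S E (starw_t14 A1 A2 A3 A4 A5 A6 A7) (starw_v14 a1 a2 a3 a4 a5 a6 a7) := enc_add (starw_h11 h1 h2 h3 h4 h5 h6 h7) (starw_h13 h1 h2 h3 h4 h5 h6 h7)

def starw_t15 (_A1 _A2 _A3 _A4 _A5 _A6 _A7 : TM) : TM := tconst 1859775393 0 1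

theorem starw_h15 (_h1 : Enc S E A1 a1) (_h2 : Enc S E A2 a2) (_h3 : Enc S E A3 a3) (_h4 : Enc S E A4 a4) (_h5 : Enc S E A5 a5) (_h6 : Enc S E A6 a6) (_h7 : Enc S E A7 a7) : Enc S E (starw_t15 A1 A2 A3 A4 A5 A6 A7) (starw_v15 a1 a2 a3 a4 a5 a6 a7) := enc_sqrtn E (by decide) (by decide)

def starw_t16 (A1 A2 A3 A4 A5 A6 A7 : TM) : TM := tinv S (starw_t15 A1 A2 A3 A4 A5 A6 A7)

theorem starw_h16 (h1 : Enc S E A1 a1) (h2 : Enc S E A2 a2) (h3 : Enc S E A3 a3) (h4 : Enc S E A4 a4) (h5 : Enc S E A5 a5) (h6 : Enc S E A6 a6) (h7 : Enc S E A7 a7) : Enc S E (starw_t16 A1 A2 A3 A4 A5 A6 A7) (starw_v16 a1 a2 a3 a4 a5 a6 a7) := enc_inv hS (starw_h15 h1 h2 h3 h4 h5 h6 h7)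

def starw_t17 (A1 A2 A3 A4 A5 A6 A7 : TM) : TM := tmul S (starw_t14 A1 A2 A3 A4 A5 A6 A7) (starw_t16 A1 A2 A3 A4 A5 A6 A7)

theorem starw_h17 (h1 : Enc S E A1 a1) (h2 : Enc S E A2 a2) (h3 : Enc S E A3 a3) (h4 : Enc S E A4 a4) (h5 : Enc S E A5 a5) (h6 : Enc S E A6 a6) (h7 : Enc S E A7 a7) : Enc S E (starw_t17 A1 A2 A3 A4 A5 A6 A7) (starw_v17 a1 a2 a3 a4 a5 a6 a7) := enc_mul hS (starw_h14 h1 h2 h3 h4 h5 h6 h7) (starw_h16 h1 h2 h3 h4 h5 h6 h7)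

def starw_t18 (_A1 A2 _A3 A4 _A5 _A6 _A7 : TM) : TM := tadd (A4) (A2)

theorem starw_h18 (_h1 : Enc S E A1 a1) (h2 : Enc S E A2 a2) (_h3 : Enc S E A3 a3) (h4 : Enc S E A4 a4) (_h5 : Enc S E A5 a5) (_h6 : Enc S E A6 a6) (_h7 : Enc S E A7 a7) : Enc S E (starw_t18 A1 A2 A3 A4 A5 A6 A7) (starw_v18 a1 a2 a3 a4 a5 a6 a7) := enc_add (h4) (h2)

def starw_t19 (A1 A2 A3 A4 A5 A6 A7 : TM) : TM := tmul S (A6) (starw_t18 A1 A2 A3 A4 A5 A6 A7)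

theorem starw_h19 (h1 : Enc S E A1 a1) (h2 : Enc S E A2 a2) (h3 : Enc S E A3 a3) (h4 : Enc S E A4 a4) (h5 : Enc S E A5 a5) (h6 : Enc S E A6 a6) (h7 : Enc S E A7 a7) : Enc S E (starw_t19 A1 A2 A3 A4 A5 A6 A7) (starw_v19 a1 a2 a3 a4 a5 a6 a7) := enc_mul hS (h6) (starw_h18 h1 h2 h3 h4 h5 h6 h7)

def starw_t20 (A1 A2 A3 A4 A5 A6 A7 : TM) : TM := tsub (starw_t19 A1 A2 A3 A4 A5 A6 A7) (starw_t8 A1 A2 A3 A4 A5 A6 A7)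

theorem starw_h20 (h1 : Enc S E A1 a1) (h2 : Enc S E A2 a2) (h3 : Enc S E A3 a3) (h4 : Enc S E A4 a4) (h5 : Enc S E A5 a5) (h6 : Enc S E A6 a6) (h7 : Enc S E A7 a7) : Enc S E (starw_t20 A1 A2 A3 A4 A5 A6 A7) (starw_v20 a1 a2 a3 a4 a5 a6 a7) := enc_sub (starw_h19 h1 h2 h3 h4 h5 h6 h7) (starw_h8 h1 h2 h3 h4 h5 h6 h7)

def starw_t21 (_A1 A2 A3 _A4 _A5 _A6 _A7 : TM) : TM := tsub (A2) (A3)

theorem starw_h21 (_h1 : Enc S E A1 a1) (h2 : Enc S E A2 a2) (h3 : Enc S E A3 a3) (_h4 : Enc S E A4 a4) (_h5 : Enc S E A5 a5) (_h6 : Enc S E A6 a6) (_h7 : Enc S E A7 a7) : Enc S E (starw_t21 A1 A2 A3 A4 A5 A6 A7) (starw_v21 a1 a2 a3 a4 a5 a6 a7) := enc_sub (h2) (h3)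

def starw_t22 (A1 A2 A3 A4 A5 A6 A7 : TM) : TM := tmul S (A7) (starw_t21 A1 A2 A3 A4 A5 A6 A7)

theorem starw_h22 (h1 : Enc S E A1 a1) (h2 : Enc S E A2 a2) (h3 : Enc S E A3 a3) (h4 : Enc S E A4 a4) (h5 : Enc S E A5 a5) (h6 : Enc S E A6 a6) (h7 : Enc S E A7 a7) : Enc S E (starw_t22 A1 A2 A3 A4 A5 A6 A7) (starw_v22 a1 a2 a3 a4 a5 a6 a7) := enc_mul hS (h7) (starw_h21 h1 h2 h3 h4 h5 h6 h7)

def starw_t23 (A1 A2 A3 A4 A5 A6 A7 : TM) : TM := tadd (starw_t20 A1 A2 A3 A4 A5 A6 A7) (starw_t22 A1 A2 A3 A4 A5 A6 A7)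

theorem starw_h23 (h1 : Enc S E A1 a1) (h2 : Enc S E A2 a2) (h3 : Enc S E A3 a3) (h4 : Enc S E A4 a4) (h5 : Enc S E A5 a5) (h6 : Enc S E A6 a6) (h7 : Enc S E A7 a7) : Enc S E (starw_t23 A1 A2 A3 A4 A5 A6 A7) (starw_v23 a1 a2 a3 a4 a5 a6 a7) := enc_add (starw_h20 h1 h2 h3 h4 h5 h6 h7) (starw_h22 h1 h2 h3 h4 h5 h6 h7)

def starw_t24 (A1 A2 A3 A4 A5 A6 A7 : TM) : TM := tmul S (starw_t23 A1 A2 A3 A4 A5 A6 A7) (starw_t16 A1 A2 A3 A4 A5 A6 A7)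

theorem starw_h24 (h1 : Enc S E A1 a1) (h2 : Enc S E A2 a2) (h3 : Enc S E A3 a3) (h4 : Enc S E A4 a4) (h5 : Enc S E A5 a5) (h6 : Enc S E A6 a6) (h7 : Enc S E A7 a7) : Enc S E (starw_t24 A1 A2 A3 A4 A5 A6 A7) (starw_v24 a1 a2 a3 a4 a5 a6 a7) := enc_mul hS (starw_h23 h1 h2 h3 h4 h5 h6 h7) (starw_h16 h1 h2 h3 h4 h5 h6 h7)

def starw_t25 (A1 A2 A3 A4 A5 A6 A7 : TM) : TM := tsub (starw_t10 A1 A2 A3 A4 A5 A6 A7) (starw_t19 A1 A2 A3 A4 A5 A6 A7)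

theorem starw_h25 (h1 : Enc S E A1 a1) (h2 : Enc S E A2 a2) (h3 : Enc S E A3 a3) (h4 : Enc S E A4 a4) (h5 : Enc S E A5 a5) (h6 : Enc S E A6 a6) (h7 : Enc S E A7 a7) : Enc S E (starw_t25 A1 A2 A3 A4 A5 A6 A7) (starw_v25 a1 a2 a3 a4 a5 a6 a7) := enc_sub (starw_h10 h1 h2 h3 h4 h5 h6 h7) (starw_h19 h1 h2 h3 h4 h5 h6 h7)

def starw_t26 (_A1 _A2 A3 A4 _A5 _A6 _A7 : TM) : TM := tsub (A3) (A4)

theorem starw_h26 (_h1 : Enc S E A1 a1) (_h2 : Enc S E A2 a2) (h3 : Enc S E A3 a3) (h4 : Enc S E A4 a4) (_h5 : Enc S E A5 a5) (_h6 : Enc S E A6 a6) (_h7 : Enc S E A7 a7) : Enc S E (starw_t26 A1 A2 A3 A4 A5 A6 A7) (starw_v26 a1 a2 a3 a4 a5 a6 a7) := enc_sub (h3) (h4)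

def starw_t27 (A1 A2 A3 A4 A5 A6 A7 : TM) : TM := tmul S (A5) (starw_t26 A1 A2 A3 A4 A5 A6 A7)

theorem starw_h27 (h1 : Enc S E A1 a1) (h2 : Enc S E A2 a2) (h3 : Enc S E A3 a3) (h4 : Enc S E A4 a4) (h5 : Enc S E A5 a5) (h6 : Enc S E A6 a6) (h7 : Enc S E A7 a7) : Enc S E (starw_t27 A1 A2 A3 A4 A5 A6 A7) (starw_v27 a1 a2 a3 a4 a5 a6 a7) := enc_mul hS (h5) (starw_h26 h1 h2 h3 h4 h5 h6 h7)

def starw_t28 (A1 A2 A3 A4 A5 A6 A7 : TM) : TM := tadd (starw_t25 A1 A2 A3 A4 A5 A6 A7) (starw_t27 A1 A2 A3 A4 A5 A6 A7)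

theorem starw_h28 (h1 : Enc S E A1 a1) (h2 : Enc S E A2 a2) (h3 : Enc S E A3 a3) (h4 : Enc S E A4 a4) (h5 : Enc S E A5 a5) (h6 : Enc S E A6 a6) (h7 : Enc S E A7 a7) : Enc S E (starw_t28 A1 A2 A3 A4 A5 A6 A7) (starw_v28 a1 a2 a3 a4 a5 a6 a7) := enc_add (starw_h25 h1 h2 h3 h4 h5 h6 h7) (starw_h27 h1 h2 h3 h4 h5 h6 h7)

def starw_t29 (A1 A2 A3 A4 A5 A6 A7 : TM) : TM := tmul S (starw_t28 A1 A2 A3 A4 A5 A6 A7) (starw_t16 A1 A2 A3 A4 A5 A6 A7)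

theorem starw_h29 (h1 : Enc S E A1 a1) (h2 : Enc S E A2 a2) (h3 : Enc S E A3 a3) (h4 : Enc S E A4 a4) (h5 : Enc S E A5 a5) (h6 : Enc S E A6 a6) (h7 : Enc S E A7 a7) : Enc S E (starw_t29 A1 A2 A3 A4 A5 A6 A7) (starw_v29 a1 a2 a3 a4 a5 a6 a7) := enc_mul hS (starw_h28 h1 h2 h3 h4 h5 h6 h7) (starw_h16 h1 h2 h3 h4 h5 h6 h7)

def starw_t30 (A1 _A2 _A3 _A4 _A5 _A6 _A7 : TM) : TM := tscale 10 19 (A1)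

theorem starw_h30 (h1 : Enc S E A1 a1) (_h2 : Enc S E A2 a2) (_h3 : Enc S E A3 a3) (_h4 : Enc S E A4 a4) (_h5 : Enc S E A5 a5) (_h6 : Enc S E A6 a6) (_h7 : Enc S E A7 a7) : Enc S E (starw_t30 A1 A2 A3 A4 A5 A6 A7) (starw_v30 a1 a2 a3 a4 a5 a6 a7) := enc_scale 10 (by norm_num) (h1)

def starw_t31 (A1 A2 A3 A4 A5 A6 A7 : TM) : TM := tadd (starw_t17 A1 A2 A3 A4 A5 A6 A7) (starw_t30 A1 A2 A3 A4 A5 A6 A7)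

theorem starw_h31 (h1 : Enc S E A1 a1) (h2 : Enc S E A2 a2) (h3 : Enc S E A3 a3) (h4 : Enc S E A4 a4) (h5 : Enc S E A5 a5) (h6 : Enc S E A6 a6) (h7 : Enc S E A7 a7) : Enc S E (starw_t31 A1 A2 A3 A4 A5 A6 A7) (starw_v31 a1 a2 a3 a4 a5 a6 a7) := enc_add (starw_h17 h1 h2 h3 h4 h5 h6 h7) (starw_h30 h1 h2 h3 h4 h5 h6 h7)

def starw_t32 (A1 A2 A3 A4 A5 A6 A7 : TM) : TM := tadd (starw_t24 A1 A2 A3 A4 A5 A6 A7) (starw_t30 A1 A2 A3 A4 A5 A6 A7)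

theorem starw_h32 (h1 : Enc S E A1 a1) (h2 : Enc S E A2 a2) (h3 : Enc S E A3 a3) (h4 : Enc S E A4 a4) (h5 : Enc S E A5 a5) (h6 : Enc S E A6 a6) (h7 : Enc S E A7 a7) : Enc S E (starw_t32 A1 A2 A3 A4 A5 A6 A7) (starw_v32 a1 a2 a3 a4 a5 a6 a7) := enc_add (starw_h24 h1 h2 h3 h4 h5 h6 h7) (starw_h30 h1 h2 h3 h4 h5 h6 h7)

def starw_t33 (A1 A2 A3 A4 A5 A6 A7 : TM) : TM := tadd (starw_t29 A1 A2 A3 A4 A5 A6 A7) (starw_t30 A1 A2 A3 A4 A5 A6 A7)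

theorem starw_h33 (h1 : Enc S E A1 a1) (h2 : Enc S E A2 a2) (h3 : Enc S E A3 a3) (h4 : Enc S E A4 a4) (h5 : Enc S E A5 a5) (h6 : Enc S E A6 a6) (h7 : Enc S E A7 a7) : Enc S E (starw_t33 A1 A2 A3 A4 A5 A6 A7) (starw_v33 a1 a2 a3 a4 a5 a6 a7) := enc_add (starw_h29 h1 h2 h3 h4 h5 h6 h7) (starw_h30 h1 h2 h3 h4 h5 h6 h7)

def starw_t34 (_A1 _A2 _A3 _A4 _A5 _A6 _A7 : TM) : TM := tconst (Nat.mul 2 S) 0 0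

theorem starw_h34 (_h1 : Enc S E A1 a1) (_h2 : Enc S E A2 a2) (_h3 : Enc S E A3 a3) (_h4 : Enc S E A4 a4) (_h5 : Enc S E A5 a5) (_h6 : Enc S E A6 a6) (_h7 : Enc S E A7 a7) : Enc S E (starw_t34 A1 A2 A3 A4 A5 A6 A7) (starw_v34 a1 a2 a3 a4 a5 a6 a7) := enc_nc E 2

def starw_t35 (A1 A2 A3 A4 A5 A6 A7 : TM) : TM := tadd (starw_t34 A1 A2 A3 A4 A5 A6 A7) (starw_t15 A1 A2 A3 A4 A5 A6 A7)

theorem starw_h35 (h1 : Enc S E A1 a1) (h2 : Enc S E A2 a2) (h3 : Enc S E A3 a3) (h4 : Enc S E A4 a4) (h5 : Enc S E A5 a5) (h6 : Enc S E A6 a6) (h7 : Enc S E A7 a7) : Enc S E (starw_t35 A1 A2 A3 A4 A5 A6 A7) (starw_v35 a1 a2 a3 a4 a5 a6 a7) := enc_add (starw_h34 h1 h2 h3 h4 h5 h6 h7) (starw_h15 h1 h2 h3 h4 h5 h6 h7)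

def starw_t36 (A1 A2 A3 A4 A5 A6 A7 : TM) : TM := tmul S (A1) (starw_t35 A1 A2 A3 A4 A5 A6 A7)

theorem starw_h36 (h1 : Enc S E A1 a1) (h2 : Enc S E A2 a2) (h3 : Enc S E A3 a3) (h4 : Enc S E A4 a4) (h5 : Enc S E A5 a5) (h6 : Enc S E A6 a6) (h7 : Enc S E A7 a7) : Enc S E (starw_t36 A1 A2 A3 A4 A5 A6 A7) (starw_v36 a1 a2 a3 a4 a5 a6 a7) := enc_mul hS (h1) (starw_h35 h1 h2 h3 h4 h5 h6 h7)

def starw_t37 (A1 A2 A3 A4 A5 A6 A7 : TM) : TM := tscale 1 4 (starw_t36 A1 A2 A3 A4 A5 A6 A7)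

theorem starw_h37 (h1 : Enc S E A1 a1) (h2 : Enc S E A2 a2) (h3 : Enc S E A3 a3) (h4 : Enc S E A4 a4) (h5 : Enc S E A5 a5) (h6 : Enc S E A6 a6) (h7 : Enc S E A7 a7) : Enc S E (starw_t37 A1 A2 A3 A4 A5 A6 A7) (starw_v37 a1 a2 a3 a4 a5 a6 a7) := enc_scale 1 (by norm_num) (starw_h36 h1 h2 h3 h4 h5 h6 h7)

def starw_t38 (A1 A2 A3 A4 A5 A6 A7 : TM) : TM := tphi S (starw_t31 A1 A2 A3 A4 A5 A6 A7) (starw_t32 A1 A2 A3 A4 A5 A6 A7)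

theorem starw_h38 (h1 : Enc S E A1 a1) (h2 : Enc S E A2 a2) (h3 : Enc S E A3 a3) (h4 : Enc S E A4 a4) (h5 : Enc S E A5 a5) (h6 : Enc S E A6 a6) (h7 : Enc S E A7 a7) : Enc S E (starw_t38 A1 A2 A3 A4 A5 A6 A7) (starw_v38 a1 a2 a3 a4 a5 a6 a7) := enc_phi hS (starw_h31 h1 h2 h3 h4 h5 h6 h7) (starw_h32 h1 h2 h3 h4 h5 h6 h7)

def starw_t39 (A1 A2 A3 A4 A5 A6 A7 : TM) : TM := tmul S (A2) (starw_t38 A1 A2 A3 A4 A5 A6 A7)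

theorem starw_h39 (h1 : Enc S E A1 a1) (h2 : Enc S E A2 a2) (h3 : Enc S E A3 a3) (h4 : Enc S E A4 a4) (h5 : Enc S E A5 a5) (h6 : Enc S E A6 a6) (h7 : Enc S E A7 a7) : Enc S E (starw_t39 A1 A2 A3 A4 A5 A6 A7) (starw_v39 a1 a2 a3 a4 a5 a6 a7) := enc_mul hS (h2) (starw_h38 h1 h2 h3 h4 h5 h6 h7)

def starw_t40 (A1 A2 A3 A4 A5 A6 A7 : TM) : TM := tphi S (starw_t32 A1 A2 A3 A4 A5 A6 A7) (starw_t33 A1 A2 A3 A4 A5 A6 A7)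

theorem starw_h40 (h1 : Enc S E A1 a1) (h2 : Enc S E A2 a2) (h3 : Enc S E A3 a3) (h4 : Enc S E A4 a4) (h5 : Enc S E A5 a5) (h6 : Enc S E A6 a6) (h7 : Enc S E A7 a7) : Enc S E (starw_t40 A1 A2 A3 A4 A5 A6 A7) (starw_v40 a1 a2 a3 a4 a5 a6 a7) := enc_phi hS (starw_h32 h1 h2 h3 h4 h5 h6 h7) (starw_h33 h1 h2 h3 h4 h5 h6 h7)

def starw_t41 (A1 A2 A3 A4 A5 A6 A7 : TM) : TM := tmul S (A3) (starw_t40 A1 A2 A3 A4 A5 A6 A7)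

theorem starw_h41 (h1 : Enc S E A1 a1) (h2 : Enc S E A2 a2) (h3 : Enc S E A3 a3) (h4 : Enc S E A4 a4) (h5 : Enc S E A5 a5) (h6 : Enc S E A6 a6) (h7 : Enc S E A7 a7) : Enc S E (starw_t41 A1 A2 A3 A4 A5 A6 A7) (starw_v41 a1 a2 a3 a4 a5 a6 a7) := enc_mul hS (h3) (starw_h40 h1 h2 h3 h4 h5 h6 h7)

def starw_t42 (A1 A2 A3 A4 A5 A6 A7 : TM) : TM := tadd (starw_t39 A1 A2 A3 A4 A5 A6 A7) (starw_t41 A1 A2 A3 A4 A5 A6 A7)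

theorem starw_h42 (h1 : Enc S E A1 a1) (h2 : Enc S E A2 a2) (h3 : Enc S E A3 a3) (h4 : Enc S E A4 a4) (h5 : Enc S E A5 a5) (h6 : Enc S E A6 a6) (h7 : Enc S E A7 a7) : Enc S E (starw_t42 A1 A2 A3 A4 A5 A6 A7) (starw_v42 a1 a2 a3 a4 a5 a6 a7) := enc_add (starw_h39 h1 h2 h3 h4 h5 h6 h7) (starw_h41 h1 h2 h3 h4 h5 h6 h7)

def starw_t43 (A1 A2 A3 A4 A5 A6 A7 : TM) : TM := tphi S (starw_t33 A1 A2 A3 A4 A5 A6 A7) (starw_t31 A1 A2 A3 A4 A5 A6 A7)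

theorem starw_h43 (h1 : Enc S E A1 a1) (h2 : Enc S E A2 a2) (h3 : Enc S E A3 a3) (h4 : Enc S E A4 a4) (h5 : Enc S E A5 a5) (h6 : Enc S E A6 a6) (h7 : Enc S E A7 a7) : Enc S E (starw_t43 A1 A2 A3 A4 A5 A6 A7) (starw_v43 a1 a2 a3 a4 a5 a6 a7) := enc_phi hS (starw_h33 h1 h2 h3 h4 h5 h6 h7) (starw_h31 h1 h2 h3 h4 h5 h6 h7)

def starw_t44 (A1 A2 A3 A4 A5 A6 A7 : TM) : TM := tmul S (A4) (starw_t43 A1 A2 A3 A4 A5 A6 A7)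

theorem starw_h44 (h1 : Enc S E A1 a1) (h2 : Enc S E A2 a2) (h3 : Enc S E A3 a3) (h4 : Enc S E A4 a4) (h5 : Enc S E A5 a5) (h6 : Enc S E A6 a6) (h7 : Enc S E A7 a7) : Enc S E (starw_t44 A1 A2 A3 A4 A5 A6 A7) (starw_v44 a1 a2 a3 a4 a5 a6 a7) := enc_mul hS (h4) (starw_h43 h1 h2 h3 h4 h5 h6 h7)

def starw_t45 (A1 A2 A3 A4 A5 A6 A7 : TM) : TM := tadd (starw_t42 A1 A2 A3 A4 A5 A6 A7) (starw_t44 A1 A2 A3 A4 A5 A6 A7)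

theorem starw_h45 (h1 : Enc S E A1 a1) (h2 : Enc S E A2 a2) (h3 : Enc S E A3 a3) (h4 : Enc S E A4 a4) (h5 : Enc S E A5 a5) (h6 : Enc S E A6 a6) (h7 : Enc S E A7 a7) : Enc S E (starw_t45 A1 A2 A3 A4 A5 A6 A7) (starw_v45 a1 a2 a3 a4 a5 a6 a7) := enc_add (starw_h42 h1 h2 h3 h4 h5 h6 h7) (starw_h44 h1 h2 h3 h4 h5 h6 h7)

def starw_t46 (A1 A2 A3 A4 A5 A6 A7 : TM) : TM := tscale 19 20 (starw_t45 A1 A2 A3 A4 A5 A6 A7)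

theorem starw_h46 (h1 : Enc S E A1 a1) (h2 : Enc S E A2 a2) (h3 : Enc S E A3 a3) (h4 : Enc S E A4 a4) (h5 : Enc S E A5 a5) (h6 : Enc S E A6 a6) (h7 : Enc S E A7 a7) : Enc S E (starw_t46 A1 A2 A3 A4 A5 A6 A7) (starw_v46 a1 a2 a3 a4 a5 a6 a7) := enc_scale 19 (by norm_num) (starw_h45 h1 h2 h3 h4 h5 h6 h7)

def starw_t47 (A1 A2 A3 A4 A5 A6 A7 : TM) : TM := tsub (starw_t37 A1 A2 A3 A4 A5 A6 A7) (starw_t46 A1 A2 A3 A4 A5 A6 A7)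

theorem starw_h47 (h1 : Enc S E A1 a1) (h2 : Enc S E A2 a2) (h3 : Enc S E A3 a3) (h4 : Enc S E A4 a4) (h5 : Enc S E A5 a5) (h6 : Enc S E A6 a6) (h7 : Enc S E A7 a7) : Enc S E (starw_t47 A1 A2 A3 A4 A5 A6 A7) (starw_v47 a1 a2 a3 a4 a5 a6 a7) := enc_sub (starw_h37 h1 h2 h3 h4 h5 h6 h7) (starw_h46 h1 h2 h3 h4 h5 h6 h7)

def starw_t (A1 A2 A3 A4 A5 A6 A7 : TM) : TM := starw_t47 A1 A2 A3 A4 A5 A6 A7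

theorem starw_enc (h1 : Enc S E A1 a1) (h2 : Enc S E A2 a2) (h3 : Enc S E A3 a3) (h4 : Enc S E A4 a4) (h5 : Enc S E A5 a5) (h6 : Enc S E A6 a6) (h7 : Enc S E A7 a7) : Enc S E (starw_t A1 A2 A3 A4 A5 A6 A7) (starw_v a1 a2 a3 a4 a5 a6 a7) := starw_h47 h1 h2 h3 h4 h5 h6 h7

def exf_t4 (A1 _A2 _A3 A4 : TM) : TM := tmul S (A1) (A4)

theorem exf_h4 (h1 : Enc S E A1 a1) (_h2 : Enc S E A2 a2) (_h3 : Enc S E A3 a3) (h4 : Enc S E A4 a4) : Enc S E (exf_t4 A1 A2 A3 A4) (exf_v4 a1 a2 a3 a4) := enc_mul hS (h1) (h4)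

def exf_t5 (_A1 A2 A3 _A4 : TM) : TM := tmul S (A2) (A3)

theorem exf_h5 (_h1 : Enc S E A1 a1) (h2 : Enc S E A2 a2) (h3 : Enc S E A3 a3) (_h4 : Enc S E A4 a4) : Enc S E (exf_t5 A1 A2 A3 A4) (exf_v5 a1 a2 a3 a4) := enc_mul hS (h2) (h3)

def exf_t6 (A1 A2 A3 A4 : TM) : TM := tsub (exf_t4 A1 A2 A3 A4) (exf_t5 A1 A2 A3 A4)

theorem exf_h6 (h1 : Enc S E A1 a1) (h2 : Enc S E A2 a2) (h3 : Enc S E A3 a3) (h4 : Enc S E A4 a4) : Enc S E (exf_t6 A1 A2 A3 A4) (exf_v6 a1 a2 a3 a4) := enc_sub (exf_h4 h1 h2 h3 h4) (exf_h5 h1 h2 h3 h4)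

def exf_t7 (_A1 _A2 _A3 _A4 : TM) : TM := tconst 1859775393 0 1

theorem exf_h7 (_h1 : Enc S E A1 a1) (_h2 : Enc S E A2 a2) (_h3 : Enc S E A3 a3) (_h4 : Enc S E A4 a4) : Enc S E (exf_t7 A1 A2 A3 A4) (exf_v7 a1 a2 a3 a4) := enc_sqrtn E (by decide) (by decide)

def exf_t8 (A1 A2 A3 A4 : TM) : TM := tinv S (exf_t7 A1 A2 A3 A4)

theorem exf_h8 (h1 : Enc S E A1 a1) (h2 : Enc S E A2 a2) (h3 : Enc S E A3 a3) (h4 : Enc S E A4 a4) : Enc S E (exf_t8 A1 A2 A3 A4) (exf_v8 a1 a2 a3 a4) := enc_inv hS (exf_h7 h1 h2 h3 h4)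

def exf_t9 (A1 A2 A3 A4 : TM) : TM := tmul S (exf_t6 A1 A2 A3 A4) (exf_t8 A1 A2 A3 A4)

theorem exf_h9 (h1 : Enc S E A1 a1) (h2 : Enc S E A2 a2) (h3 : Enc S E A3 a3) (h4 : Enc S E A4 a4) : Enc S E (exf_t9 A1 A2 A3 A4) (exf_v9 a1 a2 a3 a4) := enc_mul hS (exf_h6 h1 h2 h3 h4) (exf_h8 h1 h2 h3 h4)

def exf_t10 (_A1 _A2 _A3 _A4 : TM) : TM := tconst (Nat.div (Nat.mul 1 S) 2) 0 1

theorem exf_h10 (_h1 : Enc S E A1 a1) (_h2 : Enc S E A2 a2) (_h3 : Enc S E A3 a3) (_h4 : Enc S E A4 a4) : Enc S E (exf_t10 A1 A2 A3 A4) (exf_v10 a1 a2 a3 a4) := enc_rat E 1 (by norm_num)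

def exf_t11 (A1 A2 A3 A4 : TM) : TM := tsub (exf_t9 A1 A2 A3 A4) (exf_t10 A1 A2 A3 A4)

theorem exf_h11 (h1 : Enc S E A1 a1) (h2 : Enc S E A2 a2) (h3 : Enc S E A3 a3) (h4 : Enc S E A4 a4) : Enc S E (exf_t11 A1 A2 A3 A4) (exf_v11 a1 a2 a3 a4) := enc_sub (exf_h9 h1 h2 h3 h4) (exf_h10 h1 h2 h3 h4)

def exf_t (A1 A2 A3 A4 : TM) : TM := exf_t11 A1 A2 A3 A4

theorem exf_enc (h1 : Enc S E A1 a1) (h2 : Enc S E A2 a2) (h3 : Enc S E A3 a3) (h4 : Enc S E A4 a4) : Enc S E (exf_t A1 A2 A3 A4) (exf_v a1 a2 a3 a4) := exf_h11 h1 h2 h3 h4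

def q3f_t2 (A1 _A2 : TM) : TM := tsq S (A1)

theorem q3f_h2 (h1 : Enc S E A1 a1) (_h2 : Enc S E A2 a2) : Enc S E (q3f_t2 A1 A2) (q3f_v2 a1 a2) := enc_sq hS (h1)

def q3f_t3 (_A1 A2 : TM) : TM := tsq S (A2)

theorem q3f_h3 (_h1 : Enc S E A1 a1) (h2 : Enc S E A2 a2) : Enc S E (q3f_t3 A1 A2) (q3f_v3 a1 a2) := enc_sq hS (h2)

def q3f_t4 (A1 A2 : TM) : TM := tadd (q3f_t2 A1 A2) (q3f_t3 A1 A2)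

theorem q3f_h4 (h1 : Enc S E A1 a1) (h2 : Enc S E A2 a2) : Enc S E (q3f_t4 A1 A2) (q3f_v4 a1 a2) := enc_add (q3f_h2 h1 h2) (q3f_h3 h1 h2)

def q3f_t (A1 A2 : TM) : TM := q3f_t4 A1 A2

theorem q3f_enc (h1 : Enc S E A1 a1) (h2 : Enc S E A2 a2) : Enc S E (q3f_t A1 A2) (q3f_v a1 a2) := q3f_h4 h1 h2

def sl001_t7 (_A1 _A2 _A3 _A4 _A5 _A6 _A7 : TM) : TM := tconst 1859775393 0 1

theorem sl001_h7 (_h1 : Enc S E A1 a1) (_h2 : Enc S E A2 a2) (_h3 : Enc S E A3 a3) (_h4 : Enc S E A4 a4) (_h5 : Enc S E A5 a5) (_h6 : Enc S E A6 a6) (_h7 : Enc S E A7 a7) : Enc S E (sl001_t7 A1 A2 A3 A4 A5 A6 A7) (sl001_v7 a1 a2 a3 a4 a5 a6 a7) := enc_sqrtn E (by decide) (by decide)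

def sl001_t8 (A1 A2 A3 A4 A5 A6 A7 : TM) : TM := tscale 1 2 (sl001_t7 A1 A2 A3 A4 A5 A6 A7)

theorem sl001_h8 (h1 : Enc S E A1 a1) (h2 : Enc S E A2 a2) (h3 : Enc S E A3 a3) (h4 : Enc S E A4 a4) (h5 : Enc S E A5 a5) (h6 : Enc S E A6 a6) (h7 : Enc S E A7 a7) : Enc S E (sl001_t8 A1 A2 A3 A4 A5 A6 A7) (sl001_v8 a1 a2 a3 a4 a5 a6 a7) := enc_scale 1 (by norm_num) (sl001_h7 h1 h2 h3 h4 h5 h6 h7)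

def sl001_t11 (A1 A2 A3 A4 A5 A6 A7 : TM) : TM := tsub (sl001_t8 A1 A2 A3 A4 A5 A6 A7) (A4)

theorem sl001_h11 (h1 : Enc S E A1 a1) (h2 : Enc S E A2 a2) (h3 : Enc S E A3 a3) (h4 : Enc S E A4 a4) (h5 : Enc S E A5 a5) (h6 : Enc S E A6 a6) (h7 : Enc S E A7 a7) : Enc S E (sl001_t11 A1 A2 A3 A4 A5 A6 A7) (sl001_v11 a1 a2 a3 a4 a5 a6 a7) := enc_sub (sl001_h8 h1 h2 h3 h4 h5 h6 h7) (h4)

def sl001_t12 (_A1 _A2 _A3 _A4 A5 _A6 _A7 : TM) : TM := tneg (A5)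

theorem sl001_h12 (_h1 : Enc S E A1 a1) (_h2 : Enc S E A2 a2) (_h3 : Enc S E A3 a3) (_h4 : Enc S E A4 a4) (h5 : Enc S E A5 a5) (_h6 : Enc S E A6 a6) (_h7 : Enc S E A7 a7) : Enc S E (sl001_t12 A1 A2 A3 A4 A5 A6 A7) (sl001_v12 a1 a2 a3 a4 a5 a6 a7) := enc_neg (h5)

def sl001_t13 (_A1 _A2 _A3 _A4 _A5 A6 _A7 : TM) : TM := tneg (A6)

theorem sl001_h13 (_h1 : Enc S E A1 a1) (_h2 : Enc S E A2 a2) (_h3 : Enc S E A3 a3) (_h4 : Enc S E A4 a4) (_h5 : Enc S E A5 a5) (h6 : Enc S E A6 a6) (_h7 : Enc S E A7 a7) : Enc S E (sl001_t13 A1 A2 A3 A4 A5 A6 A7) (sl001_v13 a1 a2 a3 a4 a5 a6 a7) := enc_neg (h6)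

def sl001_t14 (A1 A2 A3 A4 A5 A6 A7 : TM) : TM := starw_t (A1) (A2) (A3) (sl001_t11 A1 A2 A3 A4 A5 A6 A7) (sl001_t12 A1 A2 A3 A4 A5 A6 A7) (sl001_t13 A1 A2 A3 A4 A5 A6 A7) (A7)

theorem sl001_h14 (h1 : Enc S E A1 a1) (h2 : Enc S E A2 a2) (h3 : Enc S E A3 a3) (h4 : Enc S E A4 a4) (h5 : Enc S E A5 a5) (h6 : Enc S E A6 a6) (h7 : Enc S E A7 a7) : Enc S E (sl001_t14 A1 A2 A3 A4 A5 A6 A7) (sl001_v14 a1 a2 a3 a4 a5 a6 a7) := starw_enc (h1) (h2) (h3) (sl001_h11 h1 h2 h3 h4 h5 h6 h7) (sl001_h12 h1 h2 h3 h4 h5 h6 h7) (sl001_h13 h1 h2 h3 h4 h5 h6 h7) (h7)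

def sl001_t (A1 A2 A3 A4 A5 A6 A7 : TM) : TM := sl001_t14 A1 A2 A3 A4 A5 A6 A7

theorem sl001_enc (h1 : Enc S E A1 a1) (h2 : Enc S E A2 a2) (h3 : Enc S E A3 a3) (h4 : Enc S E A4 a4) (h5 : Enc S E A5 a5) (h6 : Enc S E A6 a6) (h7 : Enc S E A7 a7) : Enc S E (sl001_t A1 A2 A3 A4 A5 A6 A7) (sl001_v a1 a2 a3 a4 a5 a6 a7) := sl001_h14 h1 h2 h3 h4 h5 h6 h7

def sl011_t7 (_A1 _A2 _A3 _A4 _A5 _A6 _A7 : TM) : TM := tconst 1859775393 0 1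

theorem sl011_h7 (_h1 : Enc S E A1 a1) (_h2 : Enc S E A2 a2) (_h3 : Enc S E A3 a3) (_h4 : Enc S E A4 a4) (_h5 : Enc S E A5 a5) (_h6 : Enc S E A6 a6) (_h7 : Enc S E A7 a7) : Enc S E (sl011_t7 A1 A2 A3 A4 A5 A6 A7) (sl011_v7 a1 a2 a3 a4 a5 a6 a7) := enc_sqrtn E (by decide) (by decide)

def sl011_t8 (A1 A2 A3 A4 A5 A6 A7 : TM) : TM := tscale 1 2 (sl011_t7 A1 A2 A3 A4 A5 A6 A7)

theorem sl011_h8 (h1 : Enc S E A1 a1) (h2 : Enc S E A2 a2) (h3 : Enc S E A3 a3) (h4 : Enc S E A4 a4) (h5 : Enc S E A5 a5) (h6 : Enc S E A6 a6) (h7 : Enc S E A7 a7) : Enc S E (sl011_t8 A1 A2 A3 A4 A5 A6 A7) (sl011_v8 a1 a2 a3 a4 a5 a6 a7) := enc_scale 1 (by norm_num) (sl011_h7 h1 h2 h3 h4 h5 h6 h7)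

def sl011_t12 (A1 A2 A3 A4 A5 A6 A7 : TM) : TM := tsub (sl011_t8 A1 A2 A3 A4 A5 A6 A7) (A4)

theorem sl011_h12 (h1 : Enc S E A1 a1) (h2 : Enc S E A2 a2) (h3 : Enc S E A3 a3) (h4 : Enc S E A4 a4) (h5 : Enc S E A5 a5) (h6 : Enc S E A6 a6) (h7 : Enc S E A7 a7) : Enc S E (sl011_t12 A1 A2 A3 A4 A5 A6 A7) (sl011_v12 a1 a2 a3 a4 a5 a6 a7) := enc_sub (sl011_h8 h1 h2 h3 h4 h5 h6 h7) (h4)

def sl011_t13 (_A1 _A2 _A3 _A4 A5 _A6 _A7 : TM) : TM := tneg (A5)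

theorem sl011_h13 (_h1 : Enc S E A1 a1) (_h2 : Enc S E A2 a2) (_h3 : Enc S E A3 a3) (_h4 : Enc S E A4 a4) (h5 : Enc S E A5 a5) (_h6 : Enc S E A6 a6) (_h7 : Enc S E A7 a7) : Enc S E (sl011_t13 A1 A2 A3 A4 A5 A6 A7) (sl011_v13 a1 a2 a3 a4 a5 a6 a7) := enc_neg (h5)

def sl011_t14 (A1 A2 A3 A4 A5 A6 A7 : TM) : TM := starn_t (A1) (sl011_t12 A1 A2 A3 A4 A5 A6 A7) (A2) (A7) (sl011_t13 A1 A2 A3 A4 A5 A6 A7) (A6)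

theorem sl011_h14 (h1 : Enc S E A1 a1) (h2 : Enc S E A2 a2) (h3 : Enc S E A3 a3) (h4 : Enc S E A4 a4) (h5 : Enc S E A5 a5) (h6 : Enc S E A6 a6) (h7 : Enc S E A7 a7) : Enc S E (sl011_t14 A1 A2 A3 A4 A5 A6 A7) (sl011_v14 a1 a2 a3 a4 a5 a6 a7) := starn_enc (h1) (sl011_h12 h1 h2 h3 h4 h5 h6 h7) (h2) (h7) (sl011_h13 h1 h2 h3 h4 h5 h6 h7) (h6)

def sl011_t (A1 A2 A3 A4 A5 A6 A7 : TM) : TM := sl011_t14 A1 A2 A3 A4 A5 A6 A7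

theorem sl011_enc (h1 : Enc S E A1 a1) (h2 : Enc S E A2 a2) (h3 : Enc S E A3 a3) (h4 : Enc S E A4 a4) (h5 : Enc S E A5 a5) (h6 : Enc S E A6 a6) (h7 : Enc S E A7 a7) : Enc S E (sl011_t A1 A2 A3 A4 A5 A6 A7) (sl011_v a1 a2 a3 a4 a5 a6 a7) := sl011_h14 h1 h2 h3 h4 h5 h6 h7

def sl012_t7 (_A1 _A2 _A3 _A4 _A5 _A6 _A7 : TM) : TM := tconst 1859775393 0 1

theorem sl012_h7 (_h1 : Enc S E A1 a1) (_h2 : Enc S E A2 a2) (_h3 : Enc S E A3 a3) (_h4 : Enc S E A4 a4) (_h5 : Enc S E A5 a5) (_h6 : Enc S E A6 a6) (_h7 : Enc S E A7 a7) : Enc S E (sl012_t7 A1 A2 A3 A4 A5 A6 A7) (sl012_v7 a1 a2 a3 a4 a5 a6 a7) := enc_sqrtn E (by decide) (by decide)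

def sl012_t8 (A1 A2 A3 A4 A5 A6 A7 : TM) : TM := tscale 1 2 (sl012_t7 A1 A2 A3 A4 A5 A6 A7)

theorem sl012_h8 (h1 : Enc S E A1 a1) (h2 : Enc S E A2 a2) (h3 : Enc S E A3 a3) (h4 : Enc S E A4 a4) (h5 : Enc S E A5 a5) (h6 : Enc S E A6 a6) (h7 : Enc S E A7 a7) : Enc S E (sl012_t8 A1 A2 A3 A4 A5 A6 A7) (sl012_v8 a1 a2 a3 a4 a5 a6 a7) := enc_scale 1 (by norm_num) (sl012_h7 h1 h2 h3 h4 h5 h6 h7)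

def sl012_t11 (A1 A2 A3 A4 A5 A6 A7 : TM) : TM := tsub (A4) (sl012_t8 A1 A2 A3 A4 A5 A6 A7)

theorem sl012_h11 (h1 : Enc S E A1 a1) (h2 : Enc S E A2 a2) (h3 : Enc S E A3 a3) (h4 : Enc S E A4 a4) (h5 : Enc S E A5 a5) (h6 : Enc S E A6 a6) (h7 : Enc S E A7 a7) : Enc S E (sl012_t11 A1 A2 A3 A4 A5 A6 A7) (sl012_v11 a1 a2 a3 a4 a5 a6 a7) := enc_sub (h4) (sl012_h8 h1 h2 h3 h4 h5 h6 h7)

def sl012_t12 (A1 A2 A3 A4 A5 A6 A7 : TM) : TM := tsub (sl012_t8 A1 A2 A3 A4 A5 A6 A7) (A3)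

theorem sl012_h12 (h1 : Enc S E A1 a1) (h2 : Enc S E A2 a2) (h3 : Enc S E A3 a3) (h4 : Enc S E A4 a4) (h5 : Enc S E A5 a5) (h6 : Enc S E A6 a6) (h7 : Enc S E A7 a7) : Enc S E (sl012_t12 A1 A2 A3 A4 A5 A6 A7) (sl012_v12 a1 a2 a3 a4 a5 a6 a7) := enc_sub (sl012_h8 h1 h2 h3 h4 h5 h6 h7) (h3)

def sl012_t13 (_A1 _A2 _A3 _A4 _A5 A6 _A7 : TM) : TM := tneg (A6)

theorem sl012_h13 (_h1 : Enc S E A1 a1) (_h2 : Enc S E A2 a2) (_h3 : Enc S E A3 a3) (_h4 : Enc S E A4 a4) (_h5 : Enc S E A5 a5) (h6 : Enc S E A6 a6) (_h7 : Enc S E A7 a7) : Enc S E (sl012_t13 A1 A2 A3 A4 A5 A6 A7) (sl012_v13 a1 a2 a3 a4 a5 a6 a7) := enc_neg (h6)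

def sl012_t14 (A1 A2 A3 A4 A5 A6 A7 : TM) : TM := starn_t (A1) (sl012_t11 A1 A2 A3 A4 A5 A6 A7) (sl012_t12 A1 A2 A3 A4 A5 A6 A7) (A7) (sl012_t13 A1 A2 A3 A4 A5 A6 A7) (A5)

theorem sl012_h14 (h1 : Enc S E A1 a1) (h2 : Enc S E A2 a2) (h3 : Enc S E A3 a3) (h4 : Enc S E A4 a4) (h5 : Enc S E A5 a5) (h6 : Enc S E A6 a6) (h7 : Enc S E A7 a7) : Enc S E (sl012_t14 A1 A2 A3 A4 A5 A6 A7) (sl012_v14 a1 a2 a3 a4 a5 a6 a7) := starn_enc (h1) (sl012_h11 h1 h2 h3 h4 h5 h6 h7) (sl012_h12 h1 h2 h3 h4 h5 h6 h7) (h7) (sl012_h13 h1 h2 h3 h4 h5 h6 h7) (h5)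

def sl012_t (A1 A2 A3 A4 A5 A6 A7 : TM) : TM := sl012_t14 A1 A2 A3 A4 A5 A6 A7

theorem sl012_enc (h1 : Enc S E A1 a1) (h2 : Enc S E A2 a2) (h3 : Enc S E A3 a3) (h4 : Enc S E A4 a4) (h5 : Enc S E A5 a5) (h6 : Enc S E A6 a6) (h7 : Enc S E A7 a7) : Enc S E (sl012_t A1 A2 A3 A4 A5 A6 A7) (sl012_v a1 a2 a3 a4 a5 a6 a7) := sl012_h14 h1 h2 h3 h4 h5 h6 h7

def sl022_t7 (_A1 _A2 _A3 _A4 _A5 _A6 _A7 : TM) : TM := tconst 1859775393 0 1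

theorem sl022_h7 (_h1 : Enc S E A1 a1) (_h2 : Enc S E A2 a2) (_h3 : Enc S E A3 a3) (_h4 : Enc S E A4 a4) (_h5 : Enc S E A5 a5) (_h6 : Enc S E A6 a6) (_h7 : Enc S E A7 a7) : Enc S E (sl022_t7 A1 A2 A3 A4 A5 A6 A7) (sl022_v7 a1 a2 a3 a4 a5 a6 a7) := enc_sqrtn E (by decide) (by decide)

def sl022_t8 (A1 A2 A3 A4 A5 A6 A7 : TM) : TM := tscale 1 2 (sl022_t7 A1 A2 A3 A4 A5 A6 A7)

theorem sl022_h8 (h1 : Enc S E A1 a1) (h2 : Enc S E A2 a2) (h3 : Enc S E A3 a3) (h4 : Enc S E A4 a4) (h5 : Enc S E A5 a5) (h6 : Enc S E A6 a6) (h7 : Enc S E A7 a7) : Enc S E (sl022_t8 A1 A2 A3 A4 A5 A6 A7) (sl022_v8 a1 a2 a3 a4 a5 a6 a7) := enc_scale 1 (by norm_num) (sl022_h7 h1 h2 h3 h4 h5 h6 h7)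

def sl022_t10 (A1 A2 A3 A4 A5 A6 A7 : TM) : TM := tsub (A3) (sl022_t8 A1 A2 A3 A4 A5 A6 A7)

theorem sl022_h10 (h1 : Enc S E A1 a1) (h2 : Enc S E A2 a2) (h3 : Enc S E A3 a3) (h4 : Enc S E A4 a4) (h5 : Enc S E A5 a5) (h6 : Enc S E A6 a6) (h7 : Enc S E A7 a7) : Enc S E (sl022_t10 A1 A2 A3 A4 A5 A6 A7) (sl022_v10 a1 a2 a3 a4 a5 a6 a7) := enc_sub (h3) (sl022_h8 h1 h2 h3 h4 h5 h6 h7)

def sl022_t12 (_A1 _A2 _A3 _A4 A5 _A6 _A7 : TM) : TM := tneg (A5)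

theorem sl022_h12 (_h1 : Enc S E A1 a1) (_h2 : Enc S E A2 a2) (_h3 : Enc S E A3 a3) (_h4 : Enc S E A4 a4) (h5 : Enc S E A5 a5) (_h6 : Enc S E A6 a6) (_h7 : Enc S E A7 a7) : Enc S E (sl022_t12 A1 A2 A3 A4 A5 A6 A7) (sl022_v12 a1 a2 a3 a4 a5 a6 a7) := enc_neg (h5)

def sl022_t13 (_A1 _A2 _A3 _A4 _A5 A6 _A7 : TM) : TM := tneg (A6)

theorem sl022_h13 (_h1 : Enc S E A1 a1) (_h2 : Enc S E A2 a2) (_h3 : Enc S E A3 a3) (_h4 : Enc S E A4 a4) (_h5 : Enc S E A5 a5) (h6 : Enc S E A6 a6) (_h7 : Enc S E A7 a7) : Enc S E (sl022_t13 A1 A2 A3 A4 A5 A6 A7) (sl022_v13 a1 a2 a3 a4 a5 a6 a7) := enc_neg (h6)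

def sl022_t14 (_A1 _A2 _A3 _A4 _A5 _A6 A7 : TM) : TM := tneg (A7)

theorem sl022_h14 (_h1 : Enc S E A1 a1) (_h2 : Enc S E A2 a2) (_h3 : Enc S E A3 a3) (_h4 : Enc S E A4 a4) (_h5 : Enc S E A5 a5) (_h6 : Enc S E A6 a6) (h7 : Enc S E A7 a7) : Enc S E (sl022_t14 A1 A2 A3 A4 A5 A6 A7) (sl022_v14 a1 a2 a3 a4 a5 a6 a7) := enc_neg (h7)

def sl022_t15 (A1 A2 A3 A4 A5 A6 A7 : TM) : TM := starn_t (A1) (A2) (sl022_t10 A1 A2 A3 A4 A5 A6 A7) (sl022_t12 A1 A2 A3 A4 A5 A6 A7) (sl022_t13 A1 A2 A3 A4 A5 A6 A7) (sl022_t14 A1 A2 A3 A4 A5 A6 A7)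

theorem sl022_h15 (h1 : Enc S E A1 a1) (h2 : Enc S E A2 a2) (h3 : Enc S E A3 a3) (h4 : Enc S E A4 a4) (h5 : Enc S E A5 a5) (h6 : Enc S E A6 a6) (h7 : Enc S E A7 a7) : Enc S E (sl022_t15 A1 A2 A3 A4 A5 A6 A7) (sl022_v15 a1 a2 a3 a4 a5 a6 a7) := starn_enc (h1) (h2) (sl022_h10 h1 h2 h3 h4 h5 h6 h7) (sl022_h12 h1 h2 h3 h4 h5 h6 h7) (sl022_h13 h1 h2 h3 h4 h5 h6 h7) (sl022_h14 h1 h2 h3 h4 h5 h6 h7)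

def sl022_t (A1 A2 A3 A4 A5 A6 A7 : TM) : TM := sl022_t15 A1 A2 A3 A4 A5 A6 A7

theorem sl022_enc (h1 : Enc S E A1 a1) (h2 : Enc S E A2 a2) (h3 : Enc S E A3 a3) (h4 : Enc S E A4 a4) (h5 : Enc S E A5 a5) (h6 : Enc S E A6 a6) (h7 : Enc S E A7 a7) : Enc S E (sl022_t A1 A2 A3 A4 A5 A6 A7) (sl022_v a1 a2 a3 a4 a5 a6 a7) := sl022_h15 h1 h2 h3 h4 h5 h6 h7

def sl023_t7 (_A1 _A2 _A3 _A4 _A5 _A6 _A7 : TM) : TM := tconst 1859775393 0 1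

theorem sl023_h7 (_h1 : Enc S E A1 a1) (_h2 : Enc S E A2 a2) (_h3 : Enc S E A3 a3) (_h4 : Enc S E A4 a4) (_h5 : Enc S E A5 a5) (_h6 : Enc S E A6 a6) (_h7 : Enc S E A7 a7) : Enc S E (sl023_t7 A1 A2 A3 A4 A5 A6 A7) (sl023_v7 a1 a2 a3 a4 a5 a6 a7) := enc_sqrtn E (by decide) (by decide)

def sl023_t8 (A1 A2 A3 A4 A5 A6 A7 : TM) : TM := tscale 1 2 (sl023_t7 A1 A2 A3 A4 A5 A6 A7)

theorem sl023_h8 (h1 : Enc S E A1 a1) (h2 : Enc S E A2 a2) (h3 : Enc S E A3 a3) (h4 : Enc S E A4 a4) (h5 : Enc S E A5 a5) (h6 : Enc S E A6 a6) (h7 : Enc S E A7 a7) : Enc S E (sl023_t8 A1 A2 A3 A4 A5 A6 A7) (sl023_v8 a1 a2 a3 a4 a5 a6 a7) := enc_scale 1 (by norm_num) (sl023_h7 h1 h2 h3 h4 h5 h6 h7)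

def sl023_t10 (A1 A2 A3 A4 A5 A6 A7 : TM) : TM := tsub (A3) (sl023_t8 A1 A2 A3 A4 A5 A6 A7)

theorem sl023_h10 (h1 : Enc S E A1 a1) (h2 : Enc S E A2 a2) (h3 : Enc S E A3 a3) (h4 : Enc S E A4 a4) (h5 : Enc S E A5 a5) (h6 : Enc S E A6 a6) (h7 : Enc S E A7 a7) : Enc S E (sl023_t10 A1 A2 A3 A4 A5 A6 A7) (sl023_v10 a1 a2 a3 a4 a5 a6 a7) := enc_sub (h3) (sl023_h8 h1 h2 h3 h4 h5 h6 h7)

def sl023_t12 (A1 A2 A3 A4 A5 A6 A7 : TM) : TM := tsub (sl023_t7 A1 A2 A3 A4 A5 A6 A7) (A4)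

theorem sl023_h12 (h1 : Enc S E A1 a1) (h2 : Enc S E A2 a2) (h3 : Enc S E A3 a3) (h4 : Enc S E A4 a4) (h5 : Enc S E A5 a5) (h6 : Enc S E A6 a6) (h7 : Enc S E A7 a7) : Enc S E (sl023_t12 A1 A2 A3 A4 A5 A6 A7) (sl023_v12 a1 a2 a3 a4 a5 a6 a7) := enc_sub (sl023_h7 h1 h2 h3 h4 h5 h6 h7) (h4)

def sl023_t13 (_A1 _A2 _A3 _A4 A5 _A6 _A7 : TM) : TM := tneg (A5)

theorem sl023_h13 (_h1 : Enc S E A1 a1) (_h2 : Enc S E A2 a2) (_h3 : Enc S E A3 a3) (_h4 : Enc S E A4 a4) (h5 : Enc S E A5 a5) (_h6 : Enc S E A6 a6) (_h7 : Enc S E A7 a7) : Enc S E (sl023_t13 A1 A2 A3 A4 A5 A6 A7) (sl023_v13 a1 a2 a3 a4 a5 a6 a7) := enc_neg (h5)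

def sl023_t14 (_A1 _A2 _A3 _A4 _A5 A6 _A7 : TM) : TM := tneg (A6)

theorem sl023_h14 (_h1 : Enc S E A1 a1) (_h2 : Enc S E A2 a2) (_h3 : Enc S E A3 a3) (_h4 : Enc S E A4 a4) (_h5 : Enc S E A5 a5) (h6 : Enc S E A6 a6) (_h7 : Enc S E A7 a7) : Enc S E (sl023_t14 A1 A2 A3 A4 A5 A6 A7) (sl023_v14 a1 a2 a3 a4 a5 a6 a7) := enc_neg (h6)

def sl023_t15 (A1 A2 A3 A4 A5 A6 A7 : TM) : TM := starw_t (A1) (A2) (sl023_t10 A1 A2 A3 A4 A5 A6 A7) (sl023_t12 A1 A2 A3 A4 A5 A6 A7) (sl023_t13 A1 A2 A3 A4 A5 A6 A7) (sl023_t14 A1 A2 A3 A4 A5 A6 A7) (A7)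

theorem sl023_h15 (h1 : Enc S E A1 a1) (h2 : Enc S E A2 a2) (h3 : Enc S E A3 a3) (h4 : Enc S E A4 a4) (h5 : Enc S E A5 a5) (h6 : Enc S E A6 a6) (h7 : Enc S E A7 a7) : Enc S E (sl023_t15 A1 A2 A3 A4 A5 A6 A7) (sl023_v15 a1 a2 a3 a4 a5 a6 a7) := starw_enc (h1) (h2) (sl023_h10 h1 h2 h3 h4 h5 h6 h7) (sl023_h12 h1 h2 h3 h4 h5 h6 h7) (sl023_h13 h1 h2 h3 h4 h5 h6 h7) (sl023_h14 h1 h2 h3 h4 h5 h6 h7) (h7)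

def sl023_t (A1 A2 A3 A4 A5 A6 A7 : TM) : TM := sl023_t15 A1 A2 A3 A4 A5 A6 A7

theorem sl023_enc (h1 : Enc S E A1 a1) (h2 : Enc S E A2 a2) (h3 : Enc S E A3 a3) (h4 : Enc S E A4 a4) (h5 : Enc S E A5 a5) (h6 : Enc S E A6 a6) (h7 : Enc S E A7 a7) : Enc S E (sl023_t A1 A2 A3 A4 A5 A6 A7) (sl023_v a1 a2 a3 a4 a5 a6 a7) := sl023_h15 h1 h2 h3 h4 h5 h6 h7

def sl033_t7 (_A1 _A2 _A3 _A4 _A5 _A6 _A7 : TM) : TM := tconst 1859775393 0 1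

theorem sl033_h7 (_h1 : Enc S E A1 a1) (_h2 : Enc S E A2 a2) (_h3 : Enc S E A3 a3) (_h4 : Enc S E A4 a4) (_h5 : Enc S E A5 a5) (_h6 : Enc S E A6 a6) (_h7 : Enc S E A7 a7) : Enc S E (sl033_t7 A1 A2 A3 A4 A5 A6 A7) (sl033_v7 a1 a2 a3 a4 a5 a6 a7) := enc_sqrtn E (by decide) (by decide)

def sl033_t12 (A1 A2 A3 A4 A5 A6 A7 : TM) : TM := tsub (sl033_t7 A1 A2 A3 A4 A5 A6 A7) (A4)

theorem sl033_h12 (h1 : Enc S E A1 a1) (h2 : Enc S E A2 a2) (h3 : Enc S E A3 a3) (h4 : Enc S E A4 a4) (h5 : Enc S E A5 a5) (h6 : Enc S E A6 a6) (h7 : Enc S E A7 a7) : Enc S E (sl033_t12 A1 A2 A3 A4 A5 A6 A7) (sl033_v12 a1 a2 a3 a4 a5 a6 a7) := enc_sub (sl033_h7 h1 h2 h3 h4 h5 h6 h7) (h4)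

def sl033_t13 (_A1 _A2 _A3 _A4 A5 _A6 _A7 : TM) : TM := tneg (A5)

theorem sl033_h13 (_h1 : Enc S E A1 a1) (_h2 : Enc S E A2 a2) (_h3 : Enc S E A3 a3) (_h4 : Enc S E A4 a4) (h5 : Enc S E A5 a5) (_h6 : Enc S E A6 a6) (_h7 : Enc S E A7 a7) : Enc S E (sl033_t13 A1 A2 A3 A4 A5 A6 A7) (sl033_v13 a1 a2 a3 a4 a5 a6 a7) := enc_neg (h5)

def sl033_t14 (A1 A2 A3 A4 A5 A6 A7 : TM) : TM := starn_t (A1) (sl033_t12 A1 A2 A3 A4 A5 A6 A7) (A2) (A7) (sl033_t13 A1 A2 A3 A4 A5 A6 A7) (A6)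

theorem sl033_h14 (h1 : Enc S E A1 a1) (h2 : Enc S E A2 a2) (h3 : Enc S E A3 a3) (h4 : Enc S E A4 a4) (h5 : Enc S E A5 a5) (h6 : Enc S E A6 a6) (h7 : Enc S E A7 a7) : Enc S E (sl033_t14 A1 A2 A3 A4 A5 A6 A7) (sl033_v14 a1 a2 a3 a4 a5 a6 a7) := starn_enc (h1) (sl033_h12 h1 h2 h3 h4 h5 h6 h7) (h2) (h7) (sl033_h13 h1 h2 h3 h4 h5 h6 h7) (h6)

def sl033_t (A1 A2 A3 A4 A5 A6 A7 : TM) : TM := sl033_t14 A1 A2 A3 A4 A5 A6 A7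

theorem sl033_enc (h1 : Enc S E A1 a1) (h2 : Enc S E A2 a2) (h3 : Enc S E A3 a3) (h4 : Enc S E A4 a4) (h5 : Enc S E A5 a5) (h6 : Enc S E A6 a6) (h7 : Enc S E A7 a7) : Enc S E (sl033_t A1 A2 A3 A4 A5 A6 A7) (sl033_v a1 a2 a3 a4 a5 a6 a7) := sl033_h14 h1 h2 h3 h4 h5 h6 h7

def sl101_t7 (_A1 _A2 _A3 _A4 _A5 _A6 _A7 : TM) : TM := tconst 1859775393 0 1

theorem sl101_h7 (_h1 : Enc S E A1 a1) (_h2 : Enc S E A2 a2) (_h3 : Enc S E A3 a3) (_h4 : Enc S E A4 a4) (_h5 : Enc S E A5 a5) (_h6 : Enc S E A6 a6) (_h7 : Enc S E A7 a7) : Enc S E (sl101_t7 A1 A2 A3 A4 A5 A6 A7) (sl101_v7 a1 a2 a3 a4 a5 a6 a7) := enc_sqrtn E (by decide) (by decide)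

def sl101_t8 (A1 A2 A3 A4 A5 A6 A7 : TM) : TM := tscale 1 2 (sl101_t7 A1 A2 A3 A4 A5 A6 A7)

theorem sl101_h8 (h1 : Enc S E A1 a1) (h2 : Enc S E A2 a2) (h3 : Enc S E A3 a3) (h4 : Enc S E A4 a4) (h5 : Enc S E A5 a5) (h6 : Enc S E A6 a6) (h7 : Enc S E A7 a7) : Enc S E (sl101_t8 A1 A2 A3 A4 A5 A6 A7) (sl101_v8 a1 a2 a3 a4 a5 a6 a7) := enc_scale 1 (by norm_num) (sl101_h7 h1 h2 h3 h4 h5 h6 h7)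

def sl101_t12 (A1 A2 A3 A4 A5 A6 A7 : TM) : TM := tsub (sl101_t8 A1 A2 A3 A4 A5 A6 A7) (A4)

theorem sl101_h12 (h1 : Enc S E A1 a1) (h2 : Enc S E A2 a2) (h3 : Enc S E A3 a3) (h4 : Enc S E A4 a4) (h5 : Enc S E A5 a5) (h6 : Enc S E A6 a6) (h7 : Enc S E A7 a7) : Enc S E (sl101_t12 A1 A2 A3 A4 A5 A6 A7) (sl101_v12 a1 a2 a3 a4 a5 a6 a7) := enc_sub (sl101_h8 h1 h2 h3 h4 h5 h6 h7) (h4)

def sl101_t13 (_A1 _A2 _A3 _A4 _A5 A6 _A7 : TM) : TM := tneg (A6)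

theorem sl101_h13 (_h1 : Enc S E A1 a1) (_h2 : Enc S E A2 a2) (_h3 : Enc S E A3 a3) (_h4 : Enc S E A4 a4) (_h5 : Enc S E A5 a5) (h6 : Enc S E A6 a6) (_h7 : Enc S E A7 a7) : Enc S E (sl101_t13 A1 A2 A3 A4 A5 A6 A7) (sl101_v13 a1 a2 a3 a4 a5 a6 a7) := enc_neg (h6)

def sl101_t14 (A1 A2 A3 A4 A5 A6 A7 : TM) : TM := starn_t (A1) (A3) (sl101_t12 A1 A2 A3 A4 A5 A6 A7) (sl101_t13 A1 A2 A3 A4 A5 A6 A7) (A7) (A5)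

theorem sl101_h14 (h1 : Enc S E A1 a1) (h2 : Enc S E A2 a2) (h3 : Enc S E A3 a3) (h4 : Enc S E A4 a4) (h5 : Enc S E A5 a5) (h6 : Enc S E A6 a6) (h7 : Enc S E A7 a7) : Enc S E (sl101_t14 A1 A2 A3 A4 A5 A6 A7) (sl101_v14 a1 a2 a3 a4 a5 a6 a7) := starn_enc (h1) (h3) (sl101_h12 h1 h2 h3 h4 h5 h6 h7) (sl101_h13 h1 h2 h3 h4 h5 h6 h7) (h7) (h5)

def sl101_t (A1 A2 A3 A4 A5 A6 A7 : TM) : TM := sl101_t14 A1 A2 A3 A4 A5 A6 A7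

theorem sl101_enc (h1 : Enc S E A1 a1) (h2 : Enc S E A2 a2) (h3 : Enc S E A3 a3) (h4 : Enc S E A4 a4) (h5 : Enc S E A5 a5) (h6 : Enc S E A6 a6) (h7 : Enc S E A7 a7) : Enc S E (sl101_t A1 A2 A3 A4 A5 A6 A7) (sl101_v a1 a2 a3 a4 a5 a6 a7) := sl101_h14 h1 h2 h3 h4 h5 h6 h7

def sl102_t7 (_A1 _A2 _A3 _A4 _A5 _A6 _A7 : TM) : TM := tconst 1859775393 0 1

theorem sl102_h7 (_h1 : Enc S E A1 a1) (_h2 : Enc S E A2 a2) (_h3 : Enc S E A3 a3) (_h4 : Enc S E A4 a4) (_h5 : Enc S E A5 a5) (_h6 : Enc S E A6 a6) (_h7 : Enc S E A7 a7) : Enc S E (sl102_t7 A1 A2 A3 A4 A5 A6 A7) (sl102_v7 a1 a2 a3 a4 a5 a6 a7) := enc_sqrtn E (by decide) (by decide)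

def sl102_t8 (A1 A2 A3 A4 A5 A6 A7 : TM) : TM := tscale 1 2 (sl102_t7 A1 A2 A3 A4 A5 A6 A7)

theorem sl102_h8 (h1 : Enc S E A1 a1) (h2 : Enc S E A2 a2) (h3 : Enc S E A3 a3) (h4 : Enc S E A4 a4) (h5 : Enc S E A5 a5) (h6 : Enc S E A6 a6) (h7 : Enc S E A7 a7) : Enc S E (sl102_t8 A1 A2 A3 A4 A5 A6 A7) (sl102_v8 a1 a2 a3 a4 a5 a6 a7) := enc_scale 1 (by norm_num) (sl102_h7 h1 h2 h3 h4 h5 h6 h7)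

def sl102_t11 (A1 A2 A3 A4 A5 A6 A7 : TM) : TM := tsub (A4) (sl102_t8 A1 A2 A3 A4 A5 A6 A7)

theorem sl102_h11 (h1 : Enc S E A1 a1) (h2 : Enc S E A2 a2) (h3 : Enc S E A3 a3) (h4 : Enc S E A4 a4) (h5 : Enc S E A5 a5) (h6 : Enc S E A6 a6) (h7 : Enc S E A7 a7) : Enc S E (sl102_t11 A1 A2 A3 A4 A5 A6 A7) (sl102_v11 a1 a2 a3 a4 a5 a6 a7) := enc_sub (h4) (sl102_h8 h1 h2 h3 h4 h5 h6 h7)

def sl102_t12 (A1 A2 A3 A4 A5 A6 A7 : TM) : TM := tsub (sl102_t8 A1 A2 A3 A4 A5 A6 A7) (A2)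

theorem sl102_h12 (h1 : Enc S E A1 a1) (h2 : Enc S E A2 a2) (h3 : Enc S E A3 a3) (h4 : Enc S E A4 a4) (h5 : Enc S E A5 a5) (h6 : Enc S E A6 a6) (h7 : Enc S E A7 a7) : Enc S E (sl102_t12 A1 A2 A3 A4 A5 A6 A7) (sl102_v12 a1 a2 a3 a4 a5 a6 a7) := enc_sub (sl102_h8 h1 h2 h3 h4 h5 h6 h7) (h2)

def sl102_t13 (_A1 _A2 _A3 _A4 A5 _A6 _A7 : TM) : TM := tneg (A5)

theorem sl102_h13 (_h1 : Enc S E A1 a1) (_h2 : Enc S E A2 a2) (_h3 : Enc S E A3 a3) (_h4 : Enc S E A4 a4) (h5 : Enc S E A5 a5) (_h6 : Enc S E A6 a6) (_h7 : Enc S E A7 a7) : Enc S E (sl102_t13 A1 A2 A3 A4 A5 A6 A7) (sl102_v13 a1 a2 a3 a4 a5 a6 a7) := enc_neg (h5)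

def sl102_t14 (A1 A2 A3 A4 A5 A6 A7 : TM) : TM := starn_t (A1) (sl102_t12 A1 A2 A3 A4 A5 A6 A7) (sl102_t11 A1 A2 A3 A4 A5 A6 A7) (sl102_t13 A1 A2 A3 A4 A5 A6 A7) (A7) (A6)

theorem sl102_h14 (h1 : Enc S E A1 a1) (h2 : Enc S E A2 a2) (h3 : Enc S E A3 a3) (h4 : Enc S E A4 a4) (h5 : Enc S E A5 a5) (h6 : Enc S E A6 a6) (h7 : Enc S E A7 a7) : Enc S E (sl102_t14 A1 A2 A3 A4 A5 A6 A7) (sl102_v14 a1 a2 a3 a4 a5 a6 a7) := starn_enc (h1) (sl102_h12 h1 h2 h3 h4 h5 h6 h7) (sl102_h11 h1 h2 h3 h4 h5 h6 h7) (sl102_h13 h1 h2 h3 h4 h5 h6 h7) (h7) (h6)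

def sl102_t (A1 A2 A3 A4 A5 A6 A7 : TM) : TM := sl102_t14 A1 A2 A3 A4 A5 A6 A7

theorem sl102_enc (h1 : Enc S E A1 a1) (h2 : Enc S E A2 a2) (h3 : Enc S E A3 a3) (h4 : Enc S E A4 a4) (h5 : Enc S E A5 a5) (h6 : Enc S E A6 a6) (h7 : Enc S E A7 a7) : Enc S E (sl102_t A1 A2 A3 A4 A5 A6 A7) (sl102_v a1 a2 a3 a4 a5 a6 a7) := sl102_h14 h1 h2 h3 h4 h5 h6 h7

def sl112_t7 (_A1 _A2 _A3 _A4 _A5 _A6 _A7 : TM) : TM := tconst 1859775393 0 1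

theorem sl112_h7 (_h1 : Enc S E A1 a1) (_h2 : Enc S E A2 a2) (_h3 : Enc S E A3 a3) (_h4 : Enc S E A4 a4) (_h5 : Enc S E A5 a5) (_h6 : Enc S E A6 a6) (_h7 : Enc S E A7 a7) : Enc S E (sl112_t7 A1 A2 A3 A4 A5 A6 A7) (sl112_v7 a1 a2 a3 a4 a5 a6 a7) := enc_sqrtn E (by decide) (by decide)

def sl112_t8 (A1 A2 A3 A4 A5 A6 A7 : TM) : TM := tscale 1 2 (sl112_t7 A1 A2 A3 A4 A5 A6 A7)

theorem sl112_h8 (h1 : Enc S E A1 a1) (h2 : Enc S E A2 a2) (h3 : Enc S E A3 a3) (h4 : Enc S E A4 a4) (h5 : Enc S E A5 a5) (h6 : Enc S E A6 a6) (h7 : Enc S E A7 a7) : Enc S E (sl112_t8 A1 A2 A3 A4 A5 A6 A7) (sl112_v8 a1 a2 a3 a4 a5 a6 a7) := enc_scale 1 (by norm_num) (sl112_h7 h1 h2 h3 h4 h5 h6 h7)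

def sl112_t11 (A1 A2 A3 A4 A5 A6 A7 : TM) : TM := tsub (A4) (sl112_t8 A1 A2 A3 A4 A5 A6 A7)

theorem sl112_h11 (h1 : Enc S E A1 a1) (h2 : Enc S E A2 a2) (h3 : Enc S E A3 a3) (h4 : Enc S E A4 a4) (h5 : Enc S E A5 a5) (h6 : Enc S E A6 a6) (h7 : Enc S E A7 a7) : Enc S E (sl112_t11 A1 A2 A3 A4 A5 A6 A7) (sl112_v11 a1 a2 a3 a4 a5 a6 a7) := enc_sub (h4) (sl112_h8 h1 h2 h3 h4 h5 h6 h7)

def sl112_t12 (A1 A2 A3 A4 A5 A6 A7 : TM) : TM := tsub (sl112_t8 A1 A2 A3 A4 A5 A6 A7) (A3)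

theorem sl112_h12 (h1 : Enc S E A1 a1) (h2 : Enc S E A2 a2) (h3 : Enc S E A3 a3) (h4 : Enc S E A4 a4) (h5 : Enc S E A5 a5) (h6 : Enc S E A6 a6) (h7 : Enc S E A7 a7) : Enc S E (sl112_t12 A1 A2 A3 A4 A5 A6 A7) (sl112_v12 a1 a2 a3 a4 a5 a6 a7) := enc_sub (sl112_h8 h1 h2 h3 h4 h5 h6 h7) (h3)

def sl112_t13 (A1 A2 A3 A4 A5 A6 A7 : TM) : TM := tsub (sl112_t8 A1 A2 A3 A4 A5 A6 A7) (A2)

theorem sl112_h13 (h1 : Enc S E A1 a1) (h2 : Enc S E A2 a2) (h3 : Enc S E A3 a3) (h4 : Enc S E A4 a4) (h5 : Enc S E A5 a5) (h6 : Enc S E A6 a6) (h7 : Enc S E A7 a7) : Enc S E (sl112_t13 A1 A2 A3 A4 A5 A6 A7) (sl112_v13 a1 a2 a3 a4 a5 a6 a7) := enc_sub (sl112_h8 h1 h2 h3 h4 h5 h6 h7) (h2)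

def sl112_t14 (_A1 _A2 _A3 _A4 _A5 A6 _A7 : TM) : TM := tneg (A6)

theorem sl112_h14 (_h1 : Enc S E A1 a1) (_h2 : Enc S E A2 a2) (_h3 : Enc S E A3 a3) (_h4 : Enc S E A4 a4) (_h5 : Enc S E A5 a5) (h6 : Enc S E A6 a6) (_h7 : Enc S E A7 a7) : Enc S E (sl112_t14 A1 A2 A3 A4 A5 A6 A7) (sl112_v14 a1 a2 a3 a4 a5 a6 a7) := enc_neg (h6)

def sl112_t15 (_A1 _A2 _A3 _A4 A5 _A6 _A7 : TM) : TM := tneg (A5)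

theorem sl112_h15 (_h1 : Enc S E A1 a1) (_h2 : Enc S E A2 a2) (_h3 : Enc S E A3 a3) (_h4 : Enc S E A4 a4) (h5 : Enc S E A5 a5) (_h6 : Enc S E A6 a6) (_h7 : Enc S E A7 a7) : Enc S E (sl112_t15 A1 A2 A3 A4 A5 A6 A7) (sl112_v15 a1 a2 a3 a4 a5 a6 a7) := enc_neg (h5)

def sl112_t16 (A1 A2 A3 A4 A5 A6 A7 : TM) : TM := starw_t (A1) (sl112_t11 A1 A2 A3 A4 A5 A6 A7) (sl112_t12 A1 A2 A3 A4 A5 A6 A7) (sl112_t13 A1 A2 A3 A4 A5 A6 A7) (A7) (sl112_t14 A1 A2 A3 A4 A5 A6 A7) (sl112_t15 A1 A2 A3 A4 A5 A6 A7)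

theorem sl112_h16 (h1 : Enc S E A1 a1) (h2 : Enc S E A2 a2) (h3 : Enc S E A3 a3) (h4 : Enc S E A4 a4) (h5 : Enc S E A5 a5) (h6 : Enc S E A6 a6) (h7 : Enc S E A7 a7) : Enc S E (sl112_t16 A1 A2 A3 A4 A5 A6 A7) (sl112_v16 a1 a2 a3 a4 a5 a6 a7) := starw_enc (h1) (sl112_h11 h1 h2 h3 h4 h5 h6 h7) (sl112_h12 h1 h2 h3 h4 h5 h6 h7) (sl112_h13 h1 h2 h3 h4 h5 h6 h7) (h7) (sl112_h14 h1 h2 h3 h4 h5 h6 h7) (sl112_h15 h1 h2 h3 h4 h5 h6 h7)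

def sl112_t (A1 A2 A3 A4 A5 A6 A7 : TM) : TM := sl112_t16 A1 A2 A3 A4 A5 A6 A7

theorem sl112_enc (h1 : Enc S E A1 a1) (h2 : Enc S E A2 a2) (h3 : Enc S E A3 a3) (h4 : Enc S E A4 a4) (h5 : Enc S E A5 a5) (h6 : Enc S E A6 a6) (h7 : Enc S E A7 a7) : Enc S E (sl112_t A1 A2 A3 A4 A5 A6 A7) (sl112_v a1 a2 a3 a4 a5 a6 a7) := sl112_h16 h1 h2 h3 h4 h5 h6 h7

def sl113_t7 (_A1 _A2 _A3 _A4 _A5 _A6 _A7 : TM) : TM := tconst 1859775393 0 1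

theorem sl113_h7 (_h1 : Enc S E A1 a1) (_h2 : Enc S E A2 a2) (_h3 : Enc S E A3 a3) (_h4 : Enc S E A4 a4) (_h5 : Enc S E A5 a5) (_h6 : Enc S E A6 a6) (_h7 : Enc S E A7 a7) : Enc S E (sl113_t7 A1 A2 A3 A4 A5 A6 A7) (sl113_v7 a1 a2 a3 a4 a5 a6 a7) := enc_sqrtn E (by decide) (by decide)

def sl113_t8 (A1 A2 A3 A4 A5 A6 A7 : TM) : TM := tscale 1 2 (sl113_t7 A1 A2 A3 A4 A5 A6 A7)

theorem sl113_h8 (h1 : Enc S E A1 a1) (h2 : Enc S E A2 a2) (h3 : Enc S E A3 a3) (h4 : Enc S E A4 a4) (h5 : Enc S E A5 a5) (h6 : Enc S E A6 a6) (h7 : Enc S E A7 a7) : Enc S E (sl113_t8 A1 A2 A3 A4 A5 A6 A7) (sl113_v8 a1 a2 a3 a4 a5 a6 a7) := enc_scale 1 (by norm_num) (sl113_h7 h1 h2 h3 h4 h5 h6 h7)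

def sl113_t12 (A1 A2 A3 A4 A5 A6 A7 : TM) : TM := tsub (sl113_t8 A1 A2 A3 A4 A5 A6 A7) (A3)

theorem sl113_h12 (h1 : Enc S E A1 a1) (h2 : Enc S E A2 a2) (h3 : Enc S E A3 a3) (h4 : Enc S E A4 a4) (h5 : Enc S E A5 a5) (h6 : Enc S E A6 a6) (h7 : Enc S E A7 a7) : Enc S E (sl113_t12 A1 A2 A3 A4 A5 A6 A7) (sl113_v12 a1 a2 a3 a4 a5 a6 a7) := enc_sub (sl113_h8 h1 h2 h3 h4 h5 h6 h7) (h3)

def sl113_t13 (A1 A2 A3 A4 A5 A6 A7 : TM) : TM := tsub (sl113_t8 A1 A2 A3 A4 A5 A6 A7) (A2)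

theorem sl113_h13 (h1 : Enc S E A1 a1) (h2 : Enc S E A2 a2) (h3 : Enc S E A3 a3) (h4 : Enc S E A4 a4) (h5 : Enc S E A5 a5) (h6 : Enc S E A6 a6) (h7 : Enc S E A7 a7) : Enc S E (sl113_t13 A1 A2 A3 A4 A5 A6 A7) (sl113_v13 a1 a2 a3 a4 a5 a6 a7) := enc_sub (sl113_h8 h1 h2 h3 h4 h5 h6 h7) (h2)

def sl113_t14 (_A1 _A2 _A3 _A4 _A5 A6 _A7 : TM) : TM := tneg (A6)

theorem sl113_h14 (_h1 : Enc S E A1 a1) (_h2 : Enc S E A2 a2) (_h3 : Enc S E A3 a3) (_h4 : Enc S E A4 a4) (_h5 : Enc S E A5 a5) (h6 : Enc S E A6 a6) (_h7 : Enc S E A7 a7) : Enc S E (sl113_t14 A1 A2 A3 A4 A5 A6 A7) (sl113_v14 a1 a2 a3 a4 a5 a6 a7) := enc_neg (h6)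

def sl113_t15 (_A1 _A2 _A3 _A4 A5 _A6 _A7 : TM) : TM := tneg (A5)

theorem sl113_h15 (_h1 : Enc S E A1 a1) (_h2 : Enc S E A2 a2) (_h3 : Enc S E A3 a3) (_h4 : Enc S E A4 a4) (h5 : Enc S E A5 a5) (_h6 : Enc S E A6 a6) (_h7 : Enc S E A7 a7) : Enc S E (sl113_t15 A1 A2 A3 A4 A5 A6 A7) (sl113_v15 a1 a2 a3 a4 a5 a6 a7) := enc_neg (h5)

def sl113_t16 (_A1 _A2 _A3 _A4 _A5 _A6 A7 : TM) : TM := tneg (A7)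

theorem sl113_h16 (_h1 : Enc S E A1 a1) (_h2 : Enc S E A2 a2) (_h3 : Enc S E A3 a3) (_h4 : Enc S E A4 a4) (_h5 : Enc S E A5 a5) (_h6 : Enc S E A6 a6) (h7 : Enc S E A7 a7) : Enc S E (sl113_t16 A1 A2 A3 A4 A5 A6 A7) (sl113_v16 a1 a2 a3 a4 a5 a6 a7) := enc_neg (h7)

def sl113_t17 (A1 A2 A3 A4 A5 A6 A7 : TM) : TM := starn_t (A1) (sl113_t12 A1 A2 A3 A4 A5 A6 A7) (sl113_t13 A1 A2 A3 A4 A5 A6 A7) (sl113_t14 A1 A2 A3 A4 A5 A6 A7) (sl113_t15 A1 A2 A3 A4 A5 A6 A7) (sl113_t16 A1 A2 A3 A4 A5 A6 A7)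

theorem sl113_h17 (h1 : Enc S E A1 a1) (h2 : Enc S E A2 a2) (h3 : Enc S E A3 a3) (h4 : Enc S E A4 a4) (h5 : Enc S E A5 a5) (h6 : Enc S E A6 a6) (h7 : Enc S E A7 a7) : Enc S E (sl113_t17 A1 A2 A3 A4 A5 A6 A7) (sl113_v17 a1 a2 a3 a4 a5 a6 a7) := starn_enc (h1) (sl113_h12 h1 h2 h3 h4 h5 h6 h7) (sl113_h13 h1 h2 h3 h4 h5 h6 h7) (sl113_h14 h1 h2 h3 h4 h5 h6 h7) (sl113_h15 h1 h2 h3 h4 h5 h6 h7) (sl113_h16 h1 h2 h3 h4 h5 h6 h7)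

def sl113_t (A1 A2 A3 A4 A5 A6 A7 : TM) : TM := sl113_t17 A1 A2 A3 A4 A5 A6 A7

theorem sl113_enc (h1 : Enc S E A1 a1) (h2 : Enc S E A2 a2) (h3 : Enc S E A3 a3) (h4 : Enc S E A4 a4) (h5 : Enc S E A5 a5) (h6 : Enc S E A6 a6) (h7 : Enc S E A7 a7) : Enc S E (sl113_t A1 A2 A3 A4 A5 A6 A7) (sl113_v a1 a2 a3 a4 a5 a6 a7) := sl113_h17 h1 h2 h3 h4 h5 h6 h7

def sl123_t7 (_A1 _A2 _A3 _A4 _A5 _A6 _A7 : TM) : TM := tconst 1859775393 0 1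

theorem sl123_h7 (_h1 : Enc S E A1 a1) (_h2 : Enc S E A2 a2) (_h3 : Enc S E A3 a3) (_h4 : Enc S E A4 a4) (_h5 : Enc S E A5 a5) (_h6 : Enc S E A6 a6) (_h7 : Enc S E A7 a7) : Enc S E (sl123_t7 A1 A2 A3 A4 A5 A6 A7) (sl123_v7 a1 a2 a3 a4 a5 a6 a7) := enc_sqrtn E (by decide) (by decide)

def sl123_t8 (A1 A2 A3 A4 A5 A6 A7 : TM) : TM := tscale 1 2 (sl123_t7 A1 A2 A3 A4 A5 A6 A7)

theorem sl123_h8 (h1 : Enc S E A1 a1) (h2 : Enc S E A2 a2) (h3 : Enc S E A3 a3) (h4 : Enc S E A4 a4) (h5 : Enc S E A5 a5) (h6 : Enc S E A6 a6) (h7 : Enc S E A7 a7) : Enc S E (sl123_t8 A1 A2 A3 A4 A5 A6 A7) (sl123_v8 a1 a2 a3 a4 a5 a6 a7) := enc_scale 1 (by norm_num) (sl123_h7 h1 h2 h3 h4 h5 h6 h7)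

def sl123_t10 (A1 A2 A3 A4 A5 A6 A7 : TM) : TM := tsub (A3) (sl123_t8 A1 A2 A3 A4 A5 A6 A7)

theorem sl123_h10 (h1 : Enc S E A1 a1) (h2 : Enc S E A2 a2) (h3 : Enc S E A3 a3) (h4 : Enc S E A4 a4) (h5 : Enc S E A5 a5) (h6 : Enc S E A6 a6) (h7 : Enc S E A7 a7) : Enc S E (sl123_t10 A1 A2 A3 A4 A5 A6 A7) (sl123_v10 a1 a2 a3 a4 a5 a6 a7) := enc_sub (h3) (sl123_h8 h1 h2 h3 h4 h5 h6 h7)

def sl123_t12 (A1 A2 A3 A4 A5 A6 A7 : TM) : TM := tsub (sl123_t7 A1 A2 A3 A4 A5 A6 A7) (A4)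

theorem sl123_h12 (h1 : Enc S E A1 a1) (h2 : Enc S E A2 a2) (h3 : Enc S E A3 a3) (h4 : Enc S E A4 a4) (h5 : Enc S E A5 a5) (h6 : Enc S E A6 a6) (h7 : Enc S E A7 a7) : Enc S E (sl123_t12 A1 A2 A3 A4 A5 A6 A7) (sl123_v12 a1 a2 a3 a4 a5 a6 a7) := enc_sub (sl123_h7 h1 h2 h3 h4 h5 h6 h7) (h4)

def sl123_t13 (_A1 _A2 _A3 _A4 _A5 A6 _A7 : TM) : TM := tneg (A6)

theorem sl123_h13 (_h1 : Enc S E A1 a1) (_h2 : Enc S E A2 a2) (_h3 : Enc S E A3 a3) (_h4 : Enc S E A4 a4) (_h5 : Enc S E A5 a5) (h6 : Enc S E A6 a6) (_h7 : Enc S E A7 a7) : Enc S E (sl123_t13 A1 A2 A3 A4 A5 A6 A7) (sl123_v13 a1 a2 a3 a4 a5 a6 a7) := enc_neg (h6)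

def sl123_t14 (A1 A2 A3 A4 A5 A6 A7 : TM) : TM := starn_t (A1) (sl123_t10 A1 A2 A3 A4 A5 A6 A7) (sl123_t12 A1 A2 A3 A4 A5 A6 A7) (sl123_t13 A1 A2 A3 A4 A5 A6 A7) (A7) (A5)

theorem sl123_h14 (h1 : Enc S E A1 a1) (h2 : Enc S E A2 a2) (h3 : Enc S E A3 a3) (h4 : Enc S E A4 a4) (h5 : Enc S E A5 a5) (h6 : Enc S E A6 a6) (h7 : Enc S E A7 a7) : Enc S E (sl123_t14 A1 A2 A3 A4 A5 A6 A7) (sl123_v14 a1 a2 a3 a4 a5 a6 a7) := starn_enc (h1) (sl123_h10 h1 h2 h3 h4 h5 h6 h7) (sl123_h12 h1 h2 h3 h4 h5 h6 h7) (sl123_h13 h1 h2 h3 h4 h5 h6 h7) (h7) (h5)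

def sl123_t (A1 A2 A3 A4 A5 A6 A7 : TM) : TM := sl123_t14 A1 A2 A3 A4 A5 A6 A7

theorem sl123_enc (h1 : Enc S E A1 a1) (h2 : Enc S E A2 a2) (h3 : Enc S E A3 a3) (h4 : Enc S E A4 a4) (h5 : Enc S E A5 a5) (h6 : Enc S E A6 a6) (h7 : Enc S E A7 a7) : Enc S E (sl123_t A1 A2 A3 A4 A5 A6 A7) (sl123_v a1 a2 a3 a4 a5 a6 a7) := sl123_h14 h1 h2 h3 h4 h5 h6 h7

def sl133_t7 (_A1 _A2 _A3 _A4 _A5 _A6 _A7 : TM) : TM := tconst 1859775393 0 1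

theorem sl133_h7 (_h1 : Enc S E A1 a1) (_h2 : Enc S E A2 a2) (_h3 : Enc S E A3 a3) (_h4 : Enc S E A4 a4) (_h5 : Enc S E A5 a5) (_h6 : Enc S E A6 a6) (_h7 : Enc S E A7 a7) : Enc S E (sl133_t7 A1 A2 A3 A4 A5 A6 A7) (sl133_v7 a1 a2 a3 a4 a5 a6 a7) := enc_sqrtn E (by decide) (by decide)

def sl133_t8 (A1 A2 A3 A4 A5 A6 A7 : TM) : TM := tscale 1 2 (sl133_t7 A1 A2 A3 A4 A5 A6 A7)

theorem sl133_h8 (h1 : Enc S E A1 a1) (h2 : Enc S E A2 a2) (h3 : Enc S E A3 a3) (h4 : Enc S E A4 a4) (h5 : Enc S E A5 a5) (h6 : Enc S E A6 a6) (h7 : Enc S E A7 a7) : Enc S E (sl133_t8 A1 A2 A3 A4 A5 A6 A7) (sl133_v8 a1 a2 a3 a4 a5 a6 a7) := enc_scale 1 (by norm_num) (sl133_h7 h1 h2 h3 h4 h5 h6 h7)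

def sl133_t11 (A1 A2 A3 A4 A5 A6 A7 : TM) : TM := tsub (A4) (sl133_t7 A1 A2 A3 A4 A5 A6 A7)

theorem sl133_h11 (h1 : Enc S E A1 a1) (h2 : Enc S E A2 a2) (h3 : Enc S E A3 a3) (h4 : Enc S E A4 a4) (h5 : Enc S E A5 a5) (h6 : Enc S E A6 a6) (h7 : Enc S E A7 a7) : Enc S E (sl133_t11 A1 A2 A3 A4 A5 A6 A7) (sl133_v11 a1 a2 a3 a4 a5 a6 a7) := enc_sub (h4) (sl133_h7 h1 h2 h3 h4 h5 h6 h7)

def sl133_t12 (A1 A2 A3 A4 A5 A6 A7 : TM) : TM := tsub (sl133_t7 A1 A2 A3 A4 A5 A6 A7) (A3)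

theorem sl133_h12 (h1 : Enc S E A1 a1) (h2 : Enc S E A2 a2) (h3 : Enc S E A3 a3) (h4 : Enc S E A4 a4) (h5 : Enc S E A5 a5) (h6 : Enc S E A6 a6) (h7 : Enc S E A7 a7) : Enc S E (sl133_t12 A1 A2 A3 A4 A5 A6 A7) (sl133_v12 a1 a2 a3 a4 a5 a6 a7) := enc_sub (sl133_h7 h1 h2 h3 h4 h5 h6 h7) (h3)

def sl133_t13 (A1 A2 A3 A4 A5 A6 A7 : TM) : TM := tsub (sl133_t8 A1 A2 A3 A4 A5 A6 A7) (A2)

theorem sl133_h13 (h1 : Enc S E A1 a1) (h2 : Enc S E A2 a2) (h3 : Enc S E A3 a3) (h4 : Enc S E A4 a4) (h5 : Enc S E A5 a5) (h6 : Enc S E A6 a6) (h7 : Enc S E A7 a7) : Enc S E (sl133_t13 A1 A2 A3 A4 A5 A6 A7) (sl133_v13 a1 a2 a3 a4 a5 a6 a7) := enc_sub (sl133_h8 h1 h2 h3 h4 h5 h6 h7) (h2)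

def sl133_t14 (_A1 _A2 _A3 _A4 _A5 A6 _A7 : TM) : TM := tneg (A6)

theorem sl133_h14 (_h1 : Enc S E A1 a1) (_h2 : Enc S E A2 a2) (_h3 : Enc S E A3 a3) (_h4 : Enc S E A4 a4) (_h5 : Enc S E A5 a5) (h6 : Enc S E A6 a6) (_h7 : Enc S E A7 a7) : Enc S E (sl133_t14 A1 A2 A3 A4 A5 A6 A7) (sl133_v14 a1 a2 a3 a4 a5 a6 a7) := enc_neg (h6)

def sl133_t15 (_A1 _A2 _A3 _A4 A5 _A6 _A7 : TM) : TM := tneg (A5)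

theorem sl133_h15 (_h1 : Enc S E A1 a1) (_h2 : Enc S E A2 a2) (_h3 : Enc S E A3 a3) (_h4 : Enc S E A4 a4) (h5 : Enc S E A5 a5) (_h6 : Enc S E A6 a6) (_h7 : Enc S E A7 a7) : Enc S E (sl133_t15 A1 A2 A3 A4 A5 A6 A7) (sl133_v15 a1 a2 a3 a4 a5 a6 a7) := enc_neg (h5)

def sl133_t16 (A1 A2 A3 A4 A5 A6 A7 : TM) : TM := starw_t (A1) (sl133_t11 A1 A2 A3 A4 A5 A6 A7) (sl133_t12 A1 A2 A3 A4 A5 A6 A7) (sl133_t13 A1 A2 A3 A4 A5 A6 A7) (A7) (sl133_t14 A1 A2 A3 A4 A5 A6 A7) (sl133_t15 A1 A2 A3 A4 A5 A6 A7)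

theorem sl133_h16 (h1 : Enc S E A1 a1) (h2 : Enc S E A2 a2) (h3 : Enc S E A3 a3) (h4 : Enc S E A4 a4) (h5 : Enc S E A5 a5) (h6 : Enc S E A6 a6) (h7 : Enc S E A7 a7) : Enc S E (sl133_t16 A1 A2 A3 A4 A5 A6 A7) (sl133_v16 a1 a2 a3 a4 a5 a6 a7) := starw_enc (h1) (sl133_h11 h1 h2 h3 h4 h5 h6 h7) (sl133_h12 h1 h2 h3 h4 h5 h6 h7) (sl133_h13 h1 h2 h3 h4 h5 h6 h7) (h7) (sl133_h14 h1 h2 h3 h4 h5 h6 h7) (sl133_h15 h1 h2 h3 h4 h5 h6 h7)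

def sl133_t (A1 A2 A3 A4 A5 A6 A7 : TM) : TM := sl133_t16 A1 A2 A3 A4 A5 A6 A7

theorem sl133_enc (h1 : Enc S E A1 a1) (h2 : Enc S E A2 a2) (h3 : Enc S E A3 a3) (h4 : Enc S E A4 a4) (h5 : Enc S E A5 a5) (h6 : Enc S E A6 a6) (h7 : Enc S E A7 a7) : Enc S E (sl133_t A1 A2 A3 A4 A5 A6 A7) (sl133_v a1 a2 a3 a4 a5 a6 a7) := sl133_h16 h1 h2 h3 h4 h5 h6 h7

def sl202_t7 (_A1 _A2 _A3 _A4 _A5 _A6 _A7 : TM) : TM := tconst 1859775393 0 1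

theorem sl202_h7 (_h1 : Enc S E A1 a1) (_h2 : Enc S E A2 a2) (_h3 : Enc S E A3 a3) (_h4 : Enc S E A4 a4) (_h5 : Enc S E A5 a5) (_h6 : Enc S E A6 a6) (_h7 : Enc S E A7 a7) : Enc S E (sl202_t7 A1 A2 A3 A4 A5 A6 A7) (sl202_v7 a1 a2 a3 a4 a5 a6 a7) := enc_sqrtn E (by decide) (by decide)

def sl202_t8 (A1 A2 A3 A4 A5 A6 A7 : TM) : TM := tscale 1 2 (sl202_t7 A1 A2 A3 A4 A5 A6 A7)

theorem sl202_h8 (h1 : Enc S E A1 a1) (h2 : Enc S E A2 a2) (h3 : Enc S E A3 a3) (h4 : Enc S E A4 a4) (h5 : Enc S E A5 a5) (h6 : Enc S E A6 a6) (h7 : Enc S E A7 a7) : Enc S E (sl202_t8 A1 A2 A3 A4 A5 A6 A7) (sl202_v8 a1 a2 a3 a4 a5 a6 a7) := enc_scale 1 (by norm_num) (sl202_h7 h1 h2 h3 h4 h5 h6 h7)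

def sl202_t9 (A1 A2 A3 A4 A5 A6 A7 : TM) : TM := tsub (A2) (sl202_t8 A1 A2 A3 A4 A5 A6 A7)

theorem sl202_h9 (h1 : Enc S E A1 a1) (h2 : Enc S E A2 a2) (h3 : Enc S E A3 a3) (h4 : Enc S E A4 a4) (h5 : Enc S E A5 a5) (h6 : Enc S E A6 a6) (h7 : Enc S E A7 a7) : Enc S E (sl202_t9 A1 A2 A3 A4 A5 A6 A7) (sl202_v9 a1 a2 a3 a4 a5 a6 a7) := enc_sub (h2) (sl202_h8 h1 h2 h3 h4 h5 h6 h7)

def sl202_t12 (_A1 _A2 _A3 _A4 A5 _A6 _A7 : TM) : TM := tneg (A5)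

theorem sl202_h12 (_h1 : Enc S E A1 a1) (_h2 : Enc S E A2 a2) (_h3 : Enc S E A3 a3) (_h4 : Enc S E A4 a4) (h5 : Enc S E A5 a5) (_h6 : Enc S E A6 a6) (_h7 : Enc S E A7 a7) : Enc S E (sl202_t12 A1 A2 A3 A4 A5 A6 A7) (sl202_v12 a1 a2 a3 a4 a5 a6 a7) := enc_neg (h5)

def sl202_t13 (_A1 _A2 _A3 _A4 _A5 A6 _A7 : TM) : TM := tneg (A6)

theorem sl202_h13 (_h1 : Enc S E A1 a1) (_h2 : Enc S E A2 a2) (_h3 : Enc S E A3 a3) (_h4 : Enc S E A4 a4) (_h5 : Enc S E A5 a5) (h6 : Enc S E A6 a6) (_h7 : Enc S E A7 a7) : Enc S E (sl202_t13 A1 A2 A3 A4 A5 A6 A7) (sl202_v13 a1 a2 a3 a4 a5 a6 a7) := enc_neg (h6)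

def sl202_t14 (_A1 _A2 _A3 _A4 _A5 _A6 A7 : TM) : TM := tneg (A7)

theorem sl202_h14 (_h1 : Enc S E A1 a1) (_h2 : Enc S E A2 a2) (_h3 : Enc S E A3 a3) (_h4 : Enc S E A4 a4) (_h5 : Enc S E A5 a5) (_h6 : Enc S E A6 a6) (h7 : Enc S E A7 a7) : Enc S E (sl202_t14 A1 A2 A3 A4 A5 A6 A7) (sl202_v14 a1 a2 a3 a4 a5 a6 a7) := enc_neg (h7)

def sl202_t15 (A1 A2 A3 A4 A5 A6 A7 : TM) : TM := starn_t (A1) (sl202_t9 A1 A2 A3 A4 A5 A6 A7) (A3) (sl202_t12 A1 A2 A3 A4 A5 A6 A7) (sl202_t13 A1 A2 A3 A4 A5 A6 A7) (sl202_t14 A1 A2 A3 A4 A5 A6 A7)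

theorem sl202_h15 (h1 : Enc S E A1 a1) (h2 : Enc S E A2 a2) (h3 : Enc S E A3 a3) (h4 : Enc S E A4 a4) (h5 : Enc S E A5 a5) (h6 : Enc S E A6 a6) (h7 : Enc S E A7 a7) : Enc S E (sl202_t15 A1 A2 A3 A4 A5 A6 A7) (sl202_v15 a1 a2 a3 a4 a5 a6 a7) := starn_enc (h1) (sl202_h9 h1 h2 h3 h4 h5 h6 h7) (h3) (sl202_h12 h1 h2 h3 h4 h5 h6 h7) (sl202_h13 h1 h2 h3 h4 h5 h6 h7) (sl202_h14 h1 h2 h3 h4 h5 h6 h7)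

def sl202_t (A1 A2 A3 A4 A5 A6 A7 : TM) : TM := sl202_t15 A1 A2 A3 A4 A5 A6 A7

theorem sl202_enc (h1 : Enc S E A1 a1) (h2 : Enc S E A2 a2) (h3 : Enc S E A3 a3) (h4 : Enc S E A4 a4) (h5 : Enc S E A5 a5) (h6 : Enc S E A6 a6) (h7 : Enc S E A7 a7) : Enc S E (sl202_t A1 A2 A3 A4 A5 A6 A7) (sl202_v a1 a2 a3 a4 a5 a6 a7) := sl202_h15 h1 h2 h3 h4 h5 h6 h7

def sl203_t7 (_A1 _A2 _A3 _A4 _A5 _A6 _A7 : TM) : TM := tconst 1859775393 0 1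

theorem sl203_h7 (_h1 : Enc S E A1 a1) (_h2 : Enc S E A2 a2) (_h3 : Enc S E A3 a3) (_h4 : Enc S E A4 a4) (_h5 : Enc S E A5 a5) (_h6 : Enc S E A6 a6) (_h7 : Enc S E A7 a7) : Enc S E (sl203_t7 A1 A2 A3 A4 A5 A6 A7) (sl203_v7 a1 a2 a3 a4 a5 a6 a7) := enc_sqrtn E (by decide) (by decide)

def sl203_t8 (A1 A2 A3 A4 A5 A6 A7 : TM) : TM := tscale 1 2 (sl203_t7 A1 A2 A3 A4 A5 A6 A7)

theorem sl203_h8 (h1 : Enc S E A1 a1) (h2 : Enc S E A2 a2) (h3 : Enc S E A3 a3) (h4 : Enc S E A4 a4) (h5 : Enc S E A5 a5) (h6 : Enc S E A6 a6) (h7 : Enc S E A7 a7) : Enc S E (sl203_t8 A1 A2 A3 A4 A5 A6 A7) (sl203_v8 a1 a2 a3 a4 a5 a6 a7) := enc_scale 1 (by norm_num) (sl203_h7 h1 h2 h3 h4 h5 h6 h7)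

def sl203_t9 (A1 A2 A3 A4 A5 A6 A7 : TM) : TM := tsub (A2) (sl203_t8 A1 A2 A3 A4 A5 A6 A7)

theorem sl203_h9 (h1 : Enc S E A1 a1) (h2 : Enc S E A2 a2) (h3 : Enc S E A3 a3) (h4 : Enc S E A4 a4) (h5 : Enc S E A5 a5) (h6 : Enc S E A6 a6) (h7 : Enc S E A7 a7) : Enc S E (sl203_t9 A1 A2 A3 A4 A5 A6 A7) (sl203_v9 a1 a2 a3 a4 a5 a6 a7) := enc_sub (h2) (sl203_h8 h1 h2 h3 h4 h5 h6 h7)

def sl203_t12 (A1 A2 A3 A4 A5 A6 A7 : TM) : TM := tsub (sl203_t7 A1 A2 A3 A4 A5 A6 A7) (A4)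

theorem sl203_h12 (h1 : Enc S E A1 a1) (h2 : Enc S E A2 a2) (h3 : Enc S E A3 a3) (h4 : Enc S E A4 a4) (h5 : Enc S E A5 a5) (h6 : Enc S E A6 a6) (h7 : Enc S E A7 a7) : Enc S E (sl203_t12 A1 A2 A3 A4 A5 A6 A7) (sl203_v12 a1 a2 a3 a4 a5 a6 a7) := enc_sub (sl203_h7 h1 h2 h3 h4 h5 h6 h7) (h4)

def sl203_t13 (_A1 _A2 _A3 _A4 A5 _A6 _A7 : TM) : TM := tneg (A5)

theorem sl203_h13 (_h1 : Enc S E A1 a1) (_h2 : Enc S E A2 a2) (_h3 : Enc S E A3 a3) (_h4 : Enc S E A4 a4) (h5 : Enc S E A5 a5) (_h6 : Enc S E A6 a6) (_h7 : Enc S E A7 a7) : Enc S E (sl203_t13 A1 A2 A3 A4 A5 A6 A7) (sl203_v13 a1 a2 a3 a4 a5 a6 a7) := enc_neg (h5)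

def sl203_t14 (_A1 _A2 _A3 _A4 _A5 A6 _A7 : TM) : TM := tneg (A6)

theorem sl203_h14 (_h1 : Enc S E A1 a1) (_h2 : Enc S E A2 a2) (_h3 : Enc S E A3 a3) (_h4 : Enc S E A4 a4) (_h5 : Enc S E A5 a5) (h6 : Enc S E A6 a6) (_h7 : Enc S E A7 a7) : Enc S E (sl203_t14 A1 A2 A3 A4 A5 A6 A7) (sl203_v14 a1 a2 a3 a4 a5 a6 a7) := enc_neg (h6)

def sl203_t15 (A1 A2 A3 A4 A5 A6 A7 : TM) : TM := starw_t (A1) (sl203_t9 A1 A2 A3 A4 A5 A6 A7) (A3) (sl203_t12 A1 A2 A3 A4 A5 A6 A7) (sl203_t13 A1 A2 A3 A4 A5 A6 A7) (sl203_t14 A1 A2 A3 A4 A5 A6 A7) (A7)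

theorem sl203_h15 (h1 : Enc S E A1 a1) (h2 : Enc S E A2 a2) (h3 : Enc S E A3 a3) (h4 : Enc S E A4 a4) (h5 : Enc S E A5 a5) (h6 : Enc S E A6 a6) (h7 : Enc S E A7 a7) : Enc S E (sl203_t15 A1 A2 A3 A4 A5 A6 A7) (sl203_v15 a1 a2 a3 a4 a5 a6 a7) := starw_enc (h1) (sl203_h9 h1 h2 h3 h4 h5 h6 h7) (h3) (sl203_h12 h1 h2 h3 h4 h5 h6 h7) (sl203_h13 h1 h2 h3 h4 h5 h6 h7) (sl203_h14 h1 h2 h3 h4 h5 h6 h7) (h7)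

def sl203_t (A1 A2 A3 A4 A5 A6 A7 : TM) : TM := sl203_t15 A1 A2 A3 A4 A5 A6 A7

theorem sl203_enc (h1 : Enc S E A1 a1) (h2 : Enc S E A2 a2) (h3 : Enc S E A3 a3) (h4 : Enc S E A4 a4) (h5 : Enc S E A5 a5) (h6 : Enc S E A6 a6) (h7 : Enc S E A7 a7) : Enc S E (sl203_t A1 A2 A3 A4 A5 A6 A7) (sl203_v a1 a2 a3 a4 a5 a6 a7) := sl203_h15 h1 h2 h3 h4 h5 h6 h7

def sl213_t7 (_A1 _A2 _A3 _A4 _A5 _A6 _A7 : TM) : TM := tconst 1859775393 0 1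

theorem sl213_h7 (_h1 : Enc S E A1 a1) (_h2 : Enc S E A2 a2) (_h3 : Enc S E A3 a3) (_h4 : Enc S E A4 a4) (_h5 : Enc S E A5 a5) (_h6 : Enc S E A6 a6) (_h7 : Enc S E A7 a7) : Enc S E (sl213_t7 A1 A2 A3 A4 A5 A6 A7) (sl213_v7 a1 a2 a3 a4 a5 a6 a7) := enc_sqrtn E (by decide) (by decide)

def sl213_t8 (A1 A2 A3 A4 A5 A6 A7 : TM) : TM := tscale 1 2 (sl213_t7 A1 A2 A3 A4 A5 A6 A7)

theorem sl213_h8 (h1 : Enc S E A1 a1) (h2 : Enc S E A2 a2) (h3 : Enc S E A3 a3) (h4 : Enc S E A4 a4) (h5 : Enc S E A5 a5) (h6 : Enc S E A6 a6) (h7 : Enc S E A7 a7) : Enc S E (sl213_t8 A1 A2 A3 A4 A5 A6 A7) (sl213_v8 a1 a2 a3 a4 a5 a6 a7) := enc_scale 1 (by norm_num) (sl213_h7 h1 h2 h3 h4 h5 h6 h7)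

def sl213_t9 (A1 A2 A3 A4 A5 A6 A7 : TM) : TM := tsub (A2) (sl213_t8 A1 A2 A3 A4 A5 A6 A7)

theorem sl213_h9 (h1 : Enc S E A1 a1) (h2 : Enc S E A2 a2) (h3 : Enc S E A3 a3) (h4 : Enc S E A4 a4) (h5 : Enc S E A5 a5) (h6 : Enc S E A6 a6) (h7 : Enc S E A7 a7) : Enc S E (sl213_t9 A1 A2 A3 A4 A5 A6 A7) (sl213_v9 a1 a2 a3 a4 a5 a6 a7) := enc_sub (h2) (sl213_h8 h1 h2 h3 h4 h5 h6 h7)

def sl213_t12 (A1 A2 A3 A4 A5 A6 A7 : TM) : TM := tsub (sl213_t7 A1 A2 A3 A4 A5 A6 A7) (A4)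

theorem sl213_h12 (h1 : Enc S E A1 a1) (h2 : Enc S E A2 a2) (h3 : Enc S E A3 a3) (h4 : Enc S E A4 a4) (h5 : Enc S E A5 a5) (h6 : Enc S E A6 a6) (h7 : Enc S E A7 a7) : Enc S E (sl213_t12 A1 A2 A3 A4 A5 A6 A7) (sl213_v12 a1 a2 a3 a4 a5 a6 a7) := enc_sub (sl213_h7 h1 h2 h3 h4 h5 h6 h7) (h4)

def sl213_t13 (_A1 _A2 _A3 _A4 A5 _A6 _A7 : TM) : TM := tneg (A5)

theorem sl213_h13 (_h1 : Enc S E A1 a1) (_h2 : Enc S E A2 a2) (_h3 : Enc S E A3 a3) (_h4 : Enc S E A4 a4) (h5 : Enc S E A5 a5) (_h6 : Enc S E A6 a6) (_h7 : Enc S E A7 a7) : Enc S E (sl213_t13 A1 A2 A3 A4 A5 A6 A7) (sl213_v13 a1 a2 a3 a4 a5 a6 a7) := enc_neg (h5)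

def sl213_t14 (A1 A2 A3 A4 A5 A6 A7 : TM) : TM := starn_t (A1) (sl213_t12 A1 A2 A3 A4 A5 A6 A7) (sl213_t9 A1 A2 A3 A4 A5 A6 A7) (A7) (sl213_t13 A1 A2 A3 A4 A5 A6 A7) (A6)

theorem sl213_h14 (h1 : Enc S E A1 a1) (h2 : Enc S E A2 a2) (h3 : Enc S E A3 a3) (h4 : Enc S E A4 a4) (h5 : Enc S E A5 a5) (h6 : Enc S E A6 a6) (h7 : Enc S E A7 a7) : Enc S E (sl213_t14 A1 A2 A3 A4 A5 A6 A7) (sl213_v14 a1 a2 a3 a4 a5 a6 a7) := starn_enc (h1) (sl213_h12 h1 h2 h3 h4 h5 h6 h7) (sl213_h9 h1 h2 h3 h4 h5 h6 h7) (h7) (sl213_h13 h1 h2 h3 h4 h5 h6 h7) (h6)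

def sl213_t (A1 A2 A3 A4 A5 A6 A7 : TM) : TM := sl213_t14 A1 A2 A3 A4 A5 A6 A7

theorem sl213_enc (h1 : Enc S E A1 a1) (h2 : Enc S E A2 a2) (h3 : Enc S E A3 a3) (h4 : Enc S E A4 a4) (h5 : Enc S E A5 a5) (h6 : Enc S E A6 a6) (h7 : Enc S E A7 a7) : Enc S E (sl213_t A1 A2 A3 A4 A5 A6 A7) (sl213_v a1 a2 a3 a4 a5 a6 a7) := sl213_h14 h1 h2 h3 h4 h5 h6 h7

def sl303_t7 (_A1 _A2 _A3 _A4 _A5 _A6 _A7 : TM) : TM := tconst 1859775393 0 1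

theorem sl303_h7 (_h1 : Enc S E A1 a1) (_h2 : Enc S E A2 a2) (_h3 : Enc S E A3 a3) (_h4 : Enc S E A4 a4) (_h5 : Enc S E A5 a5) (_h6 : Enc S E A6 a6) (_h7 : Enc S E A7 a7) : Enc S E (sl303_t7 A1 A2 A3 A4 A5 A6 A7) (sl303_v7 a1 a2 a3 a4 a5 a6 a7) := enc_sqrtn E (by decide) (by decide)

def sl303_t12 (A1 A2 A3 A4 A5 A6 A7 : TM) : TM := tsub (sl303_t7 A1 A2 A3 A4 A5 A6 A7) (A4)

theorem sl303_h12 (h1 : Enc S E A1 a1) (h2 : Enc S E A2 a2) (h3 : Enc S E A3 a3) (h4 : Enc S E A4 a4) (h5 : Enc S E A5 a5) (h6 : Enc S E A6 a6) (h7 : Enc S E A7 a7) : Enc S E (sl303_t12 A1 A2 A3 A4 A5 A6 A7) (sl303_v12 a1 a2 a3 a4 a5 a6 a7) := enc_sub (sl303_h7 h1 h2 h3 h4 h5 h6 h7) (h4)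

def sl303_t13 (_A1 _A2 _A3 _A4 _A5 A6 _A7 : TM) : TM := tneg (A6)

theorem sl303_h13 (_h1 : Enc S E A1 a1) (_h2 : Enc S E A2 a2) (_h3 : Enc S E A3 a3) (_h4 : Enc S E A4 a4) (_h5 : Enc S E A5 a5) (h6 : Enc S E A6 a6) (_h7 : Enc S E A7 a7) : Enc S E (sl303_t13 A1 A2 A3 A4 A5 A6 A7) (sl303_v13 a1 a2 a3 a4 a5 a6 a7) := enc_neg (h6)

def sl303_t14 (A1 A2 A3 A4 A5 A6 A7 : TM) : TM := starn_t (A1) (A3) (sl303_t12 A1 A2 A3 A4 A5 A6 A7) (sl303_t13 A1 A2 A3 A4 A5 A6 A7) (A7) (A5)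

theorem sl303_h14 (h1 : Enc S E A1 a1) (h2 : Enc S E A2 a2) (h3 : Enc S E A3 a3) (h4 : Enc S E A4 a4) (h5 : Enc S E A5 a5) (h6 : Enc S E A6 a6) (h7 : Enc S E A7 a7) : Enc S E (sl303_t14 A1 A2 A3 A4 A5 A6 A7) (sl303_v14 a1 a2 a3 a4 a5 a6 a7) := starn_enc (h1) (h3) (sl303_h12 h1 h2 h3 h4 h5 h6 h7) (sl303_h13 h1 h2 h3 h4 h5 h6 h7) (h7) (h5)

def sl303_t (A1 A2 A3 A4 A5 A6 A7 : TM) : TM := sl303_t14 A1 A2 A3 A4 A5 A6 A7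

theorem sl303_enc (h1 : Enc S E A1 a1) (h2 : Enc S E A2 a2) (h3 : Enc S E A3 a3) (h4 : Enc S E A4 a4) (h5 : Enc S E A5 a5) (h6 : Enc S E A6 a6) (h7 : Enc S E A7 a7) : Enc S E (sl303_t A1 A2 A3 A4 A5 A6 A7) (sl303_v a1 a2 a3 a4 a5 a6 a7) := sl303_h14 h1 h2 h3 h4 h5 h6 h7

def sl313_t7 (_A1 _A2 _A3 _A4 _A5 _A6 _A7 : TM) : TM := tconst 1859775393 0 1

theorem sl313_h7 (_h1 : Enc S E A1 a1) (_h2 : Enc S E A2 a2) (_h3 : Enc S E A3 a3) (_h4 : Enc S E A4 a4) (_h5 : Enc S E A5 a5) (_h6 : Enc S E A6 a6) (_h7 : Enc S E A7 a7) : Enc S E (sl313_t7 A1 A2 A3 A4 A5 A6 A7) (sl313_v7 a1 a2 a3 a4 a5 a6 a7) := enc_sqrtn E (by decide) (by decide)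

def sl313_t8 (A1 A2 A3 A4 A5 A6 A7 : TM) : TM := tscale 1 2 (sl313_t7 A1 A2 A3 A4 A5 A6 A7)

theorem sl313_h8 (h1 : Enc S E A1 a1) (h2 : Enc S E A2 a2) (h3 : Enc S E A3 a3) (h4 : Enc S E A4 a4) (h5 : Enc S E A5 a5) (h6 : Enc S E A6 a6) (h7 : Enc S E A7 a7) : Enc S E (sl313_t8 A1 A2 A3 A4 A5 A6 A7) (sl313_v8 a1 a2 a3 a4 a5 a6 a7) := enc_scale 1 (by norm_num) (sl313_h7 h1 h2 h3 h4 h5 h6 h7)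

def sl313_t11 (A1 A2 A3 A4 A5 A6 A7 : TM) : TM := tsub (A4) (sl313_t7 A1 A2 A3 A4 A5 A6 A7)

theorem sl313_h11 (h1 : Enc S E A1 a1) (h2 : Enc S E A2 a2) (h3 : Enc S E A3 a3) (h4 : Enc S E A4 a4) (h5 : Enc S E A5 a5) (h6 : Enc S E A6 a6) (h7 : Enc S E A7 a7) : Enc S E (sl313_t11 A1 A2 A3 A4 A5 A6 A7) (sl313_v11 a1 a2 a3 a4 a5 a6 a7) := enc_sub (h4) (sl313_h7 h1 h2 h3 h4 h5 h6 h7)

def sl313_t12 (A1 A2 A3 A4 A5 A6 A7 : TM) : TM := tsub (sl313_t8 A1 A2 A3 A4 A5 A6 A7) (A3)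

theorem sl313_h12 (h1 : Enc S E A1 a1) (h2 : Enc S E A2 a2) (h3 : Enc S E A3 a3) (h4 : Enc S E A4 a4) (h5 : Enc S E A5 a5) (h6 : Enc S E A6 a6) (h7 : Enc S E A7 a7) : Enc S E (sl313_t12 A1 A2 A3 A4 A5 A6 A7) (sl313_v12 a1 a2 a3 a4 a5 a6 a7) := enc_sub (sl313_h8 h1 h2 h3 h4 h5 h6 h7) (h3)

def sl313_t13 (A1 A2 A3 A4 A5 A6 A7 : TM) : TM := tsub (sl313_t7 A1 A2 A3 A4 A5 A6 A7) (A2)

theorem sl313_h13 (h1 : Enc S E A1 a1) (h2 : Enc S E A2 a2) (h3 : Enc S E A3 a3) (h4 : Enc S E A4 a4) (h5 : Enc S E A5 a5) (h6 : Enc S E A6 a6) (h7 : Enc S E A7 a7) : Enc S E (sl313_t13 A1 A2 A3 A4 A5 A6 A7) (sl313_v13 a1 a2 a3 a4 a5 a6 a7) := enc_sub (sl313_h7 h1 h2 h3 h4 h5 h6 h7) (h2)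

def sl313_t14 (_A1 _A2 _A3 _A4 _A5 A6 _A7 : TM) : TM := tneg (A6)

theorem sl313_h14 (_h1 : Enc S E A1 a1) (_h2 : Enc S E A2 a2) (_h3 : Enc S E A3 a3) (_h4 : Enc S E A4 a4) (_h5 : Enc S E A5 a5) (h6 : Enc S E A6 a6) (_h7 : Enc S E A7 a7) : Enc S E (sl313_t14 A1 A2 A3 A4 A5 A6 A7) (sl313_v14 a1 a2 a3 a4 a5 a6 a7) := enc_neg (h6)

def sl313_t15 (_A1 _A2 _A3 _A4 A5 _A6 _A7 : TM) : TM := tneg (A5)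

theorem sl313_h15 (_h1 : Enc S E A1 a1) (_h2 : Enc S E A2 a2) (_h3 : Enc S E A3 a3) (_h4 : Enc S E A4 a4) (h5 : Enc S E A5 a5) (_h6 : Enc S E A6 a6) (_h7 : Enc S E A7 a7) : Enc S E (sl313_t15 A1 A2 A3 A4 A5 A6 A7) (sl313_v15 a1 a2 a3 a4 a5 a6 a7) := enc_neg (h5)

def sl313_t16 (A1 A2 A3 A4 A5 A6 A7 : TM) : TM := starw_t (A1) (sl313_t11 A1 A2 A3 A4 A5 A6 A7) (sl313_t12 A1 A2 A3 A4 A5 A6 A7) (sl313_t13 A1 A2 A3 A4 A5 A6 A7) (A7) (sl313_t14 A1 A2 A3 A4 A5 A6 A7) (sl313_t15 A1 A2 A3 A4 A5 A6 A7)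

theorem sl313_h16 (h1 : Enc S E A1 a1) (h2 : Enc S E A2 a2) (h3 : Enc S E A3 a3) (h4 : Enc S E A4 a4) (h5 : Enc S E A5 a5) (h6 : Enc S E A6 a6) (h7 : Enc S E A7 a7) : Enc S E (sl313_t16 A1 A2 A3 A4 A5 A6 A7) (sl313_v16 a1 a2 a3 a4 a5 a6 a7) := starw_enc (h1) (sl313_h11 h1 h2 h3 h4 h5 h6 h7) (sl313_h12 h1 h2 h3 h4 h5 h6 h7) (sl313_h13 h1 h2 h3 h4 h5 h6 h7) (h7) (sl313_h14 h1 h2 h3 h4 h5 h6 h7) (sl313_h15 h1 h2 h3 h4 h5 h6 h7)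

def sl313_t (A1 A2 A3 A4 A5 A6 A7 : TM) : TM := sl313_t16 A1 A2 A3 A4 A5 A6 A7

theorem sl313_enc (h1 : Enc S E A1 a1) (h2 : Enc S E A2 a2) (h3 : Enc S E A3 a3) (h4 : Enc S E A4 a4) (h5 : Enc S E A5 a5) (h6 : Enc S E A6 a6) (h7 : Enc S E A7 a7) : Enc S E (sl313_t A1 A2 A3 A4 A5 A6 A7) (sl313_v a1 a2 a3 a4 a5 a6 a7) := sl313_h16 h1 h2 h3 h4 h5 h6 h7

end Pool.Agent.Strip051.LB.Fn.F2
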