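import Pool.Agent.Strip051.LC.Line.Modulus

/-! # LINE functions: real functions -/

namespace Pool.Agent.Strip051.LB.Fn

noncomputable def c1f_v1 (a1 : ℝ) : ℝ := (a1) ^ 2

noncomputable def c1f_v2 (_a1 : ℝ) : ℝ := ((1 : ℕ) : ℝ)

noncomputable def c1f_v3 (a1 : ℝ) : ℝ := c1f_v2 a1 - c1f_v1 a1

noncomputable def c1f_v4 (a1 : ℝ) : ℝ := Real.sqrt (c1f_v3 a1)

noncomputable def c1f_v (a1 : ℝ) : ℝ := c1f_v4 a1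

noncomputable def c3f_v1 (a1 : ℝ) : ℝ := (a1) ^ 2

noncomputable def c3f_v2 (_a1 : ℝ) : ℝ := ((3 : ℕ) : ℝ)

noncomputable def c3f_v3 (a1 : ℝ) : ℝ := c3f_v2 a1 - c3f_v1 a1

noncomputable def c3f_v4 (a1 : ℝ) : ℝ := Real.sqrt (c3f_v3 a1)

noncomputable def c3f_v (a1 : ℝ) : ℝ := c3f_v4 a1

noncomputable def sw_v1 (_a1 : ℝ) : ℝ := Real.sqrt ((3 : ℕ) : ℝ)

noncomputable def sw_v2 (a1 : ℝ) : ℝ := ((1 : ℕ) : ℝ) / ((2 : ℕ) : ℝ) * sw_v1 a1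

noncomputable def sw_v3 (a1 : ℝ) : ℝ := a1 - sw_v2 a1

noncomputable def sw_v4 (a1 : ℝ) : ℝ := (sw_v3 a1) ^ 2

noncomputable def sw_v5 (_a1 : ℝ) : ℝ := ((1 : ℕ) : ℝ)

noncomputable def sw_v6 (a1 : ℝ) : ℝ := sw_v5 a1 - sw_v4 a1

noncomputable def sw_v7 (a1 : ℝ) : ℝ := Real.sqrt (sw_v6 a1)

noncomputable def sw_v (a1 : ℝ) : ℝ := sw_v7 a1

noncomputable def f1m_v1 (a1 : ℝ) : ℝ := c1f_v (a1)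

noncomputable def f1m_v2 (a1 : ℝ) : ℝ := sw_v (a1)

noncomputable def f1m_v3 (a1 : ℝ) : ℝ := f1m_v1 a1 + f1m_v2 a1

noncomputable def f1m_v4 (_a1 : ℝ) : ℝ := ((1 : ℕ) : ℝ) / ((2 : ℕ) : ℝ)

noncomputable def f1m_v5 (a1 : ℝ) : ℝ := f1m_v3 a1 + f1m_v4 a1

noncomputable def f1m_v6 (a1 : ℝ) : ℝ := ((1 : ℕ) : ℝ) / ((2 : ℕ) : ℝ) * f1m_v5 a1

noncomputable def f1m_v (a1 : ℝ) : ℝ := f1m_v6 a1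

noncomputable def f1p_v1 (a1 : ℝ) : ℝ := c1f_v (a1)

noncomputable def f1p_v2 (a1 : ℝ) : ℝ := sw_v (a1)

noncomputable def f1p_v3 (a1 : ℝ) : ℝ := f1p_v1 a1 + f1p_v2 a1

noncomputable def f1p_v4 (_a1 : ℝ) : ℝ := ((1 : ℕ) : ℝ) / ((2 : ℕ) : ℝ)

noncomputable def f1p_v5 (a1 : ℝ) : ℝ := f1p_v3 a1 - f1p_v4 a1

noncomputable def f1p_v6 (a1 : ℝ) : ℝ := ((1 : ℕ) : ℝ) / ((2 : ℕ) : ℝ) * f1p_v5 a1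

noncomputable def f1p_v (a1 : ℝ) : ℝ := f1p_v6 a1

noncomputable def f2m_v1 (a1 : ℝ) : ℝ := sw_v (a1)

noncomputable def f2m_v2 (_a1 : ℝ) : ℝ := ((1 : ℕ) : ℝ) / ((2 : ℕ) : ℝ)

noncomputable def f2m_v3 (a1 : ℝ) : ℝ := f2m_v1 a1 + f2m_v2 a1

noncomputable def f2m_v4 (a1 : ℝ) : ℝ := c3f_v (a1)

noncomputable def f2m_v5 (a1 : ℝ) : ℝ := f2m_v3 a1 + f2m_v4 a1

noncomputable def f2m_v6 (a1 : ℝ) : ℝ := ((1 : ℕ) : ℝ) / ((2 : ℕ) : ℝ) * f2m_v5 a1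

noncomputable def f2m_v (a1 : ℝ) : ℝ := f2m_v6 a1

noncomputable def f2p_v1 (a1 : ℝ) : ℝ := sw_v (a1)

noncomputable def f2p_v2 (_a1 : ℝ) : ℝ := ((1 : ℕ) : ℝ) / ((2 : ℕ) : ℝ)

noncomputable def f2p_v3 (a1 : ℝ) : ℝ := f2p_v1 a1 - f2p_v2 a1

noncomputable def f2p_v4 (a1 : ℝ) : ℝ := c3f_v (a1)

noncomputable def f2p_v5 (a1 : ℝ) : ℝ := f2p_v3 a1 + f2p_v4 a1

noncomputable def f2p_v6 (a1 : ℝ) : ℝ := ((1 : ℕ) : ℝ) / ((2 : ℕ) : ℝ) * f2p_v5 a1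

noncomputable def f2p_v (a1 : ℝ) : ℝ := f2p_v6 a1

noncomputable def a1q0_v1 (a1 : ℝ) : ℝ := c1f_v (a1)

noncomputable def a1q0_v2 (_a1 : ℝ) : ℝ := Real.sqrt ((3 : ℕ) : ℝ)

noncomputable def a1q0_v3 (a1 : ℝ) : ℝ := a1q0_v2 a1 * a1

noncomputable def a1q0_v4 (a1 : ℝ) : ℝ := a1q0_v1 a1 - a1q0_v3 a1

noncomputable def a1q0_v5 (_a1 : ℝ) : ℝ := ((1 : ℕ) : ℝ)

noncomputable def a1q0_v6 (a1 : ℝ) : ℝ := a1q0_v5 a1 + a1q0_v1 a1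

noncomputable def a1q0_v7 (a1 : ℝ) : ℝ := a1q0_v4 a1 * a1q0_v6 a1

noncomputable def a1q0_v8 (a1 : ℝ) : ℝ := a1q0_v6 a1 - a1q0_v3 a1

noncomputable def a1q0_v9 (a1 : ℝ) : ℝ := (a1q0_v8 a1)⁻¹

noncomputable def a1q0_v10 (a1 : ℝ) : ℝ := a1q0_v7 a1 * a1q0_v9 a1

noncomputable def a1q0_v (a1 : ℝ) : ℝ := a1q0_v10 a1

noncomputable def a1q1_v1 (a1 : ℝ) : ℝ := c1f_v (a1)

noncomputable def a1q1_v2 (_a1 : ℝ) : ℝ := Real.sqrt ((3 : ℕ) : ℝ)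

noncomputable def a1q1_v3 (a1 : ℝ) : ℝ := ((2 : ℕ) : ℝ) * a1q1_v1 a1

noncomputable def a1q1_v4 (_a1 : ℝ) : ℝ := ((1 : ℕ) : ℝ)

noncomputable def a1q1_v5 (a1 : ℝ) : ℝ := a1q1_v4 a1 + a1q1_v3 a1

noncomputable def a1q1_v6 (a1 : ℝ) : ℝ := a1q1_v2 a1 * a1

noncomputable def a1q1_v7 (a1 : ℝ) : ℝ := a1q1_v6 a1 - a1q1_v1 a1

noncomputable def a1q1_v8 (a1 : ℝ) : ℝ := a1q1_v5 a1 * a1q1_v7 a1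

noncomputable def a1q1_v9 (a1 : ℝ) : ℝ := a1q1_v4 a1 + a1q1_v6 a1

noncomputable def a1q1_v10 (a1 : ℝ) : ℝ := a1q1_v9 a1 - a1q1_v1 a1

noncomputable def a1q1_v11 (a1 : ℝ) : ℝ := ((2 : ℕ) : ℝ) * a1q1_v10 a1

noncomputable def a1q1_v12 (a1 : ℝ) : ℝ := (a1q1_v11 a1)⁻¹

noncomputable def a1q1_v13 (a1 : ℝ) : ℝ := a1q1_v8 a1 * a1q1_v12 a1

noncomputable def a1q1_v (a1 : ℝ) : ℝ := a1q1_v13 a1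

noncomputable def a3q0_v1 (a1 : ℝ) : ℝ := c3f_v (a1)

noncomputable def a3q0_v2 (_a1 : ℝ) : ℝ := Real.sqrt ((3 : ℕ) : ℝ)

noncomputable def a3q0_v3 (a1 : ℝ) : ℝ := ((1 : ℕ) : ℝ) / ((2 : ℕ) : ℝ) * a3q0_v2 a1

noncomputable def a3q0_v4 (a1 : ℝ) : ℝ := (a1) ^ 2

noncomputable def a3q0_v5 (_a1 : ℝ) : ℝ := ((3 : ℕ) : ℝ) / ((2 : ℕ) : ℝ)

noncomputable def a3q0_v6 (a1 : ℝ) : ℝ := a3q0_v1 a1 + a3q0_v5 a1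

noncomputable def a3q0_v7 (a1 : ℝ) : ℝ := a3q0_v4 a1 * a3q0_v6 a1

noncomputable def a3q0_v8 (a1 : ℝ) : ℝ := a3q0_v3 a1 - a1

noncomputable def a3q0_v9 (a1 : ℝ) : ℝ := a3q0_v3 a1 + a1

noncomputable def a3q0_v10 (a1 : ℝ) : ℝ := a3q0_v8 a1 * a3q0_v9 a1

noncomputable def a3q0_v11 (a1 : ℝ) : ℝ := (a3q0_v10 a1)⁻¹

noncomputable def a3q0_v12 (a1 : ℝ) : ℝ := a3q0_v7 a1 * a3q0_v11 a1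

noncomputable def a3q0_v13 (a1 : ℝ) : ℝ := -(a3q0_v12 a1)

noncomputable def a3q0_v (a1 : ℝ) : ℝ := a3q0_v13 a1

noncomputable def a3q1_v1 (a1 : ℝ) : ℝ := c3f_v (a1)

noncomputable def a3q1_v2 (_a1 : ℝ) : ℝ := Real.sqrt ((3 : ℕ) : ℝ)

noncomputable def a3q1_v3 (a1 : ℝ) : ℝ := ((1 : ℕ) : ℝ) / ((2 : ℕ) : ℝ) * a3q1_v2 a1

noncomputable def a3q1_v4 (_a1 : ℝ) : ℝ := ((3 : ℕ) : ℝ) / ((2 : ℕ) : ℝ)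

noncomputable def a3q1_v5 (a1 : ℝ) : ℝ := a3q1_v1 a1 + a3q1_v4 a1

noncomputable def a3q1_v6 (a1 : ℝ) : ℝ := a1 * a3q1_v5 a1

noncomputable def a3q1_v7 (a1 : ℝ) : ℝ := a3q1_v3 a1 + a1

noncomputable def a3q1_v8 (a1 : ℝ) : ℝ := (a3q1_v7 a1)⁻¹

noncomputable def a3q1_v9 (a1 : ℝ) : ℝ := a3q1_v6 a1 * a3q1_v8 a1

noncomputable def a3q1_v (a1 : ℝ) : ℝ := a3q1_v9 a1

noncomputable def a3q2_v1 (a1 : ℝ) : ℝ := c3f_v (a1)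

noncomputable def a3q2_v2 (_a1 : ℝ) : ℝ := Real.sqrt ((3 : ℕ) : ℝ)

noncomputable def a3q2_v4 (a1 : ℝ) : ℝ := a3q2_v2 a1 * a3q2_v1 a1

noncomputable def a3q2_v5 (a1 : ℝ) : ℝ := a3q2_v4 a1 - a1

noncomputable def a3q2_v6 (_a1 : ℝ) : ℝ := ((3 : ℕ) : ℝ)

noncomputable def a3q2_v7 (a1 : ℝ) : ℝ := a3q2_v1 a1 + a3q2_v6 a1

noncomputable def a3q2_v8 (a1 : ℝ) : ℝ := a3q2_v2 a1 * a1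

noncomputable def a3q2_v9 (a1 : ℝ) : ℝ := a3q2_v7 a1 - a3q2_v8 a1

noncomputable def a3q2_v10 (a1 : ℝ) : ℝ := a3q2_v5 a1 * a3q2_v9 a1

noncomputable def a3q2_v11 (a1 : ℝ) : ℝ := a3q2_v2 a1 - a1

noncomputable def a3q2_v12 (a1 : ℝ) : ℝ := ((4 : ℕ) : ℝ) * a3q2_v11 a1

noncomputable def a3q2_v13 (a1 : ℝ) : ℝ := (a3q2_v12 a1)⁻¹

noncomputable def a3q2_v14 (a1 : ℝ) : ℝ := a3q2_v10 a1 * a3q2_v13 a1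

noncomputable def a3q2_v (a1 : ℝ) : ℝ := a3q2_v14 a1

noncomputable def a3q3_v1 (a1 : ℝ) : ℝ := c3f_v (a1)

noncomputable def a3q3_v2 (_a1 : ℝ) : ℝ := Real.sqrt ((3 : ℕ) : ℝ)

noncomputable def a3q3_v3 (a1 : ℝ) : ℝ := ((1 : ℕ) : ℝ) / ((2 : ℕ) : ℝ) * a3q3_v2 a1

noncomputable def a3q3_v4 (a1 : ℝ) : ℝ := a3q3_v2 a1 * a3q3_v1 a1

noncomputable def a3q3_v5 (a1 : ℝ) : ℝ := a3q3_v4 a1 - a1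

noncomputable def a3q3_v6 (_a1 : ℝ) : ℝ := ((3 : ℕ) : ℝ)

noncomputable def a3q3_v7 (a1 : ℝ) : ℝ := a3q3_v1 a1 + a3q3_v6 a1

noncomputable def a3q3_v8 (a1 : ℝ) : ℝ := a3q3_v2 a1 * a1

noncomputable def a3q3_v9 (a1 : ℝ) : ℝ := a3q3_v7 a1 - a3q3_v8 a1

noncomputable def a3q3_v10 (a1 : ℝ) : ℝ := a3q3_v5 a1 * a3q3_v9 a1

noncomputable def a3q3_v11 (a1 : ℝ) : ℝ := a1 - a3q3_v3 a1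

noncomputable def a3q3_v12 (a1 : ℝ) : ℝ := ((4 : ℕ) : ℝ) * a3q3_v11 a1

noncomputable def a3q3_v13 (a1 : ℝ) : ℝ := (a3q3_v12 a1)⁻¹

noncomputable def a3q3_v14 (a1 : ℝ) : ℝ := a3q3_v10 a1 * a3q3_v13 a1

noncomputable def a3q3_v15 (a1 : ℝ) : ℝ := -(a3q3_v14 a1)

noncomputable def a3q3_v (a1 : ℝ) : ℝ := a3q3_v15 a1

noncomputable def b1q0_v1 (a1 : ℝ) : ℝ := ((4 : ℕ) : ℝ) * a1

noncomputable def b1q0_v2 (_a1 : ℝ) : ℝ := Real.sqrt ((3 : ℕ) : ℝ)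

noncomputable def b1q0_v3 (a1 : ℝ) : ℝ := ((1 : ℕ) : ℝ) / ((2 : ℕ) : ℝ) * b1q0_v2 a1

noncomputable def b1q0_v4 (a1 : ℝ) : ℝ := b1q0_v1 a1 - b1q0_v3 a1

noncomputable def b1q0_v5 (a1 : ℝ) : ℝ := a1 * b1q0_v2 a1

noncomputable def b1q0_v6 (a1 : ℝ) : ℝ := ((298 : ℕ) : ℝ) / ((375 : ℕ) : ℝ) * b1q0_v5 a1

noncomputable def b1q0_v8 (_a1 : ℝ) : ℝ := ((1 : ℕ) : ℝ)

noncomputable def b1q0_v9 (a1 : ℝ) : ℝ := b1q0_v8 a1 - b1q0_v6 a1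

noncomputable def b1q0_v10 (a1 : ℝ) : ℝ := ((83 : ℕ) : ℝ) / ((375 : ℕ) : ℝ) * b1q0_v5 a1

noncomputable def b1q0_v12 (_a1 : ℝ) : ℝ := ((157 : ℕ) : ℝ) / ((200 : ℕ) : ℝ)

noncomputable def b1q0_v13 (a1 : ℝ) : ℝ := b1q0_v12 a1 - b1q0_v10 a1

noncomputable def b1q0_v14 (a1 : ℝ) : ℝ := if b1q0_v4 a1 ≤ 0 then b1q0_v9 a1 else b1q0_v13 a1

noncomputable def b1q0_v (a1 : ℝ) : ℝ := b1q0_v14 a1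

noncomputable def b1q1_v1 (_a1 : ℝ) : ℝ := Real.sqrt ((3 : ℕ) : ℝ)

noncomputable def b1q1_v2 (a1 : ℝ) : ℝ := a1 * b1q1_v1 a1

noncomputable def b1q1_v3 (a1 : ℝ) : ℝ := ((142 : ℕ) : ℝ) / ((75 : ℕ) : ℝ) * b1q1_v2 a1

noncomputable def b1q1_v4 (_a1 : ℝ) : ℝ := ((79 : ℕ) : ℝ) / ((40 : ℕ) : ℝ)

noncomputable def b1q1_v6 (a1 : ℝ) : ℝ := b1q1_v3 a1 - b1q1_v4 a1

noncomputable def b1q1_v (a1 : ℝ) : ℝ := b1q1_v6 a1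

noncomputable def b1q2_v1 (_a1 : ℝ) : ℝ := Real.sqrt ((3 : ℕ) : ℝ)

noncomputable def b1q2_v2 (a1 : ℝ) : ℝ := a1 * b1q2_v1 a1

noncomputable def b1q2_v3 (a1 : ℝ) : ℝ := ((98 : ℕ) : ℝ) / ((375 : ℕ) : ℝ) * b1q2_v2 a1

noncomputable def b1q2_v5 (_a1 : ℝ) : ℝ := ((174 : ℕ) : ℝ) / ((125 : ℕ) : ℝ)

noncomputable def b1q2_v6 (a1 : ℝ) : ℝ := b1q2_v5 a1 - b1q2_v3 a1

noncomputable def b1q2_v8 (_a1 : ℝ) : ℝ := ((1 : ℕ) : ℝ)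

noncomputable def b1q2_v9 (a1 : ℝ) : ℝ := a1 - b1q2_v8 a1

noncomputable def b1q2_v10 (a1 : ℝ) : ℝ := ((49 : ℕ) : ℝ) / ((1000 : ℕ) : ℝ) * b1q2_v9 a1

noncomputable def b1q2_v11 (a1 : ℝ) : ℝ := ((9 : ℕ) : ℝ) / ((16 : ℕ) : ℝ) * b1q2_v1 a1

noncomputable def b1q2_v12 (a1 : ℝ) : ℝ := b1q2_v8 a1 - b1q2_v11 a1

noncomputable def b1q2_v13 (a1 : ℝ) : ℝ := (b1q2_v12 a1)⁻¹

noncomputable def b1q2_v14 (a1 : ℝ) : ℝ := b1q2_v10 a1 * b1q2_v13 a1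

noncomputable def b1q2_v15 (a1 : ℝ) : ℝ := b1q2_v8 a1 + b1q2_v14 a1

noncomputable def b1q2_v16 (a1 : ℝ) : ℝ := ((1033 : ℕ) : ℝ) / ((1000 : ℕ) : ℝ) * b1q2_v9 a1

noncomputable def b1q2_v18 (a1 : ℝ) : ℝ := ((3 : ℕ) : ℝ) / ((4 : ℕ) : ℝ) * b1q2_v1 a1

noncomputable def b1q2_v19 (a1 : ℝ) : ℝ := b1q2_v18 a1 - b1q2_v8 a1

noncomputable def b1q2_v20 (a1 : ℝ) : ℝ := (b1q2_v19 a1)⁻¹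

noncomputable def b1q2_v21 (a1 : ℝ) : ℝ := b1q2_v16 a1 * b1q2_v20 a1

noncomputable def b1q2_v23 (a1 : ℝ) : ℝ := b1q2_v8 a1 - b1q2_v21 a1

noncomputable def b1q2_v24 (a1 : ℝ) : ℝ := a1 - b1q2_v11 a1

noncomputable def b1q2_v25 (a1 : ℝ) : ℝ := if b1q2_v24 a1 ≤ 0 then b1q2_v6 a1 else b1q2_v15 a1

noncomputable def b1q2_v26 (a1 : ℝ) : ℝ := if b1q2_v9 a1 ≤ 0 then b1q2_v25 a1 else b1q2_v23 a1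

noncomputable def b1q2_v (a1 : ℝ) : ℝ := b1q2_v26 a1

noncomputable def b1q3_v1 (_a1 : ℝ) : ℝ := Real.sqrt ((3 : ℕ) : ℝ)

noncomputable def b1q3_v2 (a1 : ℝ) : ℝ := a1 * b1q3_v1 a1

noncomputable def b1q3_v3 (a1 : ℝ) : ℝ := ((101 : ℕ) : ℝ) / ((75 : ℕ) : ℝ) * b1q3_v2 a1

noncomputable def b1q3_v4 (_a1 : ℝ) : ℝ := ((2571 : ℕ) : ℝ) / ((1000 : ℕ) : ℝ)

noncomputable def b1q3_v6 (a1 : ℝ) : ℝ := b1q3_v3 a1 - b1q3_v4 a1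

noncomputable def b1q3_v (a1 : ℝ) : ℝ := b1q3_v6 a1

noncomputable def b2q0_v1 (a1 : ℝ) : ℝ := ((4 : ℕ) : ℝ) * a1

noncomputable def b2q0_v2 (_a1 : ℝ) : ℝ := Real.sqrt ((3 : ℕ) : ℝ)

noncomputable def b2q0_v3 (a1 : ℝ) : ℝ := ((1 : ℕ) : ℝ) / ((2 : ℕ) : ℝ) * b2q0_v2 a1

noncomputable def b2q0_v4 (a1 : ℝ) : ℝ := b2q0_v1 a1 - b2q0_v3 a1

noncomputable def b2q0_v5 (a1 : ℝ) : ℝ := a1 * b2q0_v2 a1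

noncomputable def b2q0_v6 (a1 : ℝ) : ℝ := ((96 : ℕ) : ℝ) / ((125 : ℕ) : ℝ) * b2q0_v5 a1

noncomputable def b2q0_v8 (_a1 : ℝ) : ℝ := ((51 : ℕ) : ℝ) / ((100 : ℕ) : ℝ)

noncomputable def b2q0_v9 (a1 : ℝ) : ℝ := b2q0_v8 a1 - b2q0_v6 a1

noncomputable def b2q0_v10 (a1 : ℝ) : ℝ := ((173 : ℕ) : ℝ) / ((75 : ℕ) : ℝ) * b2q0_v5 a1

noncomputable def b2q0_v12 (_a1 : ℝ) : ℝ := ((1087 : ℕ) : ℝ) / ((1000 : ℕ) : ℝ)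

noncomputable def b2q0_v13 (a1 : ℝ) : ℝ := b2q0_v12 a1 - b2q0_v10 a1

noncomputable def b2q0_v14 (a1 : ℝ) : ℝ := if b2q0_v4 a1 ≤ 0 then b2q0_v9 a1 else b2q0_v13 a1

noncomputable def b2q0_v (a1 : ℝ) : ℝ := b2q0_v14 a1

noncomputable def b2q1_v1 (_a1 : ℝ) : ℝ := Real.sqrt ((3 : ℕ) : ℝ)

noncomputable def b2q1_v2 (a1 : ℝ) : ℝ := a1 * b2q1_v1 a1

noncomputable def b2q1_v3 (a1 : ℝ) : ℝ := ((167 : ℕ) : ℝ) / ((375 : ℕ) : ℝ) * b2q1_v2 a1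

noncomputable def b2q1_v4 (_a1 : ℝ) : ℝ := ((83 : ℕ) : ℝ) / ((250 : ℕ) : ℝ)

noncomputable def b2q1_v5 (a1 : ℝ) : ℝ := b2q1_v3 a1 + b2q1_v4 a1

noncomputable def b2q1_v (a1 : ℝ) : ℝ := b2q1_v5 a1

noncomputable def b2q2_v1 (_a1 : ℝ) : ℝ := Real.sqrt ((3 : ℕ) : ℝ)

noncomputable def b2q2_v2 (a1 : ℝ) : ℝ := a1 * b2q2_v1 a1

noncomputable def b2q2_v3 (a1 : ℝ) : ℝ := ((26 : ℕ) : ℝ) / ((75 : ℕ) : ℝ) * b2q2_v2 a1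

noncomputable def b2q2_v5 (_a1 : ℝ) : ℝ := ((1399 : ℕ) : ℝ) / ((1000 : ℕ) : ℝ)

noncomputable def b2q2_v6 (a1 : ℝ) : ℝ := b2q2_v5 a1 - b2q2_v3 a1

noncomputable def b2q2_v8 (_a1 : ℝ) : ℝ := ((767 : ℕ) : ℝ) / ((1000 : ℕ) : ℝ)

noncomputable def b2q2_v9 (_a1 : ℝ) : ℝ := ((1 : ℕ) : ℝ)

noncomputable def b2q2_v10 (a1 : ℝ) : ℝ := a1 - b2q2_v9 a1

noncomputable def b2q2_v11 (a1 : ℝ) : ℝ := ((47 : ℕ) : ℝ) / ((1000 : ℕ) : ℝ) * b2q2_v10 a1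

noncomputable def b2q2_v13 (a1 : ℝ) : ℝ := ((9 : ℕ) : ℝ) / ((16 : ℕ) : ℝ) * b2q2_v1 a1

noncomputable def b2q2_v14 (a1 : ℝ) : ℝ := b2q2_v9 a1 - b2q2_v13 a1

noncomputable def b2q2_v15 (a1 : ℝ) : ℝ := (b2q2_v14 a1)⁻¹

noncomputable def b2q2_v16 (a1 : ℝ) : ℝ := b2q2_v11 a1 * b2q2_v15 a1

noncomputable def b2q2_v18 (a1 : ℝ) : ℝ := b2q2_v8 a1 - b2q2_v16 a1

noncomputable def b2q2_v19 (a1 : ℝ) : ℝ := ((323 : ℕ) : ℝ) / ((1000 : ℕ) : ℝ) * b2q2_v10 a1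

noncomputable def b2q2_v21 (a1 : ℝ) : ℝ := ((3 : ℕ) : ℝ) / ((4 : ℕ) : ℝ) * b2q2_v1 a1

noncomputable def b2q2_v22 (a1 : ℝ) : ℝ := b2q2_v21 a1 - b2q2_v9 a1

noncomputable def b2q2_v23 (a1 : ℝ) : ℝ := (b2q2_v22 a1)⁻¹

noncomputable def b2q2_v24 (a1 : ℝ) : ℝ := b2q2_v19 a1 * b2q2_v23 a1

noncomputable def b2q2_v26 (a1 : ℝ) : ℝ := b2q2_v8 a1 - b2q2_v24 a1

noncomputable def b2q2_v27 (a1 : ℝ) : ℝ := a1 - b2q2_v13 a1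

noncomputable def b2q2_v28 (a1 : ℝ) : ℝ := if b2q2_v27 a1 ≤ 0 then b2q2_v6 a1 else b2q2_v18 a1

noncomputable def b2q2_v29 (a1 : ℝ) : ℝ := if b2q2_v10 a1 ≤ 0 then b2q2_v28 a1 else b2q2_v26 a1

noncomputable def b2q2_v (a1 : ℝ) : ℝ := b2q2_v29 a1

noncomputable def b2q3_v1 (_a1 : ℝ) : ℝ := Real.sqrt ((3 : ℕ) : ℝ)

noncomputable def b2q3_v2 (a1 : ℝ) : ℝ := a1 * b2q3_v1 a1

noncomputable def b2q3_v3 (a1 : ℝ) : ℝ := ((163 : ℕ) : ℝ) / ((125 : ℕ) : ℝ) * b2q3_v2 a1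

noncomputable def b2q3_v4 (_a1 : ℝ) : ℝ := ((853 : ℕ) : ℝ) / ((250 : ℕ) : ℝ)

noncomputable def b2q3_v6 (a1 : ℝ) : ℝ := b2q3_v3 a1 - b2q3_v4 a1

noncomputable def b2q3_v (a1 : ℝ) : ℝ := b2q3_v6 a1

noncomputable def v1q0_v1 (a1 : ℝ) : ℝ := f1m_v (a1)

noncomputable def v1q0_v2 (a1 : ℝ) : ℝ := b1q0_v (a1)

noncomputable def v1q0_v3 (a1 : ℝ) : ℝ := v1q0_v1 a1 * v1q0_v2 a1

noncomputable def v1q0_v (a1 : ℝ) : ℝ := v1q0_v3 a1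

noncomputable def v1q1_v1 (a1 : ℝ) : ℝ := f1m_v (a1)

noncomputable def v1q1_v2 (a1 : ℝ) : ℝ := b1q1_v (a1)

noncomputable def v1q1_v3 (a1 : ℝ) : ℝ := v1q1_v1 a1 * v1q1_v2 a1

noncomputable def v1q1_v (a1 : ℝ) : ℝ := v1q1_v3 a1

noncomputable def v1q2_v1 (a1 : ℝ) : ℝ := f1p_v (a1)

noncomputable def v1q2_v2 (a1 : ℝ) : ℝ := b1q2_v (a1)

noncomputable def v1q2_v3 (a1 : ℝ) : ℝ := v1q2_v1 a1 * v1q2_v2 a1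

noncomputable def v1q2_v (a1 : ℝ) : ℝ := v1q2_v3 a1

noncomputable def v1q3_v1 (a1 : ℝ) : ℝ := f1p_v (a1)

noncomputable def v1q3_v2 (a1 : ℝ) : ℝ := b1q3_v (a1)

noncomputable def v1q3_v3 (a1 : ℝ) : ℝ := v1q3_v1 a1 * v1q3_v2 a1

noncomputable def v1q3_v (a1 : ℝ) : ℝ := v1q3_v3 a1

noncomputable def v2q0_v1 (a1 : ℝ) : ℝ := f2m_v (a1)

noncomputable def v2q0_v2 (a1 : ℝ) : ℝ := b2q0_v (a1)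

noncomputable def v2q0_v3 (a1 : ℝ) : ℝ := v2q0_v1 a1 * v2q0_v2 a1

noncomputable def v2q0_v (a1 : ℝ) : ℝ := v2q0_v3 a1

noncomputable def v2q1_v1 (a1 : ℝ) : ℝ := f2m_v (a1)

noncomputable def v2q1_v2 (a1 : ℝ) : ℝ := b2q1_v (a1)

noncomputable def v2q1_v3 (a1 : ℝ) : ℝ := v2q1_v1 a1 * v2q1_v2 a1

noncomputable def v2q1_v (a1 : ℝ) : ℝ := v2q1_v3 a1

noncomputable def v2q2_v1 (a1 : ℝ) : ℝ := f2p_v (a1)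

noncomputable def v2q2_v2 (a1 : ℝ) : ℝ := b2q2_v (a1)

noncomputable def v2q2_v3 (a1 : ℝ) : ℝ := v2q2_v1 a1 * v2q2_v2 a1

noncomputable def v2q2_v (a1 : ℝ) : ℝ := v2q2_v3 a1

noncomputable def v2q3_v1 (a1 : ℝ) : ℝ := f2p_v (a1)

noncomputable def v2q3_v2 (a1 : ℝ) : ℝ := b2q3_v (a1)

noncomputable def v2q3_v3 (a1 : ℝ) : ℝ := v2q3_v1 a1 * v2q3_v2 a1

noncomputable def v2q3_v (a1 : ℝ) : ℝ := v2q3_v3 a1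

noncomputable def rrq0_v2 (_a1 a2 : ℝ) : ℝ := c1f_v (a2)

noncomputable def rrq0_v3 (_a1 a2 : ℝ) : ℝ := f1m_v (a2)

noncomputable def rrq0_v4 (_a1 a2 : ℝ) : ℝ := f2m_v (a2)

noncomputable def rrq0_v5 (_a1 a2 : ℝ) : ℝ := c3f_v (a2)

noncomputable def rrq0_v6 (_a1 a2 : ℝ) : ℝ := a3q0_v (a2)

noncomputable def rrq0_v7 (_a1 a2 : ℝ) : ℝ := v1q0_v (a2)

noncomputable def rrq0_v8 (_a1 a2 : ℝ) : ℝ := v2q0_v (a2)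

noncomputable def rrq0_v9 (a1 a2 : ℝ) : ℝ := a1 - rrq0_v4 a1 a2

noncomputable def rrq0_v10 (a1 a2 : ℝ) : ℝ := rrq0_v5 a1 a2 - rrq0_v4 a1 a2

noncomputable def rrq0_v11 (a1 a2 : ℝ) : ℝ := min (max (rrq0_v9 a1 a2 * (rrq0_v10 a1 a2)⁻¹) 0) 1

noncomputable def rrq0_v12 (a1 a2 : ℝ) : ℝ := rrq0_v6 a1 a2 - rrq0_v8 a1 a2

noncomputable def rrq0_v13 (a1 a2 : ℝ) : ℝ := rrq0_v11 a1 a2 * rrq0_v12 a1 a2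

noncomputable def rrq0_v14 (a1 a2 : ℝ) : ℝ := rrq0_v8 a1 a2 + rrq0_v13 a1 a2

noncomputable def rrq0_v15 (a1 a2 : ℝ) : ℝ := a1 - rrq0_v3 a1 a2

noncomputable def rrq0_v16 (a1 a2 : ℝ) : ℝ := rrq0_v4 a1 a2 - rrq0_v3 a1 a2

noncomputable def rrq0_v17 (a1 a2 : ℝ) : ℝ := min (max (rrq0_v15 a1 a2 * (rrq0_v16 a1 a2)⁻¹) 0) 1

noncomputable def rrq0_v18 (a1 a2 : ℝ) : ℝ := rrq0_v8 a1 a2 - rrq0_v7 a1 a2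

noncomputable def rrq0_v19 (a1 a2 : ℝ) : ℝ := rrq0_v17 a1 a2 * rrq0_v18 a1 a2

noncomputable def rrq0_v20 (a1 a2 : ℝ) : ℝ := rrq0_v7 a1 a2 + rrq0_v19 a1 a2

noncomputable def rrq0_v21 (_a1 a2 : ℝ) : ℝ := a1q0_v (a2)

noncomputable def rrq0_v22 (a1 a2 : ℝ) : ℝ := a1 - rrq0_v2 a1 a2

noncomputable def rrq0_v23 (a1 a2 : ℝ) : ℝ := rrq0_v3 a1 a2 - rrq0_v2 a1 a2

noncomputable def rrq0_v24 (a1 a2 : ℝ) : ℝ := min (max (rrq0_v22 a1 a2 * (rrq0_v23 a1 a2)⁻¹) 0) 1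

noncomputable def rrq0_v25 (a1 a2 : ℝ) : ℝ := rrq0_v7 a1 a2 - rrq0_v21 a1 a2

noncomputable def rrq0_v26 (a1 a2 : ℝ) : ℝ := rrq0_v24 a1 a2 * rrq0_v25 a1 a2

noncomputable def rrq0_v27 (a1 a2 : ℝ) : ℝ := rrq0_v21 a1 a2 + rrq0_v26 a1 a2

noncomputable def rrq0_v28 (a1 a2 : ℝ) : ℝ := if rrq0_v9 a1 a2 ≤ 0 then rrq0_v20 a1 a2 else rrq0_v14 a1 a2

noncomputable def rrq0_v29 (a1 a2 : ℝ) : ℝ := if rrq0_v15 a1 a2 ≤ 0 then rrq0_v27 a1 a2 else rrq0_v28 a1 a2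

noncomputable def rrq0_v (a1 a2 : ℝ) : ℝ := rrq0_v29 a1 a2

noncomputable def rrq1_v2 (_a1 a2 : ℝ) : ℝ := c1f_v (a2)

noncomputable def rrq1_v3 (_a1 a2 : ℝ) : ℝ := f1m_v (a2)

noncomputable def rrq1_v4 (_a1 a2 : ℝ) : ℝ := f2m_v (a2)

noncomputable def rrq1_v5 (_a1 a2 : ℝ) : ℝ := c3f_v (a2)

noncomputable def rrq1_v6 (_a1 a2 : ℝ) : ℝ := a3q1_v (a2)

noncomputable def rrq1_v7 (_a1 a2 : ℝ) : ℝ := v1q1_v (a2)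

noncomputable def rrq1_v8 (_a1 a2 : ℝ) : ℝ := v2q1_v (a2)

noncomputable def rrq1_v9 (a1 a2 : ℝ) : ℝ := a1 - rrq1_v4 a1 a2

noncomputable def rrq1_v10 (a1 a2 : ℝ) : ℝ := rrq1_v5 a1 a2 - rrq1_v4 a1 a2

noncomputable def rrq1_v11 (a1 a2 : ℝ) : ℝ := min (max (rrq1_v9 a1 a2 * (rrq1_v10 a1 a2)⁻¹) 0) 1

noncomputable def rrq1_v12 (a1 a2 : ℝ) : ℝ := rrq1_v6 a1 a2 - rrq1_v8 a1 a2

noncomputable def rrq1_v13 (a1 a2 : ℝ) : ℝ := rrq1_v11 a1 a2 * rrq1_v12 a1 a2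

noncomputable def rrq1_v14 (a1 a2 : ℝ) : ℝ := rrq1_v8 a1 a2 + rrq1_v13 a1 a2

noncomputable def rrq1_v15 (a1 a2 : ℝ) : ℝ := a1 - rrq1_v3 a1 a2

noncomputable def rrq1_v16 (a1 a2 : ℝ) : ℝ := rrq1_v4 a1 a2 - rrq1_v3 a1 a2

noncomputable def rrq1_v17 (a1 a2 : ℝ) : ℝ := min (max (rrq1_v15 a1 a2 * (rrq1_v16 a1 a2)⁻¹) 0) 1

noncomputable def rrq1_v18 (a1 a2 : ℝ) : ℝ := rrq1_v8 a1 a2 - rrq1_v7 a1 a2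

noncomputable def rrq1_v19 (a1 a2 : ℝ) : ℝ := rrq1_v17 a1 a2 * rrq1_v18 a1 a2

noncomputable def rrq1_v20 (a1 a2 : ℝ) : ℝ := rrq1_v7 a1 a2 + rrq1_v19 a1 a2

noncomputable def rrq1_v21 (_a1 a2 : ℝ) : ℝ := a1q1_v (a2)

noncomputable def rrq1_v22 (a1 a2 : ℝ) : ℝ := a1 - rrq1_v2 a1 a2

noncomputable def rrq1_v23 (a1 a2 : ℝ) : ℝ := rrq1_v3 a1 a2 - rrq1_v2 a1 a2

noncomputable def rrq1_v24 (a1 a2 : ℝ) : ℝ := min (max (rrq1_v22 a1 a2 * (rrq1_v23 a1 a2)⁻¹) 0) 1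

noncomputable def rrq1_v25 (a1 a2 : ℝ) : ℝ := rrq1_v7 a1 a2 - rrq1_v21 a1 a2

noncomputable def rrq1_v26 (a1 a2 : ℝ) : ℝ := rrq1_v24 a1 a2 * rrq1_v25 a1 a2

noncomputable def rrq1_v27 (a1 a2 : ℝ) : ℝ := rrq1_v21 a1 a2 + rrq1_v26 a1 a2

noncomputable def rrq1_v28 (a1 a2 : ℝ) : ℝ := if rrq1_v9 a1 a2 ≤ 0 then rrq1_v20 a1 a2 else rrq1_v14 a1 a2

noncomputable def rrq1_v29 (a1 a2 : ℝ) : ℝ := if rrq1_v15 a1 a2 ≤ 0 then rrq1_v27 a1 a2 else rrq1_v28 a1 a2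

noncomputable def rrq1_v (a1 a2 : ℝ) : ℝ := rrq1_v29 a1 a2

noncomputable def rrq2_v2 (_a1 a2 : ℝ) : ℝ := c1f_v (a2)

noncomputable def rrq2_v3 (_a1 a2 : ℝ) : ℝ := f1p_v (a2)

noncomputable def rrq2_v4 (_a1 a2 : ℝ) : ℝ := f2p_v (a2)

noncomputable def rrq2_v5 (_a1 a2 : ℝ) : ℝ := c3f_v (a2)

noncomputable def rrq2_v6 (_a1 a2 : ℝ) : ℝ := a3q2_v (a2)

noncomputable def rrq2_v7 (_a1 a2 : ℝ) : ℝ := v1q2_v (a2)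

noncomputable def rrq2_v8 (_a1 a2 : ℝ) : ℝ := v2q2_v (a2)

noncomputable def rrq2_v9 (a1 a2 : ℝ) : ℝ := a1 - rrq2_v4 a1 a2

noncomputable def rrq2_v10 (a1 a2 : ℝ) : ℝ := rrq2_v5 a1 a2 - rrq2_v4 a1 a2

noncomputable def rrq2_v11 (a1 a2 : ℝ) : ℝ := min (max (rrq2_v9 a1 a2 * (rrq2_v10 a1 a2)⁻¹) 0) 1

noncomputable def rrq2_v12 (a1 a2 : ℝ) : ℝ := rrq2_v6 a1 a2 - rrq2_v8 a1 a2

noncomputable def rrq2_v13 (a1 a2 : ℝ) : ℝ := rrq2_v11 a1 a2 * rrq2_v12 a1 a2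

noncomputable def rrq2_v14 (a1 a2 : ℝ) : ℝ := rrq2_v8 a1 a2 + rrq2_v13 a1 a2

noncomputable def rrq2_v15 (a1 a2 : ℝ) : ℝ := a1 - rrq2_v3 a1 a2

noncomputable def rrq2_v16 (a1 a2 : ℝ) : ℝ := rrq2_v4 a1 a2 - rrq2_v3 a1 a2

noncomputable def rrq2_v17 (a1 a2 : ℝ) : ℝ := min (max (rrq2_v15 a1 a2 * (rrq2_v16 a1 a2)⁻¹) 0) 1

noncomputable def rrq2_v18 (a1 a2 : ℝ) : ℝ := rrq2_v8 a1 a2 - rrq2_v7 a1 a2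

noncomputable def rrq2_v19 (a1 a2 : ℝ) : ℝ := rrq2_v17 a1 a2 * rrq2_v18 a1 a2

noncomputable def rrq2_v20 (a1 a2 : ℝ) : ℝ := rrq2_v7 a1 a2 + rrq2_v19 a1 a2

noncomputable def rrq2_v21 (a1 a2 : ℝ) : ℝ := a1 - rrq2_v2 a1 a2

noncomputable def rrq2_v22 (a1 a2 : ℝ) : ℝ := rrq2_v3 a1 a2 - rrq2_v2 a1 a2

noncomputable def rrq2_v23 (a1 a2 : ℝ) : ℝ := min (max (rrq2_v21 a1 a2 * (rrq2_v22 a1 a2)⁻¹) 0) 1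

noncomputable def rrq2_v24 (a1 a2 : ℝ) : ℝ := rrq2_v7 a1 a2 - rrq2_v2 a1 a2

noncomputable def rrq2_v25 (a1 a2 : ℝ) : ℝ := rrq2_v23 a1 a2 * rrq2_v24 a1 a2

noncomputable def rrq2_v26 (a1 a2 : ℝ) : ℝ := rrq2_v2 a1 a2 + rrq2_v25 a1 a2

noncomputable def rrq2_v27 (_a1 _a2 : ℝ) : ℝ := ((1 : ℕ) : ℝ)

noncomputable def rrq2_v28 (a1 a2 : ℝ) : ℝ := rrq2_v27 a1 a2 - a2

noncomputable def rrq2_v29 (_a1 a2 : ℝ) : ℝ := b1q2_v (a2)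

noncomputable def rrq2_v30 (a1 a2 : ℝ) : ℝ := a1 * rrq2_v29 a1 a2

noncomputable def rrq2_v31 (a1 a2 : ℝ) : ℝ := if rrq2_v28 a1 a2 ≤ 0 then rrq2_v30 a1 a2 else rrq2_v26 a1 a2

noncomputable def rrq2_v32 (a1 a2 : ℝ) : ℝ := if rrq2_v9 a1 a2 ≤ 0 then rrq2_v20 a1 a2 else rrq2_v14 a1 a2

noncomputable def rrq2_v33 (a1 a2 : ℝ) : ℝ := if rrq2_v15 a1 a2 ≤ 0 then rrq2_v31 a1 a2 else rrq2_v32 a1 a2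

noncomputable def rrq2_v (a1 a2 : ℝ) : ℝ := rrq2_v33 a1 a2

noncomputable def rrq3_v3 (_a1 a2 : ℝ) : ℝ := f1p_v (a2)

noncomputable def rrq3_v4 (_a1 a2 : ℝ) : ℝ := f2p_v (a2)

noncomputable def rrq3_v5 (_a1 a2 : ℝ) : ℝ := c3f_v (a2)

noncomputable def rrq3_v6 (_a1 a2 : ℝ) : ℝ := a3q3_v (a2)

noncomputable def rrq3_v7 (_a1 a2 : ℝ) : ℝ := v1q3_v (a2)

noncomputable def rrq3_v8 (_a1 a2 : ℝ) : ℝ := v2q3_v (a2)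

noncomputable def rrq3_v9 (a1 a2 : ℝ) : ℝ := a1 - rrq3_v4 a1 a2

noncomputable def rrq3_v10 (a1 a2 : ℝ) : ℝ := rrq3_v5 a1 a2 - rrq3_v4 a1 a2

noncomputable def rrq3_v11 (a1 a2 : ℝ) : ℝ := min (max (rrq3_v9 a1 a2 * (rrq3_v10 a1 a2)⁻¹) 0) 1

noncomputable def rrq3_v12 (a1 a2 : ℝ) : ℝ := rrq3_v6 a1 a2 - rrq3_v8 a1 a2

noncomputable def rrq3_v13 (a1 a2 : ℝ) : ℝ := rrq3_v11 a1 a2 * rrq3_v12 a1 a2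

noncomputable def rrq3_v14 (a1 a2 : ℝ) : ℝ := rrq3_v8 a1 a2 + rrq3_v13 a1 a2

noncomputable def rrq3_v15 (a1 a2 : ℝ) : ℝ := a1 - rrq3_v3 a1 a2

noncomputable def rrq3_v16 (a1 a2 : ℝ) : ℝ := rrq3_v4 a1 a2 - rrq3_v3 a1 a2

noncomputable def rrq3_v17 (a1 a2 : ℝ) : ℝ := min (max (rrq3_v15 a1 a2 * (rrq3_v16 a1 a2)⁻¹) 0) 1

noncomputable def rrq3_v18 (a1 a2 : ℝ) : ℝ := rrq3_v8 a1 a2 - rrq3_v7 a1 a2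

noncomputable def rrq3_v19 (a1 a2 : ℝ) : ℝ := rrq3_v17 a1 a2 * rrq3_v18 a1 a2

noncomputable def rrq3_v20 (a1 a2 : ℝ) : ℝ := rrq3_v7 a1 a2 + rrq3_v19 a1 a2

noncomputable def rrq3_v21 (_a1 a2 : ℝ) : ℝ := b1q3_v (a2)

noncomputable def rrq3_v22 (a1 a2 : ℝ) : ℝ := a1 * rrq3_v21 a1 a2

noncomputable def rrq3_v23 (a1 a2 : ℝ) : ℝ := if rrq3_v9 a1 a2 ≤ 0 then rrq3_v20 a1 a2 else rrq3_v14 a1 a2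

noncomputable def rrq3_v24 (a1 a2 : ℝ) : ℝ := if rrq3_v15 a1 a2 ≤ 0 then rrq3_v22 a1 a2 else rrq3_v23 a1 a2

noncomputable def rrq3_v (a1 a2 : ℝ) : ℝ := rrq3_v24 a1 a2

noncomputable def rq0_v2 (a1 _a2 : ℝ) : ℝ := -(a1)

noncomputable def rq0_v3 (a1 a2 : ℝ) : ℝ := rrq0_v (rq0_v2 a1 a2) (a2)

noncomputable def rq0_v4 (a1 a2 : ℝ) : ℝ := -(rq0_v3 a1 a2)

noncomputable def rq0_v5 (a1 a2 : ℝ) : ℝ := rrq0_v (a1) (a2)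

noncomputable def rq0_v6 (a1 a2 : ℝ) : ℝ := if a1 ≤ 0 then rq0_v4 a1 a2 else rq0_v5 a1 a2

noncomputable def rq0_v (a1 a2 : ℝ) : ℝ := rq0_v6 a1 a2

noncomputable def rq1_v2 (a1 _a2 : ℝ) : ℝ := -(a1)

noncomputable def rq1_v3 (a1 a2 : ℝ) : ℝ := rrq1_v (rq1_v2 a1 a2) (a2)

noncomputable def rq1_v4 (a1 a2 : ℝ) : ℝ := -(rq1_v3 a1 a2)

noncomputable def rq1_v5 (a1 a2 : ℝ) : ℝ := rrq1_v (a1) (a2)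

noncomputable def rq1_v6 (a1 a2 : ℝ) : ℝ := if a1 ≤ 0 then rq1_v4 a1 a2 else rq1_v5 a1 a2

noncomputable def rq1_v (a1 a2 : ℝ) : ℝ := rq1_v6 a1 a2

noncomputable def rq2_v2 (a1 _a2 : ℝ) : ℝ := -(a1)

noncomputable def rq2_v3 (a1 a2 : ℝ) : ℝ := rrq2_v (rq2_v2 a1 a2) (a2)

noncomputable def rq2_v4 (a1 a2 : ℝ) : ℝ := -(rq2_v3 a1 a2)

noncomputable def rq2_v5 (a1 a2 : ℝ) : ℝ := rrq2_v (a1) (a2)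

noncomputable def rq2_v6 (a1 a2 : ℝ) : ℝ := if a1 ≤ 0 then rq2_v4 a1 a2 else rq2_v5 a1 a2

noncomputable def rq2_v (a1 a2 : ℝ) : ℝ := rq2_v6 a1 a2

noncomputable def rq3_v2 (a1 _a2 : ℝ) : ℝ := -(a1)

noncomputable def rq3_v3 (a1 a2 : ℝ) : ℝ := rrq3_v (rq3_v2 a1 a2) (a2)

noncomputable def rq3_v4 (a1 a2 : ℝ) : ℝ := -(rq3_v3 a1 a2)

noncomputable def rq3_v5 (a1 a2 : ℝ) : ℝ := rrq3_v (a1) (a2)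

noncomputable def rq3_v6 (a1 a2 : ℝ) : ℝ := if a1 ≤ 0 then rq3_v4 a1 a2 else rq3_v5 a1 a2

noncomputable def rq3_v (a1 a2 : ℝ) : ℝ := rq3_v6 a1 a2

noncomputable def starn_v6 (_a1 _a2 _a3 _a4 _a5 _a6 : ℝ) : ℝ := Real.sqrt ((3 : ℕ) : ℝ)

noncomputable def starn_v7 (a1 a2 a3 a4 a5 a6 : ℝ) : ℝ := ((1 : ℕ) : ℝ) / ((2 : ℕ) : ℝ) * starn_v6 a1 a2 a3 a4 a5 a6

noncomputable def starn_v8 (_a1 a2 a3 _a4 _a5 _a6 : ℝ) : ℝ := a2 + a3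

noncomputable def starn_v9 (a1 a2 a3 a4 a5 a6 : ℝ) : ℝ := min (max (a2 * (starn_v8 a1 a2 a3 a4 a5 a6)⁻¹) 0) 1

noncomputable def starn_v10 (a1 a2 a3 a4 a5 a6 : ℝ) : ℝ := ((2 : ℕ) : ℝ) * starn_v9 a1 a2 a3 a4 a5 a6

noncomputable def starn_v11 (_a1 _a2 _a3 _a4 _a5 _a6 : ℝ) : ℝ := ((1 : ℕ) : ℝ)

noncomputable def starn_v12 (a1 a2 a3 a4 a5 a6 : ℝ) : ℝ := starn_v10 a1 a2 a3 a4 a5 a6 - starn_v11 a1 a2 a3 a4 a5 a6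

noncomputable def starn_v13 (a1 a2 a3 a4 a5 a6 : ℝ) : ℝ := starn_v7 a1 a2 a3 a4 a5 a6 - a2

noncomputable def starn_v14 (a1 a2 a3 a4 a5 a6 : ℝ) : ℝ := a4 * starn_v13 a1 a2 a3 a4 a5 a6

noncomputable def starn_v15 (_a1 a2 _a3 _a4 _a5 _a6 : ℝ) : ℝ := ((2 : ℕ) : ℝ) * a2

noncomputable def starn_v16 (a1 a2 a3 a4 a5 a6 : ℝ) : ℝ := starn_v7 a1 a2 a3 a4 a5 a6 - starn_v15 a1 a2 a3 a4 a5 a6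

noncomputable def starn_v17 (a1 a2 a3 a4 a5 a6 : ℝ) : ℝ := starn_v16 a1 a2 a3 a4 a5 a6 - a3

noncomputable def starn_v18 (a1 a2 a3 a4 a5 a6 : ℝ) : ℝ := a5 * starn_v17 a1 a2 a3 a4 a5 a6

noncomputable def starn_v19 (a1 a2 a3 a4 a5 a6 : ℝ) : ℝ := starn_v14 a1 a2 a3 a4 a5 a6 + starn_v18 a1 a2 a3 a4 a5 a6

noncomputable def starn_v20 (a1 a2 a3 a4 a5 a6 : ℝ) : ℝ := starn_v13 a1 a2 a3 a4 a5 a6 - a3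

noncomputable def starn_v21 (a1 a2 a3 a4 a5 a6 : ℝ) : ℝ := a6 * starn_v20 a1 a2 a3 a4 a5 a6

noncomputable def starn_v22 (a1 a2 a3 a4 a5 a6 : ℝ) : ℝ := starn_v19 a1 a2 a3 a4 a5 a6 - starn_v21 a1 a2 a3 a4 a5 a6

noncomputable def starn_v23 (a1 a2 a3 a4 a5 a6 : ℝ) : ℝ := (starn_v6 a1 a2 a3 a4 a5 a6)⁻¹

noncomputable def starn_v24 (a1 a2 a3 a4 a5 a6 : ℝ) : ℝ := starn_v22 a1 a2 a3 a4 a5 a6 * starn_v23 a1 a2 a3 a4 a5 a6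

noncomputable def starn_v26 (a1 a2 a3 a4 a5 a6 : ℝ) : ℝ := starn_v7 a1 a2 a3 a4 a5 a6 - a3

noncomputable def starn_v27 (a1 a2 a3 a4 a5 a6 : ℝ) : ℝ := a5 * starn_v26 a1 a2 a3 a4 a5 a6

noncomputable def starn_v28 (a1 a2 a3 a4 a5 a6 : ℝ) : ℝ := starn_v27 a1 a2 a3 a4 a5 a6 - starn_v14 a1 a2 a3 a4 a5 a6

noncomputable def starn_v29 (a1 a2 a3 a4 a5 a6 : ℝ) : ℝ := a6 * starn_v12 a1 a2 a3 a4 a5 a6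

noncomputable def starn_v30 (a1 a2 a3 a4 a5 a6 : ℝ) : ℝ := starn_v29 a1 a2 a3 a4 a5 a6 * starn_v20 a1 a2 a3 a4 a5 a6

noncomputable def starn_v31 (a1 a2 a3 a4 a5 a6 : ℝ) : ℝ := starn_v28 a1 a2 a3 a4 a5 a6 + starn_v30 a1 a2 a3 a4 a5 a6

noncomputable def starn_v32 (a1 a2 a3 a4 a5 a6 : ℝ) : ℝ := starn_v31 a1 a2 a3 a4 a5 a6 * starn_v23 a1 a2 a3 a4 a5 a6

noncomputable def starn_v33 (_a1 _a2 a3 _a4 _a5 _a6 : ℝ) : ℝ := ((2 : ℕ) : ℝ) * a3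

noncomputable def starn_v34 (a1 a2 a3 a4 a5 a6 : ℝ) : ℝ := starn_v13 a1 a2 a3 a4 a5 a6 - starn_v33 a1 a2 a3 a4 a5 a6

noncomputable def starn_v35 (a1 a2 a3 a4 a5 a6 : ℝ) : ℝ := a4 * starn_v34 a1 a2 a3 a4 a5 a6

noncomputable def starn_v36 (a1 a2 a3 a4 a5 a6 : ℝ) : ℝ := -(starn_v35 a1 a2 a3 a4 a5 a6)

noncomputable def starn_v37 (a1 a2 a3 a4 a5 a6 : ℝ) : ℝ := starn_v36 a1 a2 a3 a4 a5 a6 - starn_v27 a1 a2 a3 a4 a5 a6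

noncomputable def starn_v38 (a1 a2 a3 a4 a5 a6 : ℝ) : ℝ := starn_v37 a1 a2 a3 a4 a5 a6 + starn_v21 a1 a2 a3 a4 a5 a6

noncomputable def starn_v39 (a1 a2 a3 a4 a5 a6 : ℝ) : ℝ := starn_v38 a1 a2 a3 a4 a5 a6 * starn_v23 a1 a2 a3 a4 a5 a6

noncomputable def starn_v40 (a1 _a2 _a3 _a4 _a5 _a6 : ℝ) : ℝ := ((10 : ℕ) : ℝ) / ((19 : ℕ) : ℝ) * a1

noncomputable def starn_v41 (a1 a2 a3 a4 a5 a6 : ℝ) : ℝ := starn_v24 a1 a2 a3 a4 a5 a6 + starn_v40 a1 a2 a3 a4 a5 a6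

noncomputable def starn_v42 (a1 a2 a3 a4 a5 a6 : ℝ) : ℝ := starn_v32 a1 a2 a3 a4 a5 a6 + starn_v40 a1 a2 a3 a4 a5 a6

noncomputable def starn_v43 (a1 a2 a3 a4 a5 a6 : ℝ) : ℝ := starn_v39 a1 a2 a3 a4 a5 a6 + starn_v40 a1 a2 a3 a4 a5 a6

noncomputable def starn_v44 (_a1 _a2 _a3 _a4 _a5 _a6 : ℝ) : ℝ := ((2 : ℕ) : ℝ)

noncomputable def starn_v45 (a1 a2 a3 a4 a5 a6 : ℝ) : ℝ := starn_v44 a1 a2 a3 a4 a5 a6 + starn_v6 a1 a2 a3 a4 a5 a6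

noncomputable def starn_v46 (a1 a2 a3 a4 a5 a6 : ℝ) : ℝ := a1 * starn_v45 a1 a2 a3 a4 a5 a6

noncomputable def starn_v47 (a1 a2 a3 a4 a5 a6 : ℝ) : ℝ := ((1 : ℕ) : ℝ) / ((4 : ℕ) : ℝ) * starn_v46 a1 a2 a3 a4 a5 a6

noncomputable def starn_v48 (a1 a2 a3 a4 a5 a6 : ℝ) : ℝ := Pool.Agent.Strip051.LC.Line.phi (starn_v41 a1 a2 a3 a4 a5 a6) (starn_v42 a1 a2 a3 a4 a5 a6)

noncomputable def starn_v49 (a1 a2 a3 a4 a5 a6 : ℝ) : ℝ := a2 * starn_v48 a1 a2 a3 a4 a5 a6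

noncomputable def starn_v50 (a1 a2 a3 a4 a5 a6 : ℝ) : ℝ := Pool.Agent.Strip051.LC.Line.phi (starn_v42 a1 a2 a3 a4 a5 a6) (starn_v43 a1 a2 a3 a4 a5 a6)

noncomputable def starn_v51 (a1 a2 a3 a4 a5 a6 : ℝ) : ℝ := a3 * starn_v50 a1 a2 a3 a4 a5 a6

noncomputable def starn_v52 (a1 a2 a3 a4 a5 a6 : ℝ) : ℝ := starn_v49 a1 a2 a3 a4 a5 a6 + starn_v51 a1 a2 a3 a4 a5 a6

noncomputable def starn_v53 (a1 a2 a3 a4 a5 a6 : ℝ) : ℝ := Pool.Agent.Strip051.LC.Line.phi (starn_v43 a1 a2 a3 a4 a5 a6) (starn_v41 a1 a2 a3 a4 a5 a6)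

noncomputable def starn_v54 (a1 a2 a3 a4 a5 a6 : ℝ) : ℝ := starn_v20 a1 a2 a3 a4 a5 a6 * starn_v53 a1 a2 a3 a4 a5 a6

noncomputable def starn_v55 (a1 a2 a3 a4 a5 a6 : ℝ) : ℝ := starn_v52 a1 a2 a3 a4 a5 a6 + starn_v54 a1 a2 a3 a4 a5 a6

noncomputable def starn_v56 (a1 a2 a3 a4 a5 a6 : ℝ) : ℝ := ((19 : ℕ) : ℝ) / ((20 : ℕ) : ℝ) * starn_v55 a1 a2 a3 a4 a5 a6

noncomputable def starn_v57 (a1 a2 a3 a4 a5 a6 : ℝ) : ℝ := starn_v47 a1 a2 a3 a4 a5 a6 - starn_v56 a1 a2 a3 a4 a5 a6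

noncomputable def starn_v (a1 a2 a3 a4 a5 a6 : ℝ) : ℝ := starn_v57 a1 a2 a3 a4 a5 a6

noncomputable def starw_v7 (_a1 _a2 a3 a4 _a5 _a6 _a7 : ℝ) : ℝ := a3 + a4

noncomputable def starw_v8 (a1 a2 a3 a4 a5 a6 a7 : ℝ) : ℝ := a5 * starw_v7 a1 a2 a3 a4 a5 a6 a7

noncomputable def starw_v9 (_a1 a2 a3 _a4 _a5 _a6 _a7 : ℝ) : ℝ := a2 + a3

noncomputable def starw_v10 (a1 a2 a3 a4 a5 a6 a7 : ℝ) : ℝ := a7 * starw_v9 a1 a2 a3 a4 a5 a6 a7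

noncomputable def starw_v11 (a1 a2 a3 a4 a5 a6 a7 : ℝ) : ℝ := starw_v8 a1 a2 a3 a4 a5 a6 a7 - starw_v10 a1 a2 a3 a4 a5 a6 a7

noncomputable def starw_v12 (_a1 a2 _a3 a4 _a5 _a6 _a7 : ℝ) : ℝ := a4 - a2

noncomputable def starw_v13 (a1 a2 a3 a4 a5 a6 a7 : ℝ) : ℝ := a6 * starw_v12 a1 a2 a3 a4 a5 a6 a7

noncomputable def starw_v14 (a1 a2 a3 a4 a5 a6 a7 : ℝ) : ℝ := starw_v11 a1 a2 a3 a4 a5 a6 a7 + starw_v13 a1 a2 a3 a4 a5 a6 a7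

noncomputable def starw_v15 (_a1 _a2 _a3 _a4 _a5 _a6 _a7 : ℝ) : ℝ := Real.sqrt ((3 : ℕ) : ℝ)

noncomputable def starw_v16 (a1 a2 a3 a4 a5 a6 a7 : ℝ) : ℝ := (starw_v15 a1 a2 a3 a4 a5 a6 a7)⁻¹

noncomputable def starw_v17 (a1 a2 a3 a4 a5 a6 a7 : ℝ) : ℝ := starw_v14 a1 a2 a3 a4 a5 a6 a7 * starw_v16 a1 a2 a3 a4 a5 a6 a7

noncomputable def starw_v18 (_a1 a2 _a3 a4 _a5 _a6 _a7 : ℝ) : ℝ := a4 + a2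

noncomputable def starw_v19 (a1 a2 a3 a4 a5 a6 a7 : ℝ) : ℝ := a6 * starw_v18 a1 a2 a3 a4 a5 a6 a7

noncomputable def starw_v20 (a1 a2 a3 a4 a5 a6 a7 : ℝ) : ℝ := starw_v19 a1 a2 a3 a4 a5 a6 a7 - starw_v8 a1 a2 a3 a4 a5 a6 a7

noncomputable def starw_v21 (_a1 a2 a3 _a4 _a5 _a6 _a7 : ℝ) : ℝ := a2 - a3

noncomputable def starw_v22 (a1 a2 a3 a4 a5 a6 a7 : ℝ) : ℝ := a7 * starw_v21 a1 a2 a3 a4 a5 a6 a7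

noncomputable def starw_v23 (a1 a2 a3 a4 a5 a6 a7 : ℝ) : ℝ := starw_v20 a1 a2 a3 a4 a5 a6 a7 + starw_v22 a1 a2 a3 a4 a5 a6 a7

noncomputable def starw_v24 (a1 a2 a3 a4 a5 a6 a7 : ℝ) : ℝ := starw_v23 a1 a2 a3 a4 a5 a6 a7 * starw_v16 a1 a2 a3 a4 a5 a6 a7

noncomputable def starw_v25 (a1 a2 a3 a4 a5 a6 a7 : ℝ) : ℝ := starw_v10 a1 a2 a3 a4 a5 a6 a7 - starw_v19 a1 a2 a3 a4 a5 a6 a7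

noncomputable def starw_v26 (_a1 _a2 a3 a4 _a5 _a6 _a7 : ℝ) : ℝ := a3 - a4

noncomputable def starw_v27 (a1 a2 a3 a4 a5 a6 a7 : ℝ) : ℝ := a5 * starw_v26 a1 a2 a3 a4 a5 a6 a7

noncomputable def starw_v28 (a1 a2 a3 a4 a5 a6 a7 : ℝ) : ℝ := starw_v25 a1 a2 a3 a4 a5 a6 a7 + starw_v27 a1 a2 a3 a4 a5 a6 a7

noncomputable def starw_v29 (a1 a2 a3 a4 a5 a6 a7 : ℝ) : ℝ := starw_v28 a1 a2 a3 a4 a5 a6 a7 * starw_v16 a1 a2 a3 a4 a5 a6 a7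

noncomputable def starw_v30 (a1 _a2 _a3 _a4 _a5 _a6 _a7 : ℝ) : ℝ := ((10 : ℕ) : ℝ) / ((19 : ℕ) : ℝ) * a1

noncomputable def starw_v31 (a1 a2 a3 a4 a5 a6 a7 : ℝ) : ℝ := starw_v17 a1 a2 a3 a4 a5 a6 a7 + starw_v30 a1 a2 a3 a4 a5 a6 a7

noncomputable def starw_v32 (a1 a2 a3 a4 a5 a6 a7 : ℝ) : ℝ := starw_v24 a1 a2 a3 a4 a5 a6 a7 + starw_v30 a1 a2 a3 a4 a5 a6 a7

noncomputable def starw_v33 (a1 a2 a3 a4 a5 a6 a7 : ℝ) : ℝ := starw_v29 a1 a2 a3 a4 a5 a6 a7 + starw_v30 a1 a2 a3 a4 a5 a6 a7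

noncomputable def starw_v34 (_a1 _a2 _a3 _a4 _a5 _a6 _a7 : ℝ) : ℝ := ((2 : ℕ) : ℝ)

noncomputable def starw_v35 (a1 a2 a3 a4 a5 a6 a7 : ℝ) : ℝ := starw_v34 a1 a2 a3 a4 a5 a6 a7 + starw_v15 a1 a2 a3 a4 a5 a6 a7

noncomputable def starw_v36 (a1 a2 a3 a4 a5 a6 a7 : ℝ) : ℝ := a1 * starw_v35 a1 a2 a3 a4 a5 a6 a7

noncomputable def starw_v37 (a1 a2 a3 a4 a5 a6 a7 : ℝ) : ℝ := ((1 : ℕ) : ℝ) / ((4 : ℕ) : ℝ) * starw_v36 a1 a2 a3 a4 a5 a6 a7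

noncomputable def starw_v38 (a1 a2 a3 a4 a5 a6 a7 : ℝ) : ℝ := Pool.Agent.Strip051.LC.Line.phi (starw_v31 a1 a2 a3 a4 a5 a6 a7) (starw_v32 a1 a2 a3 a4 a5 a6 a7)

noncomputable def starw_v39 (a1 a2 a3 a4 a5 a6 a7 : ℝ) : ℝ := a2 * starw_v38 a1 a2 a3 a4 a5 a6 a7

noncomputable def starw_v40 (a1 a2 a3 a4 a5 a6 a7 : ℝ) : ℝ := Pool.Agent.Strip051.LC.Line.phi (starw_v32 a1 a2 a3 a4 a5 a6 a7) (starw_v33 a1 a2 a3 a4 a5 a6 a7)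

noncomputable def starw_v41 (a1 a2 a3 a4 a5 a6 a7 : ℝ) : ℝ := a3 * starw_v40 a1 a2 a3 a4 a5 a6 a7

noncomputable def starw_v42 (a1 a2 a3 a4 a5 a6 a7 : ℝ) : ℝ := starw_v39 a1 a2 a3 a4 a5 a6 a7 + starw_v41 a1 a2 a3 a4 a5 a6 a7

noncomputable def starw_v43 (a1 a2 a3 a4 a5 a6 a7 : ℝ) : ℝ := Pool.Agent.Strip051.LC.Line.phi (starw_v33 a1 a2 a3 a4 a5 a6 a7) (starw_v31 a1 a2 a3 a4 a5 a6 a7)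

noncomputable def starw_v44 (a1 a2 a3 a4 a5 a6 a7 : ℝ) : ℝ := a4 * starw_v43 a1 a2 a3 a4 a5 a6 a7

noncomputable def starw_v45 (a1 a2 a3 a4 a5 a6 a7 : ℝ) : ℝ := starw_v42 a1 a2 a3 a4 a5 a6 a7 + starw_v44 a1 a2 a3 a4 a5 a6 a7

noncomputable def starw_v46 (a1 a2 a3 a4 a5 a6 a7 : ℝ) : ℝ := ((19 : ℕ) : ℝ) / ((20 : ℕ) : ℝ) * starw_v45 a1 a2 a3 a4 a5 a6 a7

noncomputable def starw_v47 (a1 a2 a3 a4 a5 a6 a7 : ℝ) : ℝ := starw_v37 a1 a2 a3 a4 a5 a6 a7 - starw_v46 a1 a2 a3 a4 a5 a6 a7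

noncomputable def starw_v (a1 a2 a3 a4 a5 a6 a7 : ℝ) : ℝ := starw_v47 a1 a2 a3 a4 a5 a6 a7

noncomputable def exf_v4 (a1 _a2 _a3 a4 : ℝ) : ℝ := a1 * a4

noncomputable def exf_v5 (_a1 a2 a3 _a4 : ℝ) : ℝ := a2 * a3

noncomputable def exf_v6 (a1 a2 a3 a4 : ℝ) : ℝ := exf_v4 a1 a2 a3 a4 - exf_v5 a1 a2 a3 a4

noncomputable def exf_v7 (_a1 _a2 _a3 _a4 : ℝ) : ℝ := Real.sqrt ((3 : ℕ) : ℝ)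

noncomputable def exf_v8 (a1 a2 a3 a4 : ℝ) : ℝ := (exf_v7 a1 a2 a3 a4)⁻¹

noncomputable def exf_v9 (a1 a2 a3 a4 : ℝ) : ℝ := exf_v6 a1 a2 a3 a4 * exf_v8 a1 a2 a3 a4

noncomputable def exf_v10 (_a1 _a2 _a3 _a4 : ℝ) : ℝ := ((1 : ℕ) : ℝ) / ((2 : ℕ) : ℝ)

noncomputable def exf_v11 (a1 a2 a3 a4 : ℝ) : ℝ := exf_v9 a1 a2 a3 a4 - exf_v10 a1 a2 a3 a4

noncomputable def exf_v (a1 a2 a3 a4 : ℝ) : ℝ := exf_v11 a1 a2 a3 a4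

noncomputable def q3f_v2 (a1 _a2 : ℝ) : ℝ := (a1) ^ 2

noncomputable def q3f_v3 (_a1 a2 : ℝ) : ℝ := (a2) ^ 2

noncomputable def q3f_v4 (a1 a2 : ℝ) : ℝ := q3f_v2 a1 a2 + q3f_v3 a1 a2

noncomputable def q3f_v (a1 a2 : ℝ) : ℝ := q3f_v4 a1 a2

noncomputable def sl001_v7 (_a1 _a2 _a3 _a4 _a5 _a6 _a7 : ℝ) : ℝ := Real.sqrt ((3 : ℕ) : ℝ)

noncomputable def sl001_v8 (a1 a2 a3 a4 a5 a6 a7 : ℝ) : ℝ := ((1 : ℕ) : ℝ) / ((2 : ℕ) : ℝ) * sl001_v7 a1 a2 a3 a4 a5 a6 a7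

noncomputable def sl001_v11 (a1 a2 a3 a4 a5 a6 a7 : ℝ) : ℝ := sl001_v8 a1 a2 a3 a4 a5 a6 a7 - a4

noncomputable def sl001_v12 (_a1 _a2 _a3 _a4 a5 _a6 _a7 : ℝ) : ℝ := -(a5)

noncomputable def sl001_v13 (_a1 _a2 _a3 _a4 _a5 a6 _a7 : ℝ) : ℝ := -(a6)

noncomputable def sl001_v14 (a1 a2 a3 a4 a5 a6 a7 : ℝ) : ℝ := starw_v (a1) (a2) (a3) (sl001_v11 a1 a2 a3 a4 a5 a6 a7) (sl001_v12 a1 a2 a3 a4 a5 a6 a7) (sl001_v13 a1 a2 a3 a4 a5 a6 a7) (a7)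

noncomputable def sl001_v (a1 a2 a3 a4 a5 a6 a7 : ℝ) : ℝ := sl001_v14 a1 a2 a3 a4 a5 a6 a7

noncomputable def sl011_v7 (_a1 _a2 _a3 _a4 _a5 _a6 _a7 : ℝ) : ℝ := Real.sqrt ((3 : ℕ) : ℝ)

noncomputable def sl011_v8 (a1 a2 a3 a4 a5 a6 a7 : ℝ) : ℝ := ((1 : ℕ) : ℝ) / ((2 : ℕ) : ℝ) * sl011_v7 a1 a2 a3 a4 a5 a6 a7

noncomputable def sl011_v12 (a1 a2 a3 a4 a5 a6 a7 : ℝ) : ℝ := sl011_v8 a1 a2 a3 a4 a5 a6 a7 - a4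

noncomputable def sl011_v13 (_a1 _a2 _a3 _a4 a5 _a6 _a7 : ℝ) : ℝ := -(a5)

noncomputable def sl011_v14 (a1 a2 a3 a4 a5 a6 a7 : ℝ) : ℝ := starn_v (a1) (sl011_v12 a1 a2 a3 a4 a5 a6 a7) (a2) (a7) (sl011_v13 a1 a2 a3 a4 a5 a6 a7) (a6)

noncomputable def sl011_v (a1 a2 a3 a4 a5 a6 a7 : ℝ) : ℝ := sl011_v14 a1 a2 a3 a4 a5 a6 a7

noncomputable def sl012_v7 (_a1 _a2 _a3 _a4 _a5 _a6 _a7 : ℝ) : ℝ := Real.sqrt ((3 : ℕ) : ℝ)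

noncomputable def sl012_v8 (a1 a2 a3 a4 a5 a6 a7 : ℝ) : ℝ := ((1 : ℕ) : ℝ) / ((2 : ℕ) : ℝ) * sl012_v7 a1 a2 a3 a4 a5 a6 a7

noncomputable def sl012_v11 (a1 a2 a3 a4 a5 a6 a7 : ℝ) : ℝ := a4 - sl012_v8 a1 a2 a3 a4 a5 a6 a7

noncomputable def sl012_v12 (a1 a2 a3 a4 a5 a6 a7 : ℝ) : ℝ := sl012_v8 a1 a2 a3 a4 a5 a6 a7 - a3

noncomputable def sl012_v13 (_a1 _a2 _a3 _a4 _a5 a6 _a7 : ℝ) : ℝ := -(a6)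

noncomputable def sl012_v14 (a1 a2 a3 a4 a5 a6 a7 : ℝ) : ℝ := starn_v (a1) (sl012_v11 a1 a2 a3 a4 a5 a6 a7) (sl012_v12 a1 a2 a3 a4 a5 a6 a7) (a7) (sl012_v13 a1 a2 a3 a4 a5 a6 a7) (a5)

noncomputable def sl012_v (a1 a2 a3 a4 a5 a6 a7 : ℝ) : ℝ := sl012_v14 a1 a2 a3 a4 a5 a6 a7

noncomputable def sl022_v7 (_a1 _a2 _a3 _a4 _a5 _a6 _a7 : ℝ) : ℝ := Real.sqrt ((3 : ℕ) : ℝ)

noncomputable def sl022_v8 (a1 a2 a3 a4 a5 a6 a7 : ℝ) : ℝ := ((1 : ℕ) : ℝ) / ((2 : ℕ) : ℝ) * sl022_v7 a1 a2 a3 a4 a5 a6 a7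

noncomputable def sl022_v10 (a1 a2 a3 a4 a5 a6 a7 : ℝ) : ℝ := a3 - sl022_v8 a1 a2 a3 a4 a5 a6 a7

noncomputable def sl022_v12 (_a1 _a2 _a3 _a4 a5 _a6 _a7 : ℝ) : ℝ := -(a5)

noncomputable def sl022_v13 (_a1 _a2 _a3 _a4 _a5 a6 _a7 : ℝ) : ℝ := -(a6)

noncomputable def sl022_v14 (_a1 _a2 _a3 _a4 _a5 _a6 a7 : ℝ) : ℝ := -(a7)

noncomputable def sl022_v15 (a1 a2 a3 a4 a5 a6 a7 : ℝ) : ℝ := starn_v (a1) (a2) (sl022_v10 a1 a2 a3 a4 a5 a6 a7) (sl022_v12 a1 a2 a3 a4 a5 a6 a7) (sl022_v13 a1 a2 a3 a4 a5 a6 a7) (sl022_v14 a1 a2 a3 a4 a5 a6 a7)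

noncomputable def sl022_v (a1 a2 a3 a4 a5 a6 a7 : ℝ) : ℝ := sl022_v15 a1 a2 a3 a4 a5 a6 a7

noncomputable def sl023_v7 (_a1 _a2 _a3 _a4 _a5 _a6 _a7 : ℝ) : ℝ := Real.sqrt ((3 : ℕ) : ℝ)

noncomputable def sl023_v8 (a1 a2 a3 a4 a5 a6 a7 : ℝ) : ℝ := ((1 : ℕ) : ℝ) / ((2 : ℕ) : ℝ) * sl023_v7 a1 a2 a3 a4 a5 a6 a7

noncomputable def sl023_v10 (a1 a2 a3 a4 a5 a6 a7 : ℝ) : ℝ := a3 - sl023_v8 a1 a2 a3 a4 a5 a6 a7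

noncomputable def sl023_v12 (a1 a2 a3 a4 a5 a6 a7 : ℝ) : ℝ := sl023_v7 a1 a2 a3 a4 a5 a6 a7 - a4

noncomputable def sl023_v13 (_a1 _a2 _a3 _a4 a5 _a6 _a7 : ℝ) : ℝ := -(a5)

noncomputable def sl023_v14 (_a1 _a2 _a3 _a4 _a5 a6 _a7 : ℝ) : ℝ := -(a6)

noncomputable def sl023_v15 (a1 a2 a3 a4 a5 a6 a7 : ℝ) : ℝ := starw_v (a1) (a2) (sl023_v10 a1 a2 a3 a4 a5 a6 a7) (sl023_v12 a1 a2 a3 a4 a5 a6 a7) (sl023_v13 a1 a2 a3 a4 a5 a6 a7) (sl023_v14 a1 a2 a3 a4 a5 a6 a7) (a7)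

noncomputable def sl023_v (a1 a2 a3 a4 a5 a6 a7 : ℝ) : ℝ := sl023_v15 a1 a2 a3 a4 a5 a6 a7

noncomputable def sl033_v7 (_a1 _a2 _a3 _a4 _a5 _a6 _a7 : ℝ) : ℝ := Real.sqrt ((3 : ℕ) : ℝ)

noncomputable def sl033_v12 (a1 a2 a3 a4 a5 a6 a7 : ℝ) : ℝ := sl033_v7 a1 a2 a3 a4 a5 a6 a7 - a4

noncomputable def sl033_v13 (_a1 _a2 _a3 _a4 a5 _a6 _a7 : ℝ) : ℝ := -(a5)

noncomputable def sl033_v14 (a1 a2 a3 a4 a5 a6 a7 : ℝ) : ℝ := starn_v (a1) (sl033_v12 a1 a2 a3 a4 a5 a6 a7) (a2) (a7) (sl033_v13 a1 a2 a3 a4 a5 a6 a7) (a6)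

noncomputable def sl033_v (a1 a2 a3 a4 a5 a6 a7 : ℝ) : ℝ := sl033_v14 a1 a2 a3 a4 a5 a6 a7

noncomputable def sl101_v7 (_a1 _a2 _a3 _a4 _a5 _a6 _a7 : ℝ) : ℝ := Real.sqrt ((3 : ℕ) : ℝ)

noncomputable def sl101_v8 (a1 a2 a3 a4 a5 a6 a7 : ℝ) : ℝ := ((1 : ℕ) : ℝ) / ((2 : ℕ) : ℝ) * sl101_v7 a1 a2 a3 a4 a5 a6 a7

noncomputable def sl101_v12 (a1 a2 a3 a4 a5 a6 a7 : ℝ) : ℝ := sl101_v8 a1 a2 a3 a4 a5 a6 a7 - a4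

noncomputable def sl101_v13 (_a1 _a2 _a3 _a4 _a5 a6 _a7 : ℝ) : ℝ := -(a6)

noncomputable def sl101_v14 (a1 a2 a3 a4 a5 a6 a7 : ℝ) : ℝ := starn_v (a1) (a3) (sl101_v12 a1 a2 a3 a4 a5 a6 a7) (sl101_v13 a1 a2 a3 a4 a5 a6 a7) (a7) (a5)

noncomputable def sl101_v (a1 a2 a3 a4 a5 a6 a7 : ℝ) : ℝ := sl101_v14 a1 a2 a3 a4 a5 a6 a7

noncomputable def sl102_v7 (_a1 _a2 _a3 _a4 _a5 _a6 _a7 : ℝ) : ℝ := Real.sqrt ((3 : ℕ) : ℝ)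

noncomputable def sl102_v8 (a1 a2 a3 a4 a5 a6 a7 : ℝ) : ℝ := ((1 : ℕ) : ℝ) / ((2 : ℕ) : ℝ) * sl102_v7 a1 a2 a3 a4 a5 a6 a7

noncomputable def sl102_v11 (a1 a2 a3 a4 a5 a6 a7 : ℝ) : ℝ := a4 - sl102_v8 a1 a2 a3 a4 a5 a6 a7

noncomputable def sl102_v12 (a1 a2 a3 a4 a5 a6 a7 : ℝ) : ℝ := sl102_v8 a1 a2 a3 a4 a5 a6 a7 - a2

noncomputable def sl102_v13 (_a1 _a2 _a3 _a4 a5 _a6 _a7 : ℝ) : ℝ := -(a5)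

noncomputable def sl102_v14 (a1 a2 a3 a4 a5 a6 a7 : ℝ) : ℝ := starn_v (a1) (sl102_v12 a1 a2 a3 a4 a5 a6 a7) (sl102_v11 a1 a2 a3 a4 a5 a6 a7) (sl102_v13 a1 a2 a3 a4 a5 a6 a7) (a7) (a6)

noncomputable def sl102_v (a1 a2 a3 a4 a5 a6 a7 : ℝ) : ℝ := sl102_v14 a1 a2 a3 a4 a5 a6 a7

noncomputable def sl112_v7 (_a1 _a2 _a3 _a4 _a5 _a6 _a7 : ℝ) : ℝ := Real.sqrt ((3 : ℕ) : ℝ)

noncomputable def sl112_v8 (a1 a2 a3 a4 a5 a6 a7 : ℝ) : ℝ := ((1 : ℕ) : ℝ) / ((2 : ℕ) : ℝ) * sl112_v7 a1 a2 a3 a4 a5 a6 a7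

noncomputable def sl112_v11 (a1 a2 a3 a4 a5 a6 a7 : ℝ) : ℝ := a4 - sl112_v8 a1 a2 a3 a4 a5 a6 a7

noncomputable def sl112_v12 (a1 a2 a3 a4 a5 a6 a7 : ℝ) : ℝ := sl112_v8 a1 a2 a3 a4 a5 a6 a7 - a3

noncomputable def sl112_v13 (a1 a2 a3 a4 a5 a6 a7 : ℝ) : ℝ := sl112_v8 a1 a2 a3 a4 a5 a6 a7 - a2

noncomputable def sl112_v14 (_a1 _a2 _a3 _a4 _a5 a6 _a7 : ℝ) : ℝ := -(a6)

noncomputable def sl112_v15 (_a1 _a2 _a3 _a4 a5 _a6 _a7 : ℝ) : ℝ := -(a5)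

noncomputable def sl112_v16 (a1 a2 a3 a4 a5 a6 a7 : ℝ) : ℝ := starw_v (a1) (sl112_v11 a1 a2 a3 a4 a5 a6 a7) (sl112_v12 a1 a2 a3 a4 a5 a6 a7) (sl112_v13 a1 a2 a3 a4 a5 a6 a7) (a7) (sl112_v14 a1 a2 a3 a4 a5 a6 a7) (sl112_v15 a1 a2 a3 a4 a5 a6 a7)

noncomputable def sl112_v (a1 a2 a3 a4 a5 a6 a7 : ℝ) : ℝ := sl112_v16 a1 a2 a3 a4 a5 a6 a7

noncomputable def sl113_v7 (_a1 _a2 _a3 _a4 _a5 _a6 _a7 : ℝ) : ℝ := Real.sqrt ((3 : ℕ) : ℝ)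

noncomputable def sl113_v8 (a1 a2 a3 a4 a5 a6 a7 : ℝ) : ℝ := ((1 : ℕ) : ℝ) / ((2 : ℕ) : ℝ) * sl113_v7 a1 a2 a3 a4 a5 a6 a7

noncomputable def sl113_v12 (a1 a2 a3 a4 a5 a6 a7 : ℝ) : ℝ := sl113_v8 a1 a2 a3 a4 a5 a6 a7 - a3

noncomputable def sl113_v13 (a1 a2 a3 a4 a5 a6 a7 : ℝ) : ℝ := sl113_v8 a1 a2 a3 a4 a5 a6 a7 - a2

noncomputable def sl113_v14 (_a1 _a2 _a3 _a4 _a5 a6 _a7 : ℝ) : ℝ := -(a6)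

noncomputable def sl113_v15 (_a1 _a2 _a3 _a4 a5 _a6 _a7 : ℝ) : ℝ := -(a5)

noncomputable def sl113_v16 (_a1 _a2 _a3 _a4 _a5 _a6 a7 : ℝ) : ℝ := -(a7)

noncomputable def sl113_v17 (a1 a2 a3 a4 a5 a6 a7 : ℝ) : ℝ := starn_v (a1) (sl113_v12 a1 a2 a3 a4 a5 a6 a7) (sl113_v13 a1 a2 a3 a4 a5 a6 a7) (sl113_v14 a1 a2 a3 a4 a5 a6 a7) (sl113_v15 a1 a2 a3 a4 a5 a6 a7) (sl113_v16 a1 a2 a3 a4 a5 a6 a7)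

noncomputable def sl113_v (a1 a2 a3 a4 a5 a6 a7 : ℝ) : ℝ := sl113_v17 a1 a2 a3 a4 a5 a6 a7

noncomputable def sl123_v7 (_a1 _a2 _a3 _a4 _a5 _a6 _a7 : ℝ) : ℝ := Real.sqrt ((3 : ℕ) : ℝ)

noncomputable def sl123_v8 (a1 a2 a3 a4 a5 a6 a7 : ℝ) : ℝ := ((1 : ℕ) : ℝ) / ((2 : ℕ) : ℝ) * sl123_v7 a1 a2 a3 a4 a5 a6 a7

noncomputable def sl123_v10 (a1 a2 a3 a4 a5 a6 a7 : ℝ) : ℝ := a3 - sl123_v8 a1 a2 a3 a4 a5 a6 a7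

noncomputable def sl123_v12 (a1 a2 a3 a4 a5 a6 a7 : ℝ) : ℝ := sl123_v7 a1 a2 a3 a4 a5 a6 a7 - a4

noncomputable def sl123_v13 (_a1 _a2 _a3 _a4 _a5 a6 _a7 : ℝ) : ℝ := -(a6)

noncomputable def sl123_v14 (a1 a2 a3 a4 a5 a6 a7 : ℝ) : ℝ := starn_v (a1) (sl123_v10 a1 a2 a3 a4 a5 a6 a7) (sl123_v12 a1 a2 a3 a4 a5 a6 a7) (sl123_v13 a1 a2 a3 a4 a5 a6 a7) (a7) (a5)

noncomputable def sl123_v (a1 a2 a3 a4 a5 a6 a7 : ℝ) : ℝ := sl123_v14 a1 a2 a3 a4 a5 a6 a7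

noncomputable def sl133_v7 (_a1 _a2 _a3 _a4 _a5 _a6 _a7 : ℝ) : ℝ := Real.sqrt ((3 : ℕ) : ℝ)

noncomputable def sl133_v8 (a1 a2 a3 a4 a5 a6 a7 : ℝ) : ℝ := ((1 : ℕ) : ℝ) / ((2 : ℕ) : ℝ) * sl133_v7 a1 a2 a3 a4 a5 a6 a7

noncomputable def sl133_v11 (a1 a2 a3 a4 a5 a6 a7 : ℝ) : ℝ := a4 - sl133_v7 a1 a2 a3 a4 a5 a6 a7

noncomputable def sl133_v12 (a1 a2 a3 a4 a5 a6 a7 : ℝ) : ℝ := sl133_v7 a1 a2 a3 a4 a5 a6 a7 - a3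

noncomputable def sl133_v13 (a1 a2 a3 a4 a5 a6 a7 : ℝ) : ℝ := sl133_v8 a1 a2 a3 a4 a5 a6 a7 - a2

noncomputable def sl133_v14 (_a1 _a2 _a3 _a4 _a5 a6 _a7 : ℝ) : ℝ := -(a6)

noncomputable def sl133_v15 (_a1 _a2 _a3 _a4 a5 _a6 _a7 : ℝ) : ℝ := -(a5)

noncomputable def sl133_v16 (a1 a2 a3 a4 a5 a6 a7 : ℝ) : ℝ := starw_v (a1) (sl133_v11 a1 a2 a3 a4 a5 a6 a7) (sl133_v12 a1 a2 a3 a4 a5 a6 a7) (sl133_v13 a1 a2 a3 a4 a5 a6 a7) (a7) (sl133_v14 a1 a2 a3 a4 a5 a6 a7) (sl133_v15 a1 a2 a3 a4 a5 a6 a7)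

noncomputable def sl133_v (a1 a2 a3 a4 a5 a6 a7 : ℝ) : ℝ := sl133_v16 a1 a2 a3 a4 a5 a6 a7

noncomputable def sl202_v7 (_a1 _a2 _a3 _a4 _a5 _a6 _a7 : ℝ) : ℝ := Real.sqrt ((3 : ℕ) : ℝ)

noncomputable def sl202_v8 (a1 a2 a3 a4 a5 a6 a7 : ℝ) : ℝ := ((1 : ℕ) : ℝ) / ((2 : ℕ) : ℝ) * sl202_v7 a1 a2 a3 a4 a5 a6 a7

noncomputable def sl202_v9 (a1 a2 a3 a4 a5 a6 a7 : ℝ) : ℝ := a2 - sl202_v8 a1 a2 a3 a4 a5 a6 a7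

noncomputable def sl202_v12 (_a1 _a2 _a3 _a4 a5 _a6 _a7 : ℝ) : ℝ := -(a5)

noncomputable def sl202_v13 (_a1 _a2 _a3 _a4 _a5 a6 _a7 : ℝ) : ℝ := -(a6)

noncomputable def sl202_v14 (_a1 _a2 _a3 _a4 _a5 _a6 a7 : ℝ) : ℝ := -(a7)

noncomputable def sl202_v15 (a1 a2 a3 a4 a5 a6 a7 : ℝ) : ℝ := starn_v (a1) (sl202_v9 a1 a2 a3 a4 a5 a6 a7) (a3) (sl202_v12 a1 a2 a3 a4 a5 a6 a7) (sl202_v13 a1 a2 a3 a4 a5 a6 a7) (sl202_v14 a1 a2 a3 a4 a5 a6 a7)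

noncomputable def sl202_v (a1 a2 a3 a4 a5 a6 a7 : ℝ) : ℝ := sl202_v15 a1 a2 a3 a4 a5 a6 a7

noncomputable def sl203_v7 (_a1 _a2 _a3 _a4 _a5 _a6 _a7 : ℝ) : ℝ := Real.sqrt ((3 : ℕ) : ℝ)

noncomputable def sl203_v8 (a1 a2 a3 a4 a5 a6 a7 : ℝ) : ℝ := ((1 : ℕ) : ℝ) / ((2 : ℕ) : ℝ) * sl203_v7 a1 a2 a3 a4 a5 a6 a7

noncomputable def sl203_v9 (a1 a2 a3 a4 a5 a6 a7 : ℝ) : ℝ := a2 - sl203_v8 a1 a2 a3 a4 a5 a6 a7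

noncomputable def sl203_v12 (a1 a2 a3 a4 a5 a6 a7 : ℝ) : ℝ := sl203_v7 a1 a2 a3 a4 a5 a6 a7 - a4

noncomputable def sl203_v13 (_a1 _a2 _a3 _a4 a5 _a6 _a7 : ℝ) : ℝ := -(a5)

noncomputable def sl203_v14 (_a1 _a2 _a3 _a4 _a5 a6 _a7 : ℝ) : ℝ := -(a6)

noncomputable def sl203_v15 (a1 a2 a3 a4 a5 a6 a7 : ℝ) : ℝ := starw_v (a1) (sl203_v9 a1 a2 a3 a4 a5 a6 a7) (a3) (sl203_v12 a1 a2 a3 a4 a5 a6 a7) (sl203_v13 a1 a2 a3 a4 a5 a6 a7) (sl203_v14 a1 a2 a3 a4 a5 a6 a7) (a7)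

noncomputable def sl203_v (a1 a2 a3 a4 a5 a6 a7 : ℝ) : ℝ := sl203_v15 a1 a2 a3 a4 a5 a6 a7

noncomputable def sl213_v7 (_a1 _a2 _a3 _a4 _a5 _a6 _a7 : ℝ) : ℝ := Real.sqrt ((3 : ℕ) : ℝ)

noncomputable def sl213_v8 (a1 a2 a3 a4 a5 a6 a7 : ℝ) : ℝ := ((1 : ℕ) : ℝ) / ((2 : ℕ) : ℝ) * sl213_v7 a1 a2 a3 a4 a5 a6 a7

noncomputable def sl213_v9 (a1 a2 a3 a4 a5 a6 a7 : ℝ) : ℝ := a2 - sl213_v8 a1 a2 a3 a4 a5 a6 a7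

noncomputable def sl213_v12 (a1 a2 a3 a4 a5 a6 a7 : ℝ) : ℝ := sl213_v7 a1 a2 a3 a4 a5 a6 a7 - a4

noncomputable def sl213_v13 (_a1 _a2 _a3 _a4 a5 _a6 _a7 : ℝ) : ℝ := -(a5)

noncomputable def sl213_v14 (a1 a2 a3 a4 a5 a6 a7 : ℝ) : ℝ := starn_v (a1) (sl213_v12 a1 a2 a3 a4 a5 a6 a7) (sl213_v9 a1 a2 a3 a4 a5 a6 a7) (a7) (sl213_v13 a1 a2 a3 a4 a5 a6 a7) (a6)

noncomputable def sl213_v (a1 a2 a3 a4 a5 a6 a7 : ℝ) : ℝ := sl213_v14 a1 a2 a3 a4 a5 a6 a7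

noncomputable def sl303_v7 (_a1 _a2 _a3 _a4 _a5 _a6 _a7 : ℝ) : ℝ := Real.sqrt ((3 : ℕ) : ℝ)

noncomputable def sl303_v12 (a1 a2 a3 a4 a5 a6 a7 : ℝ) : ℝ := sl303_v7 a1 a2 a3 a4 a5 a6 a7 - a4

noncomputable def sl303_v13 (_a1 _a2 _a3 _a4 _a5 a6 _a7 : ℝ) : ℝ := -(a6)

noncomputable def sl303_v14 (a1 a2 a3 a4 a5 a6 a7 : ℝ) : ℝ := starn_v (a1) (a3) (sl303_v12 a1 a2 a3 a4 a5 a6 a7) (sl303_v13 a1 a2 a3 a4 a5 a6 a7) (a7) (a5)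

noncomputable def sl303_v (a1 a2 a3 a4 a5 a6 a7 : ℝ) : ℝ := sl303_v14 a1 a2 a3 a4 a5 a6 a7

noncomputable def sl313_v7 (_a1 _a2 _a3 _a4 _a5 _a6 _a7 : ℝ) : ℝ := Real.sqrt ((3 : ℕ) : ℝ)

noncomputable def sl313_v8 (a1 a2 a3 a4 a5 a6 a7 : ℝ) : ℝ := ((1 : ℕ) : ℝ) / ((2 : ℕ) : ℝ) * sl313_v7 a1 a2 a3 a4 a5 a6 a7

noncomputable def sl313_v11 (a1 a2 a3 a4 a5 a6 a7 : ℝ) : ℝ := a4 - sl313_v7 a1 a2 a3 a4 a5 a6 a7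

noncomputable def sl313_v12 (a1 a2 a3 a4 a5 a6 a7 : ℝ) : ℝ := sl313_v8 a1 a2 a3 a4 a5 a6 a7 - a3

noncomputable def sl313_v13 (a1 a2 a3 a4 a5 a6 a7 : ℝ) : ℝ := sl313_v7 a1 a2 a3 a4 a5 a6 a7 - a2

noncomputable def sl313_v14 (_a1 _a2 _a3 _a4 _a5 a6 _a7 : ℝ) : ℝ := -(a6)

noncomputable def sl313_v15 (_a1 _a2 _a3 _a4 a5 _a6 _a7 : ℝ) : ℝ := -(a5)

noncomputable def sl313_v16 (a1 a2 a3 a4 a5 a6 a7 : ℝ) : ℝ := starw_v (a1) (sl313_v11 a1 a2 a3 a4 a5 a6 a7) (sl313_v12 a1 a2 a3 a4 a5 a6 a7) (sl313_v13 a1 a2 a3 a4 a5 a6 a7) (a7) (sl313_v14 a1 a2 a3 a4 a5 a6 a7) (sl313_v15 a1 a2 a3 a4 a5 a6 a7)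

noncomputable def sl313_v (a1 a2 a3 a4 a5 a6 a7 : ℝ) : ℝ := sl313_v16 a1 a2 a3 a4 a5 a6 a7

end Pool.Agent.Strip051.LB.Fn
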